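import Pool.Agent.D0H43.L9.StmA

/-!
# Project L9: the entire continuation and the central value (L9-ANV)
-/

set_option autoImplicit false
set_option linter.unusedSectionVars false

open Filter
open scoped Classical Topology PeriodPair

namespace Pool.Agent.D0H43.L9

namespace Anv

open Pool.Agent.Y692.QS (Ei w nr toC)
open Pool.Agent.Y703.CT
open Pool.Agent.D0H43.L3 (fT)
open Pool.Agent.W192.HK Pool.Agent.TH936.CM Pool.Agent.TH936.PU
open Pool.Agent.W192.CM (nu)
open Pool.Agent.Y715.Dist Pool.Agent.Y715.Idn Pool.Agent.Y696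
open Pool.Agent.Y715.T.Rs (eq0)
open Pool.Agent.Y715.T.Lat (la la_coe)
open Pool.Agent.Y715.T.Three (lam lam_ne')
open Pool.Agent.Y703.CT.Ana (ej eo_j ej_u ej_ncop ej_prim)
open Pool.Agent.Y715.CT.Hec
open Pool.Agent.Y715.CT.AN1b (Xo_X conj_w conj_X)

variable {J : Type} [Fintype J] {π : J → Ei} {e : J → ZMod 3} {i : ZMod 3} {j : Fin 3}

lemma fT_coe : ((fT : eis) : ℂ) = 9 := rfl

lemma fT_eq : (fT : eis) = 3 * 3 := by
  unfold fT
  norm_num

lemma fT_ne : (fT : eis) ≠ 0 := by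
  rw [fT_eq]
  exact mul_ne_zero Pool.Agent.Y696.three_ne Pool.Agent.Y696.three_ne

lemma cop_fT (h : Dt π e) : IsCoprime (fT : eis) (cP π) := by
  rw [fT_eq]
  exact IsCoprime.mul_left (cop3 h) (cop3 h)

lemma eN_u (hc : S_CHIN) (i : ZMod 3) (k : Fin 3) {u : eis} (hu : IsUnit u) :
    eN i k u = (u : ℂ) ^ (2 * (k : ℕ) + 1) := by
  unfold eN
  rw [ej_u k hu, (hc i).2.2.1 u hu, mul_one]

/-- the vanishing for the wrong exponents -/
lemma SS_zero (hc : S_CHIN) (h : Dt π e) (hj : om ^ (2 * (j : ℕ)) * XX π e omr = 1) {k : Fin 3}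
    (hk : k ≠ j) (δ : ℝ) : SS (fun α : eis => eN i k α * XX π e α) δ = 0 := by
  have hu : IsUnit omr := (unit_list _).2 (by simp)
  have h3 := om_cube
  have hn : Complex.normSq om = 1 := by
    have := (isUnit_iff' omr).1 hu
    rwa [omr_coe] at this
  set a : eisˣ := hu.unit with ha
  have ha' : (a : eis) = omr := rfl
  have h1 : SS (fun α : eis => eN i k α * XX π e α) δ =
      (om ^ (2 * (k : ℕ)) * XX π e omr) * SS (fun α : eis => eN i k α * XX π e α) δ := by
    unfold SS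
    rw [← tsum_mul_left, ← (Units.mulLeft a).tsum_eq]
    refine tsum_congr fun α => ?_
    show eN i k (omr * α) * XX π e (omr * α) * fd δ ((omr * α : eis) : ℂ) =
      om ^ (2 * (k : ℕ)) * XX π e omr * (eN i k α * XX π e α * fd δ (α : ℂ))
    rw [X_mul h, ((hc i).2.2.2.2.1 k).mul, eN_u hc i k hu]
    have e1 : ((omr * α : eis) : ℂ) = om * α := rfl
    rw [e1, fd_mul, hn, mul_one, omr_coe, pow_succ]
    have h0 := om_ne
    field_simp
  have h2 : om ^ (2 * (k : ℕ)) * XX π e omr ≠ 1 := by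
    intro h4
    have hX : XX π e omr ≠ 0 := right_ne_zero_of_mul (by rw [h4]; exact one_ne_zero)
    have h5 : om ^ (2 * (k : ℕ)) = om ^ (2 * (j : ℕ)) :=
      mul_right_cancel₀ hX (by rw [h4, hj])
    have key : ∀ m n : ℕ, m < n → n < 3 → om ^ (2 * m) ≠ om ^ (2 * n) := by
      intro m n hmn hn3 h6
      have hm : m = 0 ∧ n = 1 ∨ m = 0 ∧ n = 2 ∨ m = 1 ∧ n = 2 := by omega
      rcases hm with ⟨rfl, rfl⟩ | ⟨rfl, rfl⟩ | ⟨rfl, rfl⟩
      · apply om2_ne_one
        linear_combination -h6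
      · apply om_ne_one
        linear_combination -h6 - om * h3
      · apply om2_ne_one
        linear_combination (-om) * h6 + (-om ^ 2) * h3 + h3
    rcases lt_trichotomy (k : ℕ) j with h6 | h6 | h6
    · exact key _ _ h6 j.2 h5
    · exact hk (Fin.ext h6)
    · exact key _ _ h6 k.2 h5.symm
  have h4 : (om ^ (2 * (k : ℕ)) * XX π e omr - 1) *
      SS (fun α : eis => eN i k α * XX π e α) δ = 0 := by linear_combination -h1
  exact (mul_eq_zero.1 h4).resolve_left (sub_ne_zero.2 h2)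

lemma sum_iff (hth : ∀ α : eis, thN π e i j (sp α) = ggN π e i j α)
    (hz : ∀ α : eis, ggN π e i j α = 0 ↔ (α = 0 ∨ ¬ IsCoprime α (fT * cP π)))
    (h : Dt π e) {s F : ℂ} :
    HasSum (fun I : Ideal eis => thN π e i j I * (nm I : ℂ) ^ (-s)) F ↔
    HasSum (fun α : {α : Ei // (3 : Ei) ∣ α - 1} =>
      toC α * (chD π e α * toC w ^ (-qN i α).val) * ((nr α : ℤ) : ℂ) ^ (-s)) F := by
  have hinj : Function.Injective
      (fun α : {α : Ei // (3 : Ei) ∣ α - 1} => (sp (eq0 (α : Ei)) : Ideal eis)) := by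
    intro α β hab
    apply Subtype.ext
    apply eq0.injective
    exact prim_unique (Pool.Agent.Y715.T.Ex.three_mem.2 α.2)
      (Pool.Agent.Y715.T.Ex.three_mem.2 β.2) hab
  rw [← hinj.hasSum_iff]
  · refine iff_of_eq ?_
    congr 1
    funext α
    have h2 : ((nm (sp (eq0 (α : Ei)) : Ideal eis) : ℝ) : ℂ) = ((nr (α : Ei) : ℤ) : ℂ) := by
      have h3 := Pool.Agent.Y715.T.Rs.card_quo (α : Ei)
      have h4 : Nat.card (eis ⧸ (sp (eq0 (α : Ei)) : Ideal eis)) =
          Nat.card (Ei ⧸ Ideal.span {(α : Ei)}) := by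
        rw [← Pool.Agent.Y715.T.Tf.up_sp, Pool.Agent.Y715.T.Tf.card_up]
      have h5 : nm (sp (eq0 (α : Ei)) : Ideal eis) =
          ((Nat.card (Ei ⧸ Ideal.span {(α : Ei)}) : ℕ) : ℝ) := by
        rw [← h4]
        rfl
      rw [h5]
      exact_mod_cast congrArg (fun n : ℤ => (n : ℂ)) h3
    show thN π e i j (sp (eq0 (α : Ei))) * ((nm (sp (eq0 (α : Ei)) : Ideal eis) : ℝ) : ℂ) ^ (-s) = _
    rw [h2, hth]
    have h6 : (starRingEnd ℂ) (cN i (eq0 (α : Ei))) = toC w ^ (-qN i (α : Ei)).val := by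
      unfold cN
      rw [RingEquiv.symm_apply_apply]
      have h7 := conj_w (-qN i (α : Ei))
      rwa [neg_neg] at h7
    unfold ggN eN
    rw [ej_prim j (Pool.Agent.Y715.T.Ex.three_mem.2 α.2), one_mul, map_mul, conj_X h, h6,
      Pool.Agent.Y715.T.Rs.eq0_coe]
    ring
  · intro I hI
    have h1 : thN π e i j I = 0 := by
      obtain ⟨β, rfl⟩ : ∃ β : eis, I = sp β :=
        ⟨_, (Submodule.IsPrincipal.span_singleton_generator I).symm⟩
      rw [hth, hz]
      right
      intro h2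
      rw [IsCoprime.mul_right_iff] at h2
      have h2' : IsCoprime β 3 := by
        have := h2.1
        rw [fT_eq, IsCoprime.mul_right_iff] at this
        exact this.1
      have h5 : IsCoprime (sp β) (sp (3 : eis)) := by
        rw [Ideal.isCoprime_span_singleton_iff]
        exact h2'
      obtain ⟨α, h3, h4⟩ := exists_prim h5
      apply hI
      refine ⟨⟨eq0.symm α, ?_⟩, ?_⟩
      · rw [← Pool.Agent.Y715.T.Ex.three_mem, RingEquiv.apply_symm_apply]
        exact h4
      · show (sp (eq0 (eq0.symm α)) : Ideal eis) = sp β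
        rw [RingEquiv.apply_symm_apply, h3]
    rw [h1, zero_mul]

end Anv

open Pool.Agent.Y692.QS (Ei w nr toC)
open Pool.Agent.Y703.CT
open Pool.Agent.D0H43.L3 (fT)
open Pool.Agent.W192.HK Pool.Agent.TH936.CM Pool.Agent.TH936.PU
open Pool.Agent.W192.CM (nu)
open Pool.Agent.Y715.Dist Pool.Agent.Y715.Idn Pool.Agent.Y696
open Pool.Agent.Y715.T.Rs (eq0)
open Pool.Agent.Y715.T.Lat (la la_coe)
open Pool.Agent.Y715.T.Three (lam lam_ne')
open Pool.Agent.Y703.CT.Ana (ej eo_j ej_u ej_ncop ej_prim)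
open Pool.Agent.Y715.CT.Hec
open Pool.Agent.Y715.CT.AN1b (Xo_X conj_w conj_X)
open Anv

set_option maxHeartbeats 1600000 in
/-- **L9-ANV.** -/
theorem anvN : S_ANVN := by
  intro hchi hhec J _ _ π e i h
  obtain ⟨j, hj⟩ := ex_j h
  obtain ⟨hth, hz, hθ⟩ := hhec hchi J π e i h j hj
  have hfin := Pool.Agent.Y715.T.LF.fin_quot
  have hcP0 := cP_ne h
  have hq0 : fT * cP π ≠ 0 := mul_ne_zero fT_ne hcP0
  obtain ⟨F, g1, g2, g3⟩ := lim_L Pool.Agent.Y696.lbasic Pool.Agent.Y696.lfp Pool.Agent.Y696.lcnt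
    Pool.Agent.Y696.ldec Pool.Agent.Y696.lafe qr hθ (sys_pid (hfin _ hq0))
  refine ⟨F, ⟨g1, fun s hs => (sum_iff hth hz h).1 (g2 s hs)⟩, ?_⟩
  intro _ L Ω hC
  have h3 := cop_fT h
  have : Finite (eis ⧸ sp (cP π)) := hfin _ hcP0
  have : Fintype (eis ⧸ sp (cP π)) := Fintype.ofFinite _
  have : Finite (eis ⧸ sp (fT * cP π)) := hfin _ hq0
  have : Fintype (eis ⧸ sp (fT * cP π)) := Fintype.ofFinite _
  have hXo := Xo_X h
  have hΩ := hC.lat.ne
  -- the value of the sums
  have hec : ∀ k : Fin 3, eN i k (cP π) = cN i (cP π) := by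
    intro k
    unfold eN
    rw [ej_prim k, one_mul]
    unfold cP cc
    have key : ∀ S : Finset J, (∏ i ∈ S, eq0 (π i)) - 1 ∈ (sp 3 : Ideal eis) := by
      intro S
      induction S using Finset.induction_on with
      | empty =>
        rw [Finset.prod_empty, sub_self]
        exact Submodule.zero_mem _
      | insert k S hk ih =>
        rw [Finset.prod_insert hk]
        have h4 := (sp 3 : Ideal eis).add_mem ((sp 3 : Ideal eis).mul_mem_left (eq0 (π k)) ih)
          (Pool.Agent.Y715.T.Ex.three_mem.2 (h.pq k).three)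
        have e1 : eq0 (π k) * ∏ i ∈ S, eq0 (π i) - 1 =
            eq0 (π k) * (∏ i ∈ S, eq0 (π i) - 1) + (eq0 (π k) - 1) := by ring
        rw [e1]
        exact h4
    exact key _
  have hc3 : cN i (cP π) ^ 3 = 1 := (hchi i).2.2.2.1 _
  have hcN : cN i (cP π) ≠ 0 := by
    intro h0
    rw [h0] at hc3
    norm_num at hc3
  set A : Fin 3 → ℂ := fun k => ∑ x : eis ⧸ sp (cP π), XX π e x.out *
    HH L Ω fT (eN i k) (Ω * x.out / cP π) with hA
  have hlim : ∀ k : Fin 3, Tendsto (fun δ : ℝ => SS (fun α : eis => eN i k α * XX π e α) δ)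
      (𝓝[>] 0) (𝓝 (Ω / (fT * cP π) * (cN i (cP π) * XX π e fT) * A k)) := by
    intro k
    have h4 := lim_SS hC.lat fT_ne hcP0 h3 ((hchi i).2.2.2.2.1 k) hXo
    rw [hec k] at h4
    exact h4
  have hX3 : XX π e fT ≠ 0 := (X_ne_cop h).2 h3
  have hcC : ((cP π : eis) : ℂ) ≠ 0 := coe_ne hcP0
  have hfC : ((fT : eis) : ℂ) ≠ 0 := coe_ne fT_ne
  have hA0 : ∀ k : Fin 3, k ≠ j → A k = 0 := by
    intro k hk
    have h4 := hlim k
    have h5 : Tendsto (fun δ : ℝ => SS (fun α : eis => eN i k α * XX π e α) δ)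
        (𝓝[>] 0) (𝓝 0) := by
      refine tendsto_const_nhds.congr fun δ => (SS_zero hchi h hj hk δ).symm
    have h6 := tendsto_nhds_unique h4 h5
    have h7 : Ω / (fT * cP π) * (cN i (cP π) * XX π e fT) ≠ 0 :=
      mul_ne_zero (div_ne_zero hΩ (mul_ne_zero hfC hcC)) (mul_ne_zero hcN hX3)
    exact (mul_eq_zero.1 h6).resolve_left h7
  have hAj : 6 * (starRingEnd ℂ) (F 1) = Ω / (fT * cP π) * (cN i (cP π) * XX π e fT) * A j := by
    refine tendsto_nhds_unique ?_ (hlim j)
    rw [Pool.Agent.Y715.T.LF.nu_eq] at g3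
    have e6 : (((6 : ℕ) : ℂ)) = 6 := by norm_num
    rw [e6] at g3
    refine g3.congr fun δ => ?_
    rw [Finset.sum_singleton]
    have t1 : thN π e i j ⊤ = 1 := by
      have e1 : (⊤ : Ideal eis) = sp 1 := by
        rw [eq_comm, Ideal.span_singleton_eq_top]
        exact isUnit_one
      rw [e1, hθ.princ 1 one_ne_zero (by rw [sub_self]; exact Submodule.zero_mem _)]
      simp
    have t2 : nm (⊤ : Ideal eis) = 1 :=
      ((Pool.Agent.Y696.lbasic eis om qr).2.2.2.2.2.2.1 ⊤).2 rfl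
    rw [t1, one_mul, t2, div_one]
    congr 1
    funext α
    unfold cb fp
    rw [if_pos Submodule.mem_top, hth, pow_one]
    unfold ggN
    by_cases h0 : α = 0
    · have h5 : eN i j 0 = 0 := ((hchi i).2.2.2.2.1 j).zero (Submodule.zero_mem _)
      rw [h0, h5]
      simp
    · have h5 : (α : ℂ) ≠ 0 := coe_ne h0
      rw [mul_div_cancel_left₀ _ h5, Complex.conj_conj]
  -- the sums in terms of `SP`
  have hSP : ∀ k : Fin 3, SP L Ω fT (eN i k) (CN L Ω i k) (fun k => eq0 (π k)) (Xc π e)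
      Finset.univ = A k := by
    intro k
    unfold SP
    have e1 : cc (fun k => eq0 (π k)) Finset.univ = cP π := rfl
    rw [e1, Sm_eq]
    have h8 : ∀ x : eis ⧸ sp (cP π), XT (Xc π e) Finset.univ x.out *
        Ph L Ω fT (eN i k) (CN L Ω i k) (cP π) x.out =
        XX π e x.out * HH L Ω fT (eN i k) (Ω * x.out / cP π) +
          XX π e x.out * (CN L Ω i k) := by
      intro x
      by_cases hx : x.out ∈ sp (cP π)
      · have h9 : XT (Xc π e) Finset.univ x.out = 0 := hXo.zero _ hx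
        have h9' : XX π e x.out = 0 := h9
        rw [h9, h9']
        ring
      · rw [Ph_of_notMem hx]
        show XX π e x.out * (HH L Ω fT (eN i k) (Ω * x.out / cP π) + _) = _
        ring
    rw [Finset.sum_congr rfl fun x _ => h8 x, Finset.sum_add_distrib, ← Finset.sum_mul, hXo.sum,
      zero_mul, add_zero]
  have hSQ : SQN L Ω π e i Finset.univ = cN i (cP π) * A j := by
    unfold SQN
    have e1 : cc (fun k => eq0 (π k)) Finset.univ = cP π := rfl
    rw [e1, Finset.sum_congr rfl fun k _ => hSP k]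
    rw [Finset.sum_eq_single j]
    · intro k _ hk
      exact hA0 k hk
    · intro h4
      exact absurd (Finset.mem_univ j) h4
  refine ⟨XX π e fT, 3, by norm_num, X_cube h ((X_ne_iff h).1 hX3), ?_⟩
  have hprod : ((cP π : eis) : ℂ) = ∏ k, toC (π k) := by
    unfold cP cc
    push_cast
    rfl
  rw [hSQ, ← hprod]
  have h9 : (starRingEnd ℂ) (F 1) = (6 : ℂ)⁻¹ * (6 * (starRingEnd ℂ) (F 1)) := by ring
  rw [h9, hAj, fT_coe]
  field_simp
  ring

end Pool.Agent.D0H43.L9
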