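import Pool.Agent.D0H43.L9.StmA

/-!
# Project L9: the Hecke characters of conductor `3 √-3 ∏ π_j`
-/

set_option autoImplicit false
set_option linter.unusedSectionVars false

open scoped Classical

namespace Pool.Agent.D0H43.L9.Hec

open Pool.Agent.Y692.QS (Ei w nr toC)
open Pool.Agent.Y703.CT
open Pool.Agent.D0H43.L3 (fT)
open Pool.Agent.W192.HK
open Pool.Agent.TH936.PU
open Pool.Agent.Y715.Idn Pool.Agent.Y696
open Pool.Agent.Y715.T.Rs (eq0)
open Pool.Agent.Y715.T.Lat (la la_sq)
open Pool.Agent.Y703.CT.Ana (ej eo_j ej_u ej_ncop ej_prim)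
open Pool.Agent.Y715.CT.Hec (XX cP la_ne prime_la three_eq cop_la X_mul X_per X_one X_ne_cop
  cP_ne cop3 unitG w_ne nd_unit)

variable {J : Type} [Fintype J] {π : J → Ei} {e : J → ZMod 3} {i : ZMod 3}

lemma fT_eq : (fT : eis) = 3 * 3 := by
  unfold fT
  norm_num

lemma fT_ne : fT ≠ 0 := by
  rw [fT_eq]
  exact mul_ne_zero Pool.Agent.Y696.three_ne Pool.Agent.Y696.three_ne

lemma cop_fT {α : eis} : IsCoprime α fT ↔ IsCoprime α 3 := by
  rw [fT_eq, IsCoprime.mul_right_iff, and_self]

lemma three_mem {x : eis} (h : x ∈ (sp fT : Ideal eis)) : x ∈ (sp 3 : Ideal eis) := by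
  obtain ⟨t, ht⟩ := Ideal.mem_span_singleton'.1 h
  rw [Ideal.mem_span_singleton']
  exact ⟨t * 3, by rw [← ht, fT_eq]; ring⟩

lemma fT_la {ρ : eis} (hρ : Prime ρ) (h : ρ ∣ fT) : ρ ∣ la := by
  rw [fT_eq] at h
  have key : ρ ∣ (3 : eis) → ρ ∣ la := by
    intro h1
    rw [three_eq, dvd_neg] at h1
    rcases hρ.dvd_or_dvd h1 with h2 | h2
    · exact h2
    · exact h2
  rcases hρ.dvd_or_dvd h with h1 | h1
  · exact key h1
  · exact key h1

section C

variable (hc : S_CHIN)

include hc

lemma eN_mul (i : ZMod 3) (j : Fin 3) (x y : eis) : eN i j (x * y) = eN i j x * eN i j y :=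
  ((hc i).2.2.2.2.1 j).mul x y

lemma eN_per (i : ZMod 3) (j : Fin 3) {x y : eis} (h : x - y ∈ (sp fT : Ideal eis)) :
    eN i j x = eN i j y := ((hc i).2.2.2.2.1 j).per x y h

lemma eN_u (i : ZMod 3) (j : Fin 3) {u : eis} (hu : IsUnit u) :
    eN i j u = (u : ℂ) ^ (2 * (j : ℕ) + 1) := by
  unfold eN
  rw [ej_u j hu, (hc i).2.2.1 u hu, mul_one]

lemma eN_prim (i : ZMod 3) (j : Fin 3) {x : eis} (h : x - 1 ∈ (sp fT : Ideal eis)) :
    eN i j x = 1 := by
  rw [eN_per hc i j h, eN_u hc i j isUnit_one]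
  push_cast
  rw [one_pow]

end C

lemma eN_zero (i : ZMod 3) (j : Fin 3) (x : eis) : eN i j x = 0 ↔ ¬ IsCoprime x 3 := by
  unfold eN
  have hw : cN i x ≠ 0 := by
    unfold cN
    refine pow_ne_zero _ ?_
    intro h0
    have h1 := Pool.Agent.Y715.T.Fin.toC_w_cube
    rw [h0] at h1
    norm_num at h1
  rw [mul_eq_zero]
  constructor
  · intro h1 h2
    rcases h1 with h1 | h1
    · obtain ⟨u, hu, hu3⟩ := cop_three h2
      rw [(eo_j j).per _ _ hu3, ej_u j hu] at h1
      have h3 : (u : ℂ) = 0 := by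
        by_contra h4
        exact pow_ne_zero _ h4 h1
      exact hu.ne_zero (coe_inj' h3)
    · exact hw h1
  · intro h1
    exact Or.inl (ej_ncop j h1)

section T

variable (hc : S_CHIN) (h : Dt π e) {j : Fin 3} (hj : om ^ (2 * (j : ℕ)) * XX π e omr = 1)

include hc h

lemma gg_mul (α β : eis) : ggN π e i j (α * β) = ggN π e i j α * ggN π e i j β := by
  unfold ggN
  rw [X_mul h, eN_mul hc]
  push_cast
  simp only [map_mul]
  ring

include hj

lemma gg_unit {u : eis} (hu : IsUnit u) : ggN π e i j u = 1 := by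
  unfold ggN
  have h1 := unitG h hj hu
  have h2 : Complex.normSq (u : ℂ) = 1 := (isUnit_iff' u).1 hu
  have h3 : (u : ℂ) * (starRingEnd ℂ) (u : ℂ) = 1 := by
    rw [Complex.mul_conj, h2, Complex.ofReal_one]
  rw [eN_u hc i j hu, pow_succ]
  have h4 : (starRingEnd ℂ) ((u : ℂ) ^ (2 * (j : ℕ)) * XX π e u) = 1 := by rw [h1, map_one]
  rw [map_mul] at h4
  simp only [map_mul]
  linear_combination h3 * ((starRingEnd ℂ) ((u : ℂ) ^ (2 * (j : ℕ))) *
    (starRingEnd ℂ) (XX π e u)) + h4

lemma gg_assoc {α β : eis} (hab : Associated α β) : ggN π e i j α = ggN π e i j β := by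
  obtain ⟨u, rfl⟩ := hab
  rw [gg_mul hc h, gg_unit hc h hj u.isUnit, mul_one]

lemma th_sp (α : eis) : thN π e i j (sp α) = ggN π e i j α := by
  refine gg_assoc hc h hj ?_
  rw [← Ideal.span_singleton_eq_span_singleton]
  exact Ideal.span_singleton_generator _

omit hj hc in
lemma gg_zero_iff {α : eis} : ggN π e i j α = 0 ↔ (α = 0 ∨ ¬ IsCoprime α (fT * cP π)) := by
  rw [IsCoprime.mul_right_iff, cop_fT, ← X_ne_cop h]
  unfold ggN
  rw [mul_eq_zero, map_eq_zero, mul_eq_zero, eN_zero]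
  have h2 : (α : ℂ) = 0 ↔ α = 0 := by
    constructor
    · intro h3
      exact coe_inj' h3
    · rintro rfl
      rfl
  rw [h2]
  tauto

omit hj hc in
lemma ex_div {q' : Ideal eis} (hq : sp (fT * cP π) < q') :
    3 * la * cP π ∈ q' ∨ ∃ i, fT * cc (fun i => eq0 (π i)) (Finset.univ.erase i) ∈ q' := by
  obtain ⟨d, rfl⟩ : ∃ d : eis, q' = sp d :=
    ⟨_, (Submodule.IsPrincipal.span_singleton_generator q').symm⟩
  obtain ⟨t, ht⟩ : d ∣ fT * cP π := Ideal.span_singleton_le_span_singleton.1 hq.le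
  have hne : fT * cP π ≠ 0 := mul_ne_zero fT_ne (cP_ne h)
  have ht0 : t ≠ 0 := by
    rintro rfl
    rw [mul_zero] at ht
    exact hne ht
  have hnu : ¬ IsUnit t := by
    intro hu
    obtain ⟨v, hv⟩ := hu.exists_right_inv
    have h2 : fT * cP π ∣ d := ⟨v, by rw [ht, mul_assoc, hv, mul_one]⟩
    have := Ideal.span_singleton_le_span_singleton.2 h2
    exact absurd (le_antisymm hq.le this) hq.ne
  obtain ⟨ρ, hρ, s, hs⟩ := WfDvdMonoid.exists_irreducible_factor hnu ht0
  have hρ' := hρ.prime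
  have hd : ρ ∣ fT * cP π := ⟨d * s, by rw [ht, hs]; ring⟩
  rcases hρ'.dvd_or_dvd hd with h1 | h1
  · left
    obtain ⟨u, hu⟩ := hρ'.associated_of_dvd prime_la (fT_la hρ' h1)
    have h3 : ρ * (-(u * (3 * la * cP π))) = ρ * (d * s) := by
      have h5 : fT * cP π = d * (ρ * s) := by rw [ht, hs]
      rw [fT_eq] at h5
      have h6 : (3 : eis) = -(la * la) := three_eq
      linear_combination h5 - 3 * la * cP π * hu - 3 * cP π * h6
    have h4 := mul_left_cancel₀ hρ'.ne_zero h3
    rw [Ideal.mem_span_singleton']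
    refine ⟨-(s * (↑u⁻¹ : eis)), ?_⟩
    have h5 : (↑u⁻¹ : eis) * u = 1 := u.inv_mul
    linear_combination (↑u⁻¹ : eis) * h4 + (3 * la * cP π) * h5
  · right
    unfold cP cc at h1
    rw [hρ'.dvd_finsetProd_iff] at h1
    obtain ⟨k, -, hk⟩ := h1
    have hpi : Prime (eq0 (π k)) := (MulEquiv.prime_iff (eq0 : Ei ≃* eis)).2 (h.pq k).prime
    obtain ⟨u, hu⟩ := hρ'.associated_of_dvd hpi hk
    refine ⟨k, ?_⟩
    have hcp : cP π = eq0 (π k) * cc (fun i => eq0 (π i)) (Finset.univ.erase k) := by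
      unfold cP
      rw [← cc_insert (π := fun i => eq0 (π i)) (Finset.notMem_erase k Finset.univ),
        Finset.insert_erase (Finset.mem_univ k)]
    have h3 : ρ * (u * (fT * cc (fun i => eq0 (π i)) (Finset.univ.erase k))) =
        ρ * (d * s) := by
      have h5 : fT * cP π = d * (ρ * s) := by rw [ht, hs]
      rw [hcp, ← hu] at h5
      linear_combination h5
    have h4 := mul_left_cancel₀ hρ'.ne_zero h3
    rw [Ideal.mem_span_singleton']
    refine ⟨s * (↑u⁻¹ : eis), ?_⟩
    have h5 : (↑u⁻¹ : eis) * u = 1 := u.inv_mul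
    linear_combination -(↑u⁻¹ : eis) * h4 +
      (fT * cc (fun i => eq0 (π i)) (Finset.univ.erase k)) * h5

omit hj hc in
lemma cop_f : IsCoprime (fT : eis) (cP π) := by
  rw [fT_eq]
  exact IsCoprime.mul_left (cop3 h) (cop3 h)

/-- **The primitive Hecke character of conductor `3 √-3 ∏ π_j`.** -/
theorem hc_th : HC 1 (sp (fT * cP π)) (thN π e i j) := by
  refine ⟨?_, ?_, ?_, ?_, ?_⟩
  · rw [Ne, Ideal.span_singleton_eq_bot]
    exact mul_ne_zero fT_ne (cP_ne h)
  · intro I K
    obtain ⟨α, rfl⟩ : ∃ α : eis, I = sp α :=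
      ⟨_, (Submodule.IsPrincipal.span_singleton_generator I).symm⟩
    obtain ⟨β, rfl⟩ : ∃ β : eis, K = sp β :=
      ⟨_, (Submodule.IsPrincipal.span_singleton_generator K).symm⟩
    have e1 : sp α * sp β = sp (α * β) := Ideal.span_singleton_mul_span_singleton α β
    rw [e1, th_sp hc h hj, th_sp hc h hj, th_sp hc h hj, gg_mul hc h]
  · intro I
    obtain ⟨α, rfl⟩ : ∃ α : eis, I = sp α :=
      ⟨_, (Submodule.IsPrincipal.span_singleton_generator I).symm⟩
    rw [th_sp hc h hj, gg_zero_iff h, Ideal.span_singleton_eq_bot,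
      Ideal.isCoprime_span_singleton_iff]
  · intro α _ hα
    rw [th_sp hc h hj, pow_one]
    unfold ggN
    rw [eN_prim hc i j (sp_mul_le' hα), X_per h (sp_mul_le hα), X_one h, mul_one, map_one,
      mul_one]
  · intro q' hq
    have h3c := cop_f h
    rcases ex_div h hq with h1 | ⟨k, h1⟩
    · obtain ⟨a, b, hab⟩ := h3c
      set α : eis := 1 + b * cP π * (3 * la) with hα
      have hα1 : α - 1 ∈ (sp (cP π) : Ideal eis) := by
        rw [Ideal.mem_span_singleton']
        exact ⟨b * (3 * la), by rw [hα]; ring⟩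
      have hα3 : α - 1 ∈ (sp 3 : Ideal eis) := by
        rw [Ideal.mem_span_singleton']
        exact ⟨b * cP π * la, by rw [hα]; ring⟩
      have hα4 : α - (1 + 3 * (((0 : ℤ) : eis) + ((1 : ℤ) : eis) * la)) ∈
          (sp fT : Ideal eis) := by
        rw [Ideal.mem_span_singleton']
        refine ⟨-3 * la * a, ?_⟩
        rw [hα]
        push_cast
        linear_combination -3 * la * hab
      have hX : XX π e α = 1 := by rw [X_per h hα1, X_one h]
      have hcop : IsCoprime α 3 := cop_of_unit isUnit_one hα3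
      have hα0 : α ≠ 0 := prim_ne hα3
      refine ⟨α, hα0, ?_, ?_, ?_⟩
      · have e1 : α - 1 = b * (3 * la * cP π) := by
          rw [hα]
          ring
        rw [e1]
        exact q'.mul_mem_left _ h1
      · rw [Ideal.isCoprime_span_singleton_iff, IsCoprime.mul_right_iff, cop_fT, ← X_ne_cop h, hX]
        exact ⟨hcop, one_ne_zero⟩
      · rw [th_sp hc h hj, pow_one]
        unfold ggN eN
        rw [hX, mul_one, ej_prim j hα3, one_mul, (hc i).1 _ _ hα4, (hc i).2.2.2.2.2 0 1]
        intro h2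
        have h4 : (α : ℂ) ≠ 0 := fun h5 => hα0 (coe_inj' h5)
        have h5 : (starRingEnd ℂ) (toC w ^ (-(i * ((0 : ℤ) : ZMod 3)) +
            ((1 : ℤ) : ZMod 3)).val) = 1 :=
          mul_left_cancel₀ h4 (by rw [h2, mul_one])
        have h6 := congrArg (starRingEnd ℂ) h5
        rw [Complex.conj_conj, map_one] at h6
        have h7 : toC w ^ (-(i * ((0 : ℤ) : ZMod 3)) + ((1 : ℤ) : ZMod 3)).val = toC w ^ 0 := by
          rw [h6, pow_zero]
        have h8 := Pool.Agent.Y715.T.Fin.w_pow_mod h7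
        rw [ZMod.natCast_zmod_val, Nat.cast_zero, Int.cast_zero, mul_zero, neg_zero, zero_add,
          Int.cast_one] at h8
        exact one_ne_zero h8
    · set P : J → eis := fun i => eq0 (π i) with hP
      set ci : eis := cc P (Finset.univ.erase k) with hci
      obtain ⟨g, hg0, hg⟩ := ex_ne (h.pq k)
      have hci3 : IsCoprime (fT * ci) (P k) := by
        rw [IsCoprime.mul_left_iff]
        constructor
        · have := cop_f h
          unfold cP cc at this
          rw [IsCoprime.prod_right_iff] at this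
          exact this k (Finset.mem_univ k)
        · exact ((Xc_fm h).cop_cc (Finset.notMem_erase k _)).symm
      obtain ⟨a, b, hab⟩ := hci3
      set α : eis := 1 + a * (fT * ci) * (eq0 g - 1) with hα
      have hαf : α - 1 ∈ (sp fT : Ideal eis) := by
        rw [Ideal.mem_span_singleton']
        exact ⟨a * ci * (eq0 g - 1), by rw [hα]; ring⟩
      have hα3 : α - 1 ∈ (sp 3 : Ideal eis) := three_mem hαf
      have hαk : ∀ l, l ≠ k → α - 1 ∈ (sp (P l) : Ideal eis) := by
        intro l hl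
        have h2 : α - 1 ∈ (sp ci : Ideal eis) := by
          rw [Ideal.mem_span_singleton']
          exact ⟨a * fT * (eq0 g - 1), by rw [hα]; ring⟩
        exact cc_mem (Finset.mem_erase.2 ⟨hl, Finset.mem_univ l⟩) h2
      have hαi : α - eq0 g ∈ (sp (P k) : Ideal eis) := by
        rw [Ideal.mem_span_singleton']
        exact ⟨-(eq0 g - 1) * b, by rw [hα]; linear_combination -(eq0 g - 1) * hab⟩
      have hX : XX π e α = Xc π e k (eq0 g) := by
        unfold XX XT
        rw [← Finset.mul_prod_erase Finset.univ _ (Finset.mem_univ k), Finset.prod_eq_one, mul_one]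
        · exact (Xc_fm h).per k _ _ hαi
        · intro l hl
          have h2 := (Xc_fm h).per l _ _ (hαk l (Finset.ne_of_mem_erase hl))
          rw [h2, Xc_of (nd_unit h isUnit_one l), map_one]
          have h4 := Pool.Agent.Y715.T.RecG.cs_one (h.pq l).prime (h.pq l).norm
          rw [h4, mul_zero, neg_zero, ZMod.val_zero, pow_zero]
      have hg1 : ¬ π k ∣ eq0.symm (eq0 g) := by rwa [RingEquiv.symm_apply_apply]
      have hXg : Xc π e k (eq0 g) ≠ 1 := by
        rw [Xc_of hg1, RingEquiv.symm_apply_apply]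
        intro h3
        have h4 : toC w ^ (-(e k * Pool.Agent.Y715.T.Rec.cs (π k) g)).val = toC w ^ 0 := by
          rw [h3, pow_zero]
        have h5 := Pool.Agent.Y715.T.Fin.w_pow_mod h4
        rw [ZMod.natCast_zmod_val, Nat.cast_zero, neg_eq_zero] at h5
        exact (mul_ne_zero (h.e0 k) hg) h5
      have hX0 : XX π e α ≠ 0 := by
        rw [hX, Xc_of hg1]
        exact pow_ne_zero _ (w_ne h)
      have hcop : IsCoprime α 3 := cop_of_unit isUnit_one hα3
      have hα0 : α ≠ 0 := prim_ne hα3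
      refine ⟨α, hα0, ?_, ?_, ?_⟩
      · have e1 : α - 1 = (a * (eq0 g - 1)) * (fT * ci) := by
          rw [hα]
          ring
        rw [e1]
        exact q'.mul_mem_left _ h1
      · rw [Ideal.isCoprime_span_singleton_iff, IsCoprime.mul_right_iff, cop_fT, ← X_ne_cop h]
        exact ⟨hcop, hX0⟩
      · rw [th_sp hc h hj, pow_one]
        unfold ggN
        rw [hX, eN_prim hc i j hαf, one_mul]
        intro h2
        have h4 : (α : ℂ) ≠ 0 := fun h5 => hα0 (coe_inj' h5)
        have h5 : (starRingEnd ℂ) (Xc π e k (eq0 g)) = 1 :=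
          mul_left_cancel₀ h4 (by rw [h2, mul_one])
        have h6 := congrArg (starRingEnd ℂ) h5
        rw [Complex.conj_conj, map_one] at h6
        exact hXg h6

end T

end Pool.Agent.D0H43.L9.Hec

namespace Pool.Agent.D0H43.L9

open Hec in
/-- **L9-HEC.** -/
theorem hecN : S_HECN := fun hc _ _ _ _ _ h _ hj =>
  ⟨fun α => th_sp hc h hj α, fun _ => gg_zero_iff h, hc_th hc h hj⟩

end Pool.Agent.D0H43.L9
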