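import Pool.Agent.D0H43.L9.Rec2
import Pool.Agent.D0H43.L9.Hec
import Pool.Agent.D0H43.L9.Anv
import Pool.Agent.D0H2.L9.Det

/-!
# Project L9: the valuation of the central value
-/

set_option autoImplicit false
set_option linter.unusedVariables false
set_option linter.unusedSectionVars false

open scoped Classical PeriodPair

namespace Pool.Agent.D0H43.L9

open Pool.Agent.Y692.QS (Ei w nr toC)
open Pool.Agent.Y703.CT (Dt pD chD Dt.neg)
open Pool.Agent.Y696 (Cur eis psi om)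
open Pool.Agent.Y715.T.Rs (eq0)
open Pool.Agent.W192.HK (sp)
open Pool.Agent.TH936.CM
open Pool.Agent.TH936.PU hiding v_int
open Pool.Agent.Y715.Idn Pool.Agent.Y715.Dist
open Pool.Agent.Y715.T.Rec (cs)
open Pool.Agent.Y715.T.Three (lam lam_lt lam_ne lam_ne' sq_three v_two)
open Pool.Agent.Y715.T.Cg (Cg Zt zt_of_prim z_pow)
open Pool.Agent.Y715.Two (v_nat v_int v_unit v_mul_le_of)
open Pool.Agent.N883.FF (nq)
open Pool.Agent.D0H43.L3 (fT)

lemma gz_aux {Γ : Type} [LinearOrderedCommGroupWithZero Γ] {x k g : Γ} (hx : x ≠ 0)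
    (hk : k ^ 3 = x) (hg : g ^ 3 = x ^ 7) (n : ℕ) :
    ((x ^ 6)⁻¹ * (x ^ 2 * k * g * x ^ n)) ^ 3 * x ^ 4 = x ^ (3 * n) := by
  rw [mul_pow, mul_pow, mul_pow, mul_pow, hk, hg]
  have h1 : (x ^ n) ^ 3 = x ^ (3 * n) := by rw [← pow_mul, mul_comm]
  rw [h1]
  have h2 : ((x ^ 6)⁻¹) ^ 3 * ((x ^ 2) ^ 3 * x * x ^ 7 * x ^ (3 * n)) * x ^ 4 =
      (((x ^ 6)⁻¹) ^ 3 * ((x ^ 2) ^ 3 * x * x ^ 7 * x ^ 4)) * x ^ (3 * n) := by
    simp only [mul_assoc, mul_comm (x ^ (3 * n))]
  rw [h2]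
  have h3 : (x ^ 2) ^ 3 * x * x ^ 7 * x ^ 4 = (x ^ 6) ^ 3 := by
    rw [← pow_mul, ← pow_mul, ← pow_succ, ← pow_add, ← pow_add]
  rw [h3, ← mul_pow, inv_mul_cancel₀ (pow_ne_zero 6 hx), one_pow, one_mul]

/-- the residues of the central sums do not vanish if the kernel is trivial -/
theorem rsne {Γ : Type} [LinearOrderedCommGroupWithZero Γ] {v : Valuation ℂ Γ} (hv : v 3 < 1)
    {L : PeriodPair} {Ω : ℂ} (hC : Cur L Ω) {J : Type} [Fintype J] {π : J → Ei}
    {e : J → ZMod 3} {i : ZMod 3} (hD : Dt π e) [Fintype (eis ⧸ (sp fT : Ideal eis))] {κ : ℂ}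
    (hκ : κ ^ 3 = 1 - toC w) (hk : KerN π e i) :
    rs v (SQN L Ω π (fun j => -e j) i Finset.univ /
      (6 * κ * g0N L Ω i * (1 - toC w) ^ Fintype.card J)) ≠ 0 := by
  obtain ⟨r1, r2, r3⟩ := recN (i := i) hv hC hD.neg hκ
  have h := Pool.Agent.D0H2.L9.detn (RF v) (io hv) J (fun j k => cs (π j) (π k))
    (fun k => nq (π k)) (fun k => qN i (π k)) (fun j => -e j) i
    (fun T => rs v (SQN L Ω π (fun j => -e j) i T /
      (6 * κ * g0N L Ω i * (1 - toC w) ^ T.card)))
    (fun j k hjk => Pool.Agent.Y350.CT.rec (π k) (π j) (hD.pq k) (hD.pq j) (hD.nd k j hjk.symm))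
    (fun j => neg_ne_zero.2 (hD.e0 j)) r2 r3 (by
      intro u a h1 h2
      refine hk u a (fun j => ?_) ?_
      · have := h1 j
        simpa only [neg_neg] using this
      · simpa only [neg_neg] using h2)
  simpa only [Finset.card_univ] using h

/-- **The valuation of the central value.** -/
theorem ann : S_ANN := by
  intro J _ _ π e i hD
  obtain ⟨F, hF, hval⟩ := anvN chiN hecN J π (fun j => -e j) i hD.neg
  refine ⟨F, hF, fun hk => ?_⟩
  have hfb : (fT : eis) ≠ 0 := by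
    unfold fT
    have : (9 : eis) = 3 * 3 := by norm_num
    rw [this]
    exact mul_ne_zero Pool.Agent.Y696.three_ne Pool.Agent.Y696.three_ne
  have : Fintype (eis ⧸ (sp fT : Ideal eis)) :=
    @Fintype.ofFinite _ (Pool.Agent.Y703.CT.fin_quot _ hfb)
  have hmain : ∀ (Γ : Type) [LinearOrderedCommGroupWithZero Γ] (v : Valuation ℂ Γ), v 3 < 1 →
        ∀ (L : PeriodPair) (Ω : ℂ), Cur L Ω →
          v ((starRingEnd ℂ) (F 1) / Ω) ^ 3 * v lam ^ 4 = v lam ^ (3 * Fintype.card J) := by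
    intro Γ _ v hv L Ω hC
    obtain ⟨ρ, n, hn, hρ, hval⟩ := hval L Ω hC
    obtain ⟨κ, hκ⟩ := IsAlgClosed.exists_pow_nat_eq (1 - toC w) (n := 3) (by norm_num)
    have hne := rsne hv hC hD hκ hk
    obtain ⟨r1, -, -⟩ := recN (i := i) hv hC hD.neg hκ
    have hle := r1 Finset.univ
    rw [Finset.card_univ] at hle
    have hone : v (SQN L Ω π (fun j => -e j) i Finset.univ /
      (6 * κ * g0N L Ω i * (1 - toC w) ^ Fintype.card J)) = 1 := by
      rcases hle.lt_or_eq with h | h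
      · exact absurd (rs_eq_zero h) hne
      · exact h
    have hz1 : (1 - toC w) ≠ 0 := (zt_w hv).ne
    have hg0 := g0_ne' (i := i) hv hκ hC
    have hκ0 := kap_ne hv hκ
    have hzl := v_one_sub_w (v := v) hv
    have hvκ := v_kap hv hκ
    have hvg : v (g0N L Ω i) ^ 3 = v lam ^ 7 := (valN Γ v hv L Ω hC i).1
    have hl : v lam ≠ 0 := lam_ne
    have hc : v (∏ j, toC (π j)) = 1 := by
      rw [map_prod]
      refine Finset.prod_eq_one fun k _ => ?_
      apply v_unit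
      have h := (Pool.Agent.Y703.CT.fy (v := v) hv hD).lin k
      rw [Pool.Agent.Y715.T.Rs.eq0_coe] at h
      exact h.trans_lt hv
    have h54 : v 54 = v lam ^ 6 := by
      have : (54 : ℂ) = 2 * 27 := by norm_num
      rw [this, map_mul, v_two hv, one_mul, Pool.Agent.Y715.T.Three.v_27]
    have h6' : v 6 = v lam ^ 2 := by
      have : (6 : ℂ) = 2 * 3 := by norm_num
      rw [this, map_mul, v_two hv, one_mul, pow_two, sq_three]
    have hS : v (SQN L Ω π (fun j => -e j) i Finset.univ) =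
        v lam ^ 2 * v κ * v (g0N L Ω i) * v lam ^ Fintype.card J := by
      have hden : (6 * κ * g0N L Ω i * (1 - toC w) ^ Fintype.card J) ≠ 0 :=
        mul_ne_zero (mul_ne_zero (mul_ne_zero (by norm_num) hκ0) hg0) (pow_ne_zero _ hz1)
      have e1 : SQN L Ω π (fun j => -e j) i Finset.univ =
          (6 * κ * g0N L Ω i * (1 - toC w) ^ Fintype.card J) *
          (SQN L Ω π (fun j => -e j) i Finset.univ /
            (6 * κ * g0N L Ω i * (1 - toC w) ^ Fintype.card J)) := by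
        rw [mul_div_cancel₀ _ hden]
      rw [e1, map_mul, hone, mul_one]
      simp only [map_mul, map_pow, h6', hzl]
    rw [hval]
    simp only [map_mul, map_inv₀, hc, z_pow hn hρ, h54, hS, inv_one, mul_one]
    exact gz_aux hl hvκ hvg _
  refine ⟨?_, hmain⟩
  intro hF0
  obtain ⟨B, hB⟩ := Pool.Agent.Y715.T.Fin.exists_over_three
  obtain ⟨θ, hθ, hL⟩ := Pool.Agent.Y696.exists_cur
  have h1 := hmain _ B.valuation hB _ _ hL
  rw [hF0, map_zero, zero_div, map_zero, zero_pow (by norm_num), zero_mul] at h1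
  exact pow_ne_zero _ lam_ne h1.symm

end Pool.Agent.D0H43.L9
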