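import Pool.Agent.D0H43.L3.Defs

/-!
# Project L9 (helper43): the cubic twists by `9 ω ^ i ∏ π_j ^ (e j)`, definitions

`E_D : y² + D y = x³`, `D = 9 ω ^ i ∏ π_j ^ (e j)`, `π_j` primary primes (`Dt π e`).  Modulo cubes
`D` is `√-3 ω ^ i ∏ π_j ^ (e j)`.
-/

set_option autoImplicit false

open scoped Classical

namespace Pool.Agent.D0H43.L9

open Pool.Agent.Y692.QS (Ei w nr toC)
open Pool.Agent.Y703.CT (Dt pD chD)
open Pool.Agent.Y715.T.Rec (cs)
open Pool.Agent.N883.FF (nq)
open Pool.Agent.D0H43.L3 (yq tq IsHLT)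

/-- the exponent of the cubic symbol of `9 ω ^ i` modulo `α`, for `α` prime to three -/
def qN (i : ZMod 3) (α : Ei) : ZMod 3 := i * nq α - yq α

/-- the kernel of the bordered Laplacian is trivial: `v j` are the values at the primes, `0` is the
value at `9 ω ^ i`, and `a` is the exponent of `ω` (the additional unknown), with one additional
equation (the local condition of level two at the prime above three) -/
def KerN {J : Type} [Fintype J] (π : J → Ei) (e : J → ZMod 3) (i : ZMod 3) : Prop :=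
  ∀ (v : J → ZMod 3) (a : ZMod 3),
    (∀ j, ∑ k, e k * cs (π j) (π k) * (v k - v j) + a * nq (π j) = qN i (π j) * v j) →
    ∑ k, e k * v k * nq (π k) = i * a → (∀ j, v j = 0) ∧ a = 0

/-- the element `9 ω ^ i ∏ π_j ^ (e j)` -/
def pN {J : Type} [Fintype J] (π : J → Ei) (e : J → ZMod 3) (i : ZMod 3) : Ei :=
  9 * (w ^ i.val * pD π e)

/-- the exponent of the cubic symbol of `3 ^ m ω ^ i` (`xq 0 i = i * nq`, `xq 1 = tq`,
`xq 2 = qN`) -/
def xq (m : ℕ) (i : ZMod 3) (α : Ei) : ZMod 3 := i * nq α + m * yq α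

/-- the element `3 ^ m ω ^ i ∏ π_j ^ (e j)` -/
def pX {J : Type} [Fintype J] (m : ℕ) (π : J → Ei) (e : J → ZMod 3) (i : ZMod 3) : Ei :=
  3 ^ m * (w ^ i.val * pD π e)

lemma xq_one (i : ZMod 3) (α : Ei) : xq 1 i α = tq i α := by
  unfold xq tq
  rw [Nat.cast_one, one_mul]

lemma xq_two (i : ZMod 3) (α : Ei) : xq 2 i α = qN i α := by
  unfold xq qN
  have h : ((2 : ℕ) : ZMod 3) = -1 := by decide
  rw [h]
  ring

lemma pX_one {J : Type} [Fintype J] (π : J → Ei) (e : J → ZMod 3) (i : ZMod 3) :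
    pX 1 π e i = Pool.Agent.D0H43.L3.pT π e i := by
  unfold pX Pool.Agent.D0H43.L3.pT
  rw [pow_one]

lemma pX_two {J : Type} [Fintype J] (π : J → Ei) (e : J → ZMod 3) (i : ZMod 3) :
    pX 2 π e i = pN π e i := by
  unfold pX pN
  norm_num

end Pool.Agent.D0H43.L9
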