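import Pool.Agent.D0H43.L9.Defs
import Pool.Agent.Y703.CX.Stm

/-!
# Project L9: the numbers `D = 9 d` over `ℤ`
-/

set_option autoImplicit false
set_option linter.unusedVariables false

open scoped Classical

namespace Pool.Agent.D0H43.L9

open Finset
open Pool.Agent.Y692.QS (Ei w nr toC)
open Pool.Agent.Y703.CT (Dt pD IsL WD)
open Pool.Agent.Y703.CX (c3)
open Pool.Agent.Y715.T.Rec (cs)
open Pool.Agent.N883.FF (nq)
open Pool.Agent.D0H43.L3 (yq tq IsHLT)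

/-- the class of `D = 9 d`: `d` is cube-free, prime to three, and exactly one of its prime factors
is `2` modulo `3` -/
def Cl9 (d : ℕ) : Prop := d ≠ 0 ∧ ¬ 3 ∣ d ∧ (∀ p : ℕ, p.Prime → ¬ p ^ 3 ∣ d) ∧
  ∃ q : ℕ, q.Prime ∧ q % 3 = 2 ∧ q ∣ d ∧ ∀ p : ℕ, p.Prime → p ∣ d → p ≠ q → p % 3 = 1

/-- `D` is not a product `d₀ d₁ d₂` of coprime factors, at least two of them different from `1`,
such that for all `c` and all primes `p` dividing `d_c` the number `d_{c+1} d_{c+2}²` is a `p`-adic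
cube (that is, a cube modulo `p` for `p ≠ 3` and modulo `9` for `p = 3`) -/
def NoSplit9 (D : ℕ) : Prop :=
  ∀ d : ZMod 3 → ℕ, ∏ c, d c = D → (∀ c c', c ≠ c' → Nat.Coprime (d c) (d c')) →
    (∀ (c : ZMod 3) (p : ℕ), p.Prime → p ∣ d c →
      ∃ x : ℤ, ((if p = 3 then 9 else p : ℕ) : ℤ) ∣ (d (c + 1) : ℤ) * (d (c + 2) : ℤ) ^ 2 - x ^ 3) →
    ∃ c, ∀ c', c' ≠ c → d c' = 1

/-- L9-EXI and L9-CNT. -/
def S_EXI9 : Prop := ∀ d : ℕ, Cl9 d →
  (∃ (n : ℕ) (π : Fin n → Ei) (e : Fin n → ZMod 3), Dt π e ∧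
    ((d : Ei) = pD π e ∨ (d : Ei) = -pD π e)) ∧
  ∀ (J : Type) [Fintype J] (π : J → Ei) (e : J → ZMod 3), Dt π e →
    ((d : Ei) = pD π e ∨ (d : Ei) = -pD π e) → Fintype.card J + 1 = 2 * d.primeFactors.card

/-- L9-CRI: the criterion over `ℤ` and the criterion over the Eisenstein integers. (The conjugation
acts on the kernel of the bordered matrix by `(v, a) ↦ (v ∘ star, -a)`; the symmetric kernel
vectors (`a = 0`) are the splittings with `9` in the class `0`; the two blocks are transposes of each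
other, up to diagonal factors.) -/
def S_CRI9 : Prop := ∀ d : ℕ, Cl9 d →
  ∀ (J : Type) [Fintype J] (π : J → Ei) (e : J → ZMod 3),
    Dt π e → ((d : Ei) = pD π e ∨ (d : Ei) = -pD π e) → (KerN π e 0 ↔ NoSplit9 (9 * d))

/-- L9-LQ: the `L`-function over `ℚ`. -/
def S_LQ9 : Prop := ∀ d : ℕ, Cl9 d →
  ∀ (J : Type) [Fintype J] (π : J → Ei) (e : J → ZMod 3),
    Dt π e → ((d : Ei) = pD π e ∨ (d : Ei) = -pD π e) →
    ∀ F, IsHLT π (fun j => -e j) (fun α => -qN 0 α) F → IsL (WD ((9 * d : ℕ) : ℤ)) F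

/-- L9-DENQ: the exact proportion over `ℚ`. -/
def S_DEN9 : Prop := Filter.Tendsto
  (fun X : ℕ => (((Icc 1 X).filter fun d => Squarefree d ∧ Cl9 d ∧ NoSplit9 (9 * d)).card : ℝ) /
    (((Icc 1 X).filter fun d => Squarefree d ∧ Cl9 d).card : ℝ)) Filter.atTop (nhds c3)

end Pool.Agent.D0H43.L9
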