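import Pool.Agent.D0H43.L9.StmX
import Pool.Agent.D0H43.L3.Val

/-!
# Project L9: valuations, the algebraic part
-/

set_option autoImplicit false
set_option linter.unusedVariables false
set_option linter.unusedSectionVars false

namespace Pool.Agent.D0H43.L9.Alg

open Pool.Agent.Y715.T.Three
open Pool.Agent.D0H43.L3.Val (near_one)
open Pool.Agent.N883.FF.Val (sqrt_lt val_x val_d l3_lt v_four)

variable {Γ : Type*} [LinearOrderedCommGroupWithZero Γ] {v : Valuation ℂ Γ}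

/-- congruent to one modulo the maximal ideal -/
def Un (v : Valuation ℂ Γ) (x : ℂ) : Prop := v (x - 1) < 1

lemma Un.val {x : ℂ} (h : Un v x) : v x = 1 := by
  have e : x = 1 - (1 - x) := by ring
  rw [e]
  apply v.map_one_sub_of_lt
  rw [Valuation.map_sub_swap]
  exact h

lemma Un.ne {x : ℂ} (h : Un v x) : x ≠ 0 := by
  intro h0
  have := h.val
  rw [h0, map_zero] at this
  exact zero_ne_one this

lemma un_one : Un v 1 := by
  unfold Un
  rw [sub_self, map_zero]
  exact zero_lt_one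

lemma Un.mul {x y : ℂ} (hx : Un v x) (hy : Un v y) : Un v (x * y) := by
  unfold Un
  have e : x * y - 1 = x * (y - 1) + (x - 1) := by ring
  rw [e]
  refine v.map_add_lt ?_ hx
  rw [map_mul, hx.val, one_mul]
  exact hy

lemma Un.inv {x : ℂ} (hx : Un v x) : Un v x⁻¹ := by
  unfold Un
  have h0 := hx.ne
  have e : x⁻¹ - 1 = -(x⁻¹ * (x - 1)) := by field_simp; ring
  rw [e, v.map_neg, map_mul, map_inv₀, hx.val, inv_one, one_mul]
  exact hx

lemma Un.div {x y : ℂ} (hx : Un v x) (hy : Un v y) : Un v (x / y) := by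
  rw [div_eq_mul_inv]
  exact hx.mul hy.inv

lemma Un.pow {x : ℂ} (hx : Un v x) (n : ℕ) : Un v (x ^ n) := by
  induction n with
  | zero => rw [pow_zero]; exact un_one
  | succ n ih => rw [pow_succ]; exact ih.mul hx

lemma Un.add {x y : ℂ} (hx : Un v x) (hy : v y < 1) : Un v (x + y) := by
  unfold Un
  have e : x + y - 1 = (x - 1) + y := by ring
  rw [e]
  exact v.map_add_lt hx hy

lemma Un.sub {x y : ℂ} (hx : Un v x) (hy : v y < 1) : Un v (x - y) := by
  rw [sub_eq_add_neg]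
  exact hx.add (by rwa [v.map_neg])

/-- multiplication of an approximation -/
lemma Un.near {x y : ℂ} (hx : Un v x) {g : Γ} (hg : v y ≤ g) (hy : y ≠ 0 ∨ 0 < g) :
    v (x * y - y) < g := by
  have e : x * y - y = (x - 1) * y := by ring
  rw [e, map_mul]
  rcases eq_or_ne y 0 with h0 | h0
  · rcases hy with h | h
    · exact absurd h0 h
    · rw [h0, map_zero, mul_zero]
      exact h
  · have h1 : 0 < v y := (Valuation.pos_iff v).2 h0
    calc v (x - 1) * v y < 1 * v y := mul_lt_mul_of_pos_right hx h1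
      _ ≤ g := by rw [one_mul]; exact hg

section

variable (h3 : v 3 < 1)

include h3

lemma un_four : Un v 4 := by
  unfold Un
  norm_num
  exact h3

lemma un_neg_two : Un v (-2) := by
  unfold Un
  have : (-2 - 1 : ℂ) = -3 := by norm_num
  rw [this, v.map_neg]
  exact h3

lemma un_t {t : ℂ} (ht : t ^ 3 = 1) : Un v t ∧ v (1 - t) ≤ v lam := by
  refine ⟨(near_one h3 (by rw [ht, sub_self, map_zero]; exact zero_lt_one)).1, ?_⟩
  by_cases h1 : t = 1
  · rw [h1, sub_self, map_zero]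
    exact zero_le
  have h2 : t ^ 2 + t + 1 = 0 := by
    have h4 : (t - 1) * (t ^ 2 + t + 1) = 0 := by linear_combination ht
    exact (mul_eq_zero.1 h4).resolve_left (sub_ne_zero.2 h1)
  have h5 : (1 - t) ^ 2 = -3 * t := by linear_combination h2
  have h6 : v (1 - t) ^ 2 = v lam ^ 2 := by
    rw [← map_pow, h5, map_mul, v.map_neg, (near_one h3 (t := t) (by
      rw [ht, sub_self, map_zero]; exact zero_lt_one)).2, mul_one, pow_two, sq_three]
  exact ((pow_left_inj₀ zero_le zero_le two_ne_zero).1 h6).le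

lemma un_s {s : ℂ} (hs : s ^ 3 = -1) : Un v (-s) ∧ v s = 1 := by
  have h := near_one h3 (t := -s) (v := v) (by
    have : (-s) ^ 3 - 1 = 0 := by linear_combination -hs
    rw [this, map_zero]; exact zero_lt_one)
  exact ⟨h.1, by rw [← v.map_neg]; exact h.2⟩

end

/-- the data of a point -/
structure PD (v : Valuation ℂ Γ) (s X Y : ℂ) : Prop where
  s3 : s ^ 3 = -1
  eq : Y ^ 2 = 4 * X ^ 3 + 1
  le : v (Y ^ 2) ≤ v lam ^ 3

namespace PD

variable {s X Y : ℂ} (h : PD v s X Y) (h3 : v 3 < 1)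

include h

lemma cube : (s - X) ^ 3 = -(3 + Y ^ 2) / 4 - 3 * s * X * (s - X) := by
  linear_combination h.s3 + (1 / 4 : ℂ) * h.eq

include h3

lemma ltY : v Y < v lam := sqrt_lt (h.le.trans_lt (l3_lt h3))

lemma un : Un v (-X) := by
  have := (val_x h3 h.eq (h.ltY h3)).2
  unfold Un
  have e : -X - 1 = -(X + 1) := by ring
  rw [e, v.map_neg]
  exact this

lemma vX : v X = 1 := by rw [← v.map_neg]; exact (h.un h3).val

lemma lt : v (s - X) < 1 := by
  have e : s - X = (-X - 1) - (-s - 1) := by ring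
  rw [e]
  exact v.map_sub_lt (h.un h3) (un_s h3 h.s3).1

lemma unD : Un v ((s - X) ^ 3 / (-3)) := by
  have h0 : (3 : ℂ) ≠ 0 := by norm_num
  have e : (s - X) ^ 3 / (-3) = (4 : ℂ)⁻¹ + (Y ^ 2 / (3 * 4) + s * X * (s - X)) := by
    rw [h.cube]
    field_simp
    ring
  rw [e]
  refine (un_four h3).inv.add (v.map_add_lt ?_ ?_)
  · rw [map_div₀, map_mul, v_four h3, mul_one, ← sq_three]
    have hp : 0 < v lam * v lam := mul_pos lam_pos lam_pos
    rw [div_lt_one₀ hp, ← pow_two]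
    exact h.le.trans_lt (l3_lt h3)
  · rw [map_mul, map_mul, (un_s h3 h.s3).2, h.vX h3, one_mul, one_mul]
    exact h.lt h3

lemma v3 : v (s - X) ^ 3 = v lam ^ 2 := by
  have h1 := (h.unD h3).val
  rw [map_div₀, v.map_neg, ← sq_three, map_pow] at h1
  have hp : v lam * v lam ≠ 0 := mul_ne_zero lam_ne lam_ne
  rw [div_eq_one_iff_eq hp] at h1
  rw [h1, pow_two]

lemma ne : s - X ≠ 0 := by
  intro h0
  have h1 := h.v3 h3
  rw [h0, map_zero, zero_pow (by norm_num)] at h1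
  exact (pow_ne_zero 2 lam_ne) h1.symm

lemma r_eq {X' Y' : ℂ} (h' : PD v s X' Y') : v (s - X) = v (s - X') := by
  apply (pow_left_inj₀ zero_le zero_le three_ne_zero).1
  rw [h.v3 h3, h'.v3 h3]

/-- the difference of two points -/
lemma dif {X' Y' : ℂ} (h' : PD v s X' Y') : v ((s - X) - (s - X')) ≤ v lam := by
  set D := s - X with hD
  set D' := s - X' with hD'
  have hX : X = s - D := by rw [hD]; ring
  have hX' : X' = s - D' := by rw [hD']; ring
  have e : (D - D') ^ 3 = -(Y ^ 2 - Y' ^ 2) / 4 - 3 * ((D - D') * (s * (s - D - D') + D * D')) := by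
    have h1 := h.cube
    have h2 := h'.cube
    rw [← hD, hX] at h1
    rw [← hD', hX'] at h2
    linear_combination h1 - h2
  by_contra hcon
  push Not at hcon
  have hl := lam_lt h3
  have hpos : 0 < v (D - D') := lt_of_le_of_lt zero_le hcon
  have h4 : v ((D - D') ^ 3) ≤ max (v lam ^ 3) (v lam ^ 2 * v (D - D')) := by
    rw [e]
    refine (v.map_sub _ _).trans (max_le_max ?_ ?_)
    · rw [map_div₀, v_four h3, div_one, v.map_neg]
      exact (v.map_sub _ _).trans (max_le h.le h'.le)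
    · rw [map_mul, ← sq_three, ← pow_two, map_mul]
      refine mul_le_mul' le_rfl ?_
      refine mul_le_of_le_one_right zero_le ?_
      have s1 := (un_s h3 h.s3).2
      have t1 := (h.lt h3).le
      have t2 := (h'.lt h3).le
      refine v.map_add_le ?_ ?_
      · rw [map_mul, s1, one_mul]
        exact v.map_sub_le (v.map_sub_le s1.le t1) t2
      · rw [map_mul]
        exact mul_le_one' t1 t2
  rw [map_pow] at h4
  rcases le_max_iff.1 h4 with h5 | h5
  · exact absurd h5 (not_le.2 (pow_lt_pow_left₀ hcon zero_le three_ne_zero))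
  · have h6 : v (D - D') ^ 2 ≤ v lam ^ 2 := by
      have e3 : v (D - D') ^ 3 = v (D - D') ^ 2 * v (D - D') := by rw [pow_succ]
      rw [e3] at h5
      exact le_of_mul_le_mul_right h5 hpos
    exact absurd h6 (not_le.2 (pow_lt_pow_left₀ hcon zero_le two_ne_zero))

end PD

/-- the polynomial -/
def B (s t D : ℂ) : ℂ := 3 + (9 - 3 * t) * s ^ 2 * D - 6 * (1 - t) * s * D ^ 2 + 2 * (1 - t) * D ^ 3

/-- the other polynomial -/
def C (s t D : ℂ) : ℂ := 3 + 3 * (1 - t) * s ^ 2 * D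

section main

variable {s t X Y X0 Y0 : ℂ} (h3 : v 3 < 1) (ht : t ^ 3 = 1) (h : PD v s X Y) (h0 : PD v s X0 Y0)

include h3 ht h

lemma unB : Un v (B s t (s - X) / 3) := by
  have hs := (un_s h3 h.s3).2
  have hD := h.lt h3
  have ht1 := un_t h3 ht
  set D := s - X with hDd
  have e : B s t D / 3 = 1 + (3 * (s ^ 2 * D) - t * s ^ 2 * D - 2 * (1 - t) * s * D ^ 2 +
      (2 * (1 - t) * D ^ 3) / 3) := by
    unfold B
    field_simp
    ring
  rw [e]
  have hl := lam_lt h3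
  refine un_one.add (v.map_add_lt (v.map_sub_lt (v.map_sub_lt ?_ ?_) ?_) ?_)
  · rw [map_mul, map_mul, map_pow, hs, one_pow, one_mul]
    exact mul_lt_one_of_lt_of_le h3 hD.le
  · rw [map_mul, map_mul, map_pow, hs, one_pow, ht1.1.val, one_mul, one_mul]
    exact hD
  · rw [map_mul, map_mul, map_mul, v_two h3, hs, one_mul, mul_one, map_pow]
    exact mul_lt_one_of_lt_of_le (ht1.2.trans_lt hl) (pow_le_one' hD.le 2)
  · rw [map_div₀, map_mul, map_mul, v_two h3, one_mul, map_pow, h.v3 h3, ← sq_three, ← pow_two,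
      mul_div_assoc, div_self (pow_ne_zero 2 lam_ne), mul_one]
    exact ht1.2.trans_lt hl

lemma B_ne : B s t (s - X) ≠ 0 := by
  intro hb
  have := (unB h3 ht h).ne
  apply this
  rw [hb, zero_div]

lemma vB : v (B s t (s - X)) = v lam ^ 2 := by
  have h1 := (unB h3 ht h).val
  rw [map_div₀, ← sq_three, ← pow_two, div_eq_one_iff_eq (pow_ne_zero 2 lam_ne)] at h1
  exact h1

lemma vC : v (C s t (s - X)) ≤ v lam ^ 2 := by
  have hs := (un_s h3 h.s3).2
  have hD := h.lt h3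
  have ht1 := un_t h3 ht
  have e : C s t (s - X) = 3 * (1 + (1 - t) * s ^ 2 * (s - X)) := by
    unfold C
    ring
  rw [e, map_mul, ← sq_three, ← pow_two]
  refine mul_le_of_le_one_right zero_le (v.map_add_le (by rw [map_one]) ?_)
  rw [map_mul, map_mul, map_pow, hs, one_pow, mul_one]
  exact mul_le_one' (ht1.2.trans (lam_lt h3).le) hD.le

include h0

/-- the numerator -/
lemma N0_le : v ((s - X0) ^ 3 * B s t (s - X) - (s - X) ^ 3 * B s t (s - X0)) ≤ v lam ^ 5 := by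
  have hs := (un_s h3 h.s3).2
  have hD := h.lt h3
  have hD0 := h0.lt h3
  have ht1 := un_t h3 ht
  have hl := (lam_lt h3).le
  have hdif := h0.dif h3 h
  have c1 := h.cube
  have c2 := h0.cube
  have v1 := h.v3 h3
  have v2 := h0.v3 h3
  have hr := h.r_eq h3 h0
  set D := s - X with hDd
  set D0 := s - X0 with hD0d
  have hX : X = s - D := by rw [hDd]; ring
  have hX0 : X0 = s - D0 := by rw [hD0d]; ring
  rw [hX] at c1
  rw [hX0] at c2
  have e : D0 ^ 3 * B s t D - D ^ 3 * B s t D0 =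
      3 * ((Y ^ 2 - Y0 ^ 2) / 4 - 3 * s * (D0 - D) * (s - D - D0)) +
      3 * (3 - t) * s ^ 2 * (D * D0) * (D0 + D) * (D0 - D) -
      3 * (2 * (1 - t)) * s * (D * D0) ^ 2 * (D0 - D) := by
    unfold B
    linear_combination 3 * c2 - 3 * c1
  have h5 : v lam ^ 5 = v 3 * v lam ^ 3 := by
    rw [← sq_three, ← pow_two, ← pow_add]
  have hv2 := v_two h3
  have hv3t : v (3 - t) ≤ 1 := by
    refine v.map_sub_le h3.le ?_
    exact ht1.1.val.le
  have hr2 : v D * v D0 * v D0 = v lam ^ 2 := by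
    rw [hr, ← pow_two, ← pow_succ, v2]
  rw [e, h5]
  refine v.map_sub_le (v.map_add_le ?_ ?_) ?_
  · rw [map_mul]
    refine mul_le_mul' le_rfl (v.map_sub_le ?_ ?_)
    · rw [map_div₀, v_four h3, div_one]
      exact v.map_sub_le h.le h0.le
    · rw [map_mul, map_mul, map_mul, hs, mul_one, ← sq_three, ← pow_two]
      calc v lam ^ 2 * v (D0 - D) * v (s - D - D0) ≤ v lam ^ 2 * v lam * 1 := by
            refine mul_le_mul' (mul_le_mul' le_rfl hdif) ?_
            exact v.map_sub_le (v.map_sub_le hs.le hD.le) hD0.le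
        _ = v lam ^ 3 := by rw [mul_one, ← pow_succ]
  · have e1 : 3 * (3 - t) * s ^ 2 * (D * D0) * (D0 + D) * (D0 - D) =
        3 * ((3 - t) * s ^ 2 * (D * D0) * (D0 + D) * (D0 - D)) := by ring
    rw [e1, map_mul]
    refine mul_le_mul' le_rfl ?_
    rw [map_mul, map_mul, map_mul, map_mul, map_mul, map_pow, hs, one_pow, mul_one]
    have h6 : v (D0 + D) ≤ v D0 := v.map_add_le le_rfl hr.le
    calc v (3 - t) * (v D * v D0) * v (D0 + D) * v (D0 - D) ≤
        1 * (v D * v D0) * v D0 * v lam :=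
          mul_le_mul' (mul_le_mul' (mul_le_mul' hv3t le_rfl) h6) hdif
      _ = v lam ^ 3 := by rw [one_mul, hr2, ← pow_succ]
  · have e1 : 3 * (2 * (1 - t)) * s * (D * D0) ^ 2 * (D0 - D) =
        3 * ((2 * (1 - t)) * s * (D * D0) ^ 2 * (D0 - D)) := by ring
    rw [e1, map_mul]
    refine mul_le_mul' le_rfl ?_
    rw [map_mul, map_mul, map_mul, map_mul, map_pow, map_mul, hs, hv2, mul_one, one_mul]
    have h7 : (v D * v D0) ^ 2 ≤ v lam ^ 2 := by
      calc (v D * v D0) ^ 2 = v D * (v D * v D0 * v D0) := by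
            rw [mul_pow, pow_two, pow_two]; simp only [mul_assoc]
        _ ≤ 1 * (v lam ^ 2) := mul_le_mul' hD.le hr2.le
        _ = v lam ^ 2 := one_mul _
    calc v (1 - t) * (v D * v D0) ^ 2 * v (D0 - D) ≤ 1 * v lam ^ 2 * v lam :=
          mul_le_mul' (mul_le_mul' (ht1.2.trans hl) h7) hdif
      _ = v lam ^ 3 := by rw [one_mul, ← pow_succ]

/-- the mean of the cubes of the two quotients -/
noncomputable def RR (s t D D0 : ℂ) : ℂ := D0 ^ 3 * B s t D / (D ^ 3 * B s t D0)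

lemma RR_le : v (2 * RR s t (s - X) (s - X0) - 2) ≤ v lam := by
  have hB := B_ne h3 ht h0
  have hD := h.ne h3
  have e : 2 * RR s t (s - X) (s - X0) - 2 =
      2 * (((s - X0) ^ 3 * B s t (s - X) - (s - X) ^ 3 * B s t (s - X0)) /
        ((s - X) ^ 3 * B s t (s - X0))) := by
    unfold RR
    field_simp
  rw [e, map_mul, v_two h3, one_mul, map_div₀, map_mul, map_pow, h.v3 h3, vB h3 ht h0]
  have hp : 0 < v lam ^ 2 * v lam ^ 2 := mul_pos (pow_pos lam_pos 2) (pow_pos lam_pos 2)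
  rw [div_le_iff₀ hp, ← pow_add, ← pow_succ']
  exact N0_le h3 ht h h0

omit h0 in
lemma vD3 : v ((s - X) ^ 3) = v lam ^ 2 := by rw [map_pow, h.v3 h3]

/-- the shift by the unit `ω` -/
lemma N1_near {ω : ℂ} (hω : ω ^ 3 = 1) (hω1 : ω ≠ 1) (hw : PD v s (ω * X) Y) :
    v (2 * RR s t (s - ω * X) (s - X0) - 2 * RR s t (s - X) (s - X0) - (1 - ω)) < v lam := by
  have hs := (un_s h3 h.s3)
  have hD := h.lt h3
  have hDw := hw.lt h3
  have ht1 := un_t h3 ht
  have hl := lam_lt h3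
  have hvε : v (1 - ω) ≤ v lam := (un_t h3 hω).2
  have hε0 : (1 - ω) ≠ 0 := sub_ne_zero.2 (Ne.symm hω1)
  have hX1 := h.un h3
  have c1 := h.cube
  have c2 := hw.cube
  have u1 := h.unD h3
  have u2 := hw.unD h3
  have u3 := h0.unD h3
  have u4 := unB h3 ht h0
  have v1 := h.v3 h3
  have hr := h.r_eq h3 hw
  have hDn := h.ne h3
  have hDwn := hw.ne h3
  have hD0n := h0.ne h3
  have hBn := B_ne h3 ht h0
  set D := s - X with hDd
  set Dw := s - ω * X with hDwd
  set D0 := s - X0 with hD0d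
  obtain ⟨ε, hε⟩ : ∃ ε, ε = Dw - D := ⟨_, rfl⟩
  have hεX : ε = (1 - ω) * X := by rw [hε, hDwd, hDd]; ring
  have hX : X = s - D := by rw [hDd]; ring
  have hXw : ω * X = s - Dw := by rw [hDwd]; ring
  have hεv : v ε ≤ v lam := by
    rw [hεX, map_mul, ← v.map_neg X, hX1.val, mul_one]
    exact hvε
  rw [hX] at c1
  rw [hXw] at c2
  -- the quotient `r1`
  obtain ⟨r1, hr1⟩ : ∃ r1, r1 = s * (s - D - Dw) - s ^ 2 * (D * Dw * (D + Dw)) +
    t / 3 * s ^ 2 * (D * Dw * (D + Dw)) + 2 / 3 * (1 - t) * s * (D * Dw) ^ 2 := ⟨_, rfl⟩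
  have e1 : B s t Dw * D ^ 3 - B s t D * Dw ^ 3 = 9 * ε * r1 := by
    rw [hr1]
    unfold B
    linear_combination 3 * c1 - 3 * c2 + (9 * s * (s - D - Dw) - (9 - 3 * t) * s ^ 2 * D * Dw *
      (D + Dw) + 6 * (1 - t) * s * D ^ 2 * Dw ^ 2) * (-hε)
  have hlp : (0 : Γ) < v lam := lam_pos
  have hDDw : Un v (D * Dw * (D + Dw) / 3) := by
    have e2 : D * Dw * (D + Dw) / 3 = (D ^ 3 / (-3)) * (-2) + (D ^ 2 * ε + D * ε ^ 2 / 3) := by
      have : Dw = D + ε := by rw [hε]; ring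
      rw [this]
      field_simp
      ring
    rw [e2]
    refine (u1.mul (un_neg_two h3)).add (v.map_add_lt ?_ ?_)
    · rw [map_mul, map_pow, mul_comm]
      exact mul_lt_one_of_lt_of_le (hεv.trans_lt hl) (pow_le_one' hD.le 2)
    · rw [map_div₀, map_mul, map_pow, ← sq_three, ← pow_two, mul_div_assoc]
      refine mul_lt_one_of_lt_of_le hD ?_
      rw [div_le_one₀ (pow_pos lam_pos 2)]
      exact pow_le_pow_left₀ zero_le hεv 2
  have hr1u : Un v (-r1) := by
    have e2 : -r1 = ((-s) ^ 2 * t * (D * Dw * (D + Dw) / 3)) * (-2) + (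
        s * (D + Dw) + s ^ 2 * (D * Dw * (D + Dw)) +
        (-((-s) ^ 2) + (-s) ^ 2 * t * (D * Dw * (D + Dw) / 3)) -
        2 / 3 * (1 - t) * s * (D * Dw) ^ 2) := by
      rw [hr1]
      ring
    have hst : Un v ((-s) ^ 2 * t * (D * Dw * (D + Dw) / 3)) := ((hs.1.pow 2).mul ht1.1).mul hDDw
    rw [e2]
    refine (hst.mul (un_neg_two h3)).add (v.map_sub_lt (v.map_add_lt (v.map_add_lt ?_ ?_) ?_) ?_)
    · rw [map_mul, hs.2, one_mul]
      exact v.map_add_lt hD hDw
    · rw [map_mul, map_pow, hs.2, one_pow, one_mul, map_mul, map_mul]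
      exact mul_lt_one_of_lt_of_le (mul_lt_one_of_lt_of_le hD hDw.le)
        (v.map_add_le hD.le hDw.le)
    · have e3 : -((-s) ^ 2) + (-s) ^ 2 * t * (D * Dw * (D + Dw) / 3) =
          ((-s) ^ 2 * t * (D * Dw * (D + Dw) / 3) - 1) - ((-s) ^ 2 - 1) := by ring
      rw [e3]
      exact v.map_sub_lt hst (hs.1.pow 2)
    · have e3 : 2 / 3 * (1 - t) * s * (D * Dw) ^ 2 = 2 * s * (1 - t) * ((D * Dw) ^ 2 / 3) := by ring
      rw [e3, map_mul, map_mul, map_mul, v_two h3, hs.2, one_mul, one_mul, map_div₀, map_pow,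
        map_mul, ← hr, ← sq_three, ← mul_div_assoc, ← pow_two (v lam)]
      rw [div_lt_one₀ (pow_pos lam_pos 2)]
      have e4 : (v D * v D) ^ 2 = v D * v lam ^ 2 := by
        rw [← v1, ← pow_two, ← pow_mul, ← pow_succ']
      rw [e4, ← mul_assoc, mul_comm (v (1 - t))]
      refine mul_lt_of_lt_one_left (pow_pos lam_pos 2) ?_
      exact mul_lt_one_of_lt_of_le hD (ht1.2.trans hl.le)
  -- the conclusion
  have e3 : 2 * RR s t Dw D0 - 2 * RR s t D D0 = ((D0 ^ 3 / (-3)) * (-2) / (B s t D0 / 3)) *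
      ((-r1) * (-X)) / ((D ^ 3 / (-3)) * (Dw ^ 3 / (-3))) * (1 - ω) := by
    have e4 : 2 * RR s t Dw D0 - 2 * RR s t D D0 = 2 * D0 ^ 3 / B s t D0 *
        ((B s t Dw * D ^ 3 - B s t D * Dw ^ 3) / (D ^ 3 * Dw ^ 3)) := by
      unfold RR
      field_simp
    rw [e4, e1, hεX]
    field_simp
    ring
  rw [e3]
  have hU : Un v (((D0 ^ 3 / (-3)) * (-2) / (B s t D0 / 3)) *
      ((-r1) * (-X)) / ((D ^ 3 / (-3)) * (Dw ^ 3 / (-3)))) :=
    (((u3.mul (un_neg_two h3)).div u4).mul (hr1u.mul hX1)).div (u1.mul u2)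
  exact hU.near hvε (Or.inr lam_pos)

end main

/-- the sum of two numbers with cubes near to one -/
lemma tau_near (h3 : v 3 < 1) {a b : ℂ} (ha : v (a ^ 3 - 1) < 1) (hb : v (b ^ 3 - 1) < 1) :
    v ((a + b - 2) ^ 3 - (a ^ 3 + b ^ 3 - 2)) < v 3 := by
  obtain ⟨ha1, ha2⟩ := near_one h3 ha
  obtain ⟨hb1, hb2⟩ := near_one h3 hb
  have e : (a + b - 2) ^ 3 - (a ^ 3 + b ^ 3 - 2) = 3 * ((a - 1) * ((b - 1) * (a + b - 2) - a) -
      b * (b - 1)) := by ring
  rw [e, map_mul]
  have h3p : 0 < v (3 : ℂ) := zero_lt_iff.2 three_ne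
  refine mul_lt_of_lt_one_right h3p (v.map_sub_lt ?_ ?_)
  · rw [map_mul]
    refine mul_lt_one_of_lt_of_le ha1 (v.map_sub_le ?_ ha2.le)
    rw [map_mul]
    refine mul_le_one' hb1.le (v.map_sub_le (v.map_add_le ha2.le hb2.le) (v_two h3).le)
  · rw [map_mul, hb2, one_mul]
    exact hb1

section fin

variable {s t d X Y X0 g0 : ℂ} (h3 : v 3 < 1) (ht : t ^ 3 = 1) (hd : d ^ 2 = -3)
  (h0 : PD v s X0 0) (hg0 : 2 * g0 ^ 3 * (s - X0) ^ 3 = 27 * (d * B s t (s - X0)))

include h3 ht hd h0 hg0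

lemma g0_val : v g0 ^ 3 = v lam ^ 7 := by
  have h1 : v (2 * g0 ^ 3 * (s - X0) ^ 3) = v (27 * (d * B s t (s - X0))) := by rw [hg0]
  rw [map_mul, map_mul, v_two h3, one_mul, map_pow, vD3 h3 ht h0, map_mul, v_27, map_mul,
    val_d hd, vB h3 ht h0] at h1
  have hp : v lam ^ 2 ≠ 0 := pow_ne_zero 2 lam_ne
  apply mul_right_cancel₀ hp
  rw [h1, ← pow_succ', ← pow_add, ← pow_add]

lemma g0_ne : g0 ≠ 0 := by
  rintro rfl
  have := g0_val h3 ht hd h0 hg0
  rw [map_zero, zero_pow (by norm_num)] at this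
  exact (pow_ne_zero 7 lam_ne) this.symm

lemma k_near {k : ℂ} (hk : 2 * k ^ 3 = 27 * (2 * d * (1 - t))) :
    v ((k / g0) ^ 3 - (1 - t)) < v lam := by
  have hg := g0_ne h3 ht hd h0 hg0
  have hD0 := h0.ne h3
  have hB := B_ne h3 ht h0
  have hdn : d ≠ 0 := by
    rintro rfl
    norm_num at hd
  have e : (k / g0) ^ 3 = (((s - X0) ^ 3 / (-3)) * (-2) / (B s t (s - X0) / 3)) * (1 - t) := by
    rw [div_pow]
    have hg3 : g0 ^ 3 = 27 * (d * B s t (s - X0)) / (2 * (s - X0) ^ 3) := by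
      field_simp
      linear_combination hg0
    have hk3 : k ^ 3 = 27 * d * (1 - t) := by linear_combination (1 / 2 : ℂ) * hk
    rw [hg3, hk3]
    field_simp
    try ring
  rw [e]
  exact (((h0.unD h3).mul (un_neg_two h3)).div (unB h3 ht h0)).near (un_t h3 ht).2 (Or.inr lam_pos)

variable (h : PD v s X Y) {a b : ℂ}
  (ha : 2 * a ^ 3 * (s - X) ^ 3 = 27 * (d * B s t (s - X) + Y * C s t (s - X)))
  (hb : 2 * b ^ 3 * (s - X) ^ 3 = 27 * (d * B s t (s - X) - Y * C s t (s - X)))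

include h

lemma quo_near {Y' : ℂ} (hY : v Y' < v lam)
    {a : ℂ} (ha : 2 * a ^ 3 * (s - X) ^ 3 = 27 * (d * B s t (s - X) + Y' * C s t (s - X))) :
    v ((a / g0) ^ 3 - 1) < 1 := by
  have hg := g0_ne h3 ht hd h0 hg0
  have hD0 := h0.ne h3
  have hD := h.ne h3
  have hB := B_ne h3 ht h0
  have hdn : d ≠ 0 := by
    rintro rfl
    norm_num at hd
  have hg3 : g0 ^ 3 = 27 * (d * B s t (s - X0)) / (2 * (s - X0) ^ 3) := by
    field_simp
    linear_combination hg0
  have ha3 : a ^ 3 = 27 * (d * B s t (s - X) + Y' * C s t (s - X)) / (2 * (s - X) ^ 3) := by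
    field_simp
    linear_combination ha
  have e : (a / g0) ^ 3 - 1 =
      ((s - X0) ^ 3 * B s t (s - X) - (s - X) ^ 3 * B s t (s - X0)) /
        ((s - X) ^ 3 * B s t (s - X0)) +
      (s - X0) ^ 3 * C s t (s - X) * Y' / ((s - X) ^ 3 * (d * B s t (s - X0))) := by
    rw [div_pow, hg3, ha3]
    field_simp
    try ring
  rw [e]
  have hl := lam_lt h3
  have hp : (0 : Γ) < v lam := lam_pos
  refine v.map_add_lt ?_ ?_
  · rw [map_div₀, map_mul, map_pow (f := v) (s - X), h.v3 h3, vB h3 ht h0]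
    rw [div_lt_one₀ (mul_pos (pow_pos hp 2) (pow_pos hp 2)), ← pow_add]
    exact (N0_le h3 ht h h0).trans_lt (pow_lt_pow_right_of_lt_one₀ hp hl (by norm_num))
  · rw [map_div₀, map_mul, map_mul, vD3 h3 ht h0, map_mul, vD3 h3 ht h, map_mul, val_d hd,
      vB h3 ht h0]
    rw [div_lt_one₀ (mul_pos (pow_pos hp 2) (mul_pos hp (pow_pos hp 2)))]
    calc v lam ^ 2 * v (C s t (s - X)) * v Y' ≤ v lam ^ 2 * v lam ^ 2 * v Y' :=
          mul_le_mul' (mul_le_mul' le_rfl (vC h3 ht h)) le_rfl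
      _ < v lam ^ 2 * v lam ^ 2 * v lam :=
          mul_lt_mul_of_pos_left hY (mul_pos (pow_pos hp 2) (pow_pos hp 2))
      _ = v lam ^ 2 * (v lam * v lam ^ 2) := by rw [mul_assoc, mul_comm (v lam ^ 2) (v lam)]

include ha hb

lemma sum_eq : (a / g0) ^ 3 + (b / g0) ^ 3 - 2 = 2 * RR s t (s - X) (s - X0) - 2 := by
  have hg := g0_ne h3 ht hd h0 hg0
  have hD0 := h0.ne h3
  have hD := h.ne h3
  have hB := B_ne h3 ht h0
  have hdn : d ≠ 0 := by
    rintro rfl
    norm_num at hd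
  have hg3 : g0 ^ 3 = 27 * (d * B s t (s - X0)) / (2 * (s - X0) ^ 3) := by
    field_simp
    linear_combination hg0
  have ha3 : a ^ 3 = 27 * (d * B s t (s - X) + Y * C s t (s - X)) / (2 * (s - X) ^ 3) := by
    field_simp
    linear_combination ha
  have hb3 : b ^ 3 = 27 * (d * B s t (s - X) - Y * C s t (s - X)) / (2 * (s - X) ^ 3) := by
    field_simp
    linear_combination hb
  unfold RR
  rw [div_pow, div_pow, hg3, ha3, hb3]
  field_simp
  ring

lemma tau_main : v ((a / g0 + b / g0 - 2) ^ 3 - (2 * RR s t (s - X) (s - X0) - 2)) < v lam := by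
  rw [← sum_eq h3 ht hd h0 hg0 h ha hb]
  have h1 := quo_near h3 ht hd h0 hg0 h (h.ltY h3) ha
  have h2 := quo_near h3 ht hd h0 hg0 h (Y' := -Y) (by rw [v.map_neg]; exact h.ltY h3)
    (a := b) (by rw [hb]; ring)
  refine (tau_near h3 h1 h2).trans ?_
  rw [← sq_three]
  exact mul_lt_of_lt_one_right lam_pos (lam_lt h3)

lemma tau_le : v (a / g0 + b / g0 - 2) ^ 3 ≤ v lam := by
  have h1 := tau_main h3 ht hd h0 hg0 h ha hb
  have h2 := RR_le h3 ht h h0
  rw [← map_pow]
  have e : (a / g0 + b / g0 - 2) ^ 3 = ((a / g0 + b / g0 - 2) ^ 3 -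
      (2 * RR s t (s - X) (s - X0) - 2)) + (2 * RR s t (s - X) (s - X0) - 2) := by ring
  rw [e]
  exact v.map_add_le h1.le h2

end fin

end Pool.Agent.D0H43.L9.Alg
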