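import Pool.Agent.D0H43.L9.StmX
import Pool.Agent.D0H43.L3.Chi

/-!
# Project L9: the characters
-/

set_option autoImplicit false
set_option linter.unusedVariables false

open scoped Classical

namespace Pool.Agent.D0H43.L9

namespace Chi

open Pool.Agent.Y692.QS (Ei w nr toC)
open Pool.Agent.Y703.CT.Ana (ej)
open Pool.Agent.W192.HK (sp)
open Pool.Agent.TH936.CM Pool.Agent.TH936.PU
open Pool.Agent.Y715.Dist Pool.Agent.Y715.Idn
open Pool.Agent.Y696 (Cur eis omr)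
open Pool.Agent.Y715.T.Rs (eq0)
open Pool.Agent.Y715.T.Lat (la)
open Pool.Agent.D0H43.L3 (tq cT fT)

lemma qN_tq (i : ZMod 3) (α : Ei) : qN i α = -tq (-i) α := by
  unfold qN tq
  ring

lemma toC_w_pow (t : ZMod 3) : toC w ^ (-t).val = (toC w ^ t.val) ^ 2 := by
  have h : toC w ^ 3 = 1 := Pool.Agent.N883.FF.Chi.cube_w
  fin_cases t
  · show toC w ^ 0 = (toC w ^ 0) ^ 2
    norm_num
  · show toC w ^ 2 = (toC w ^ 1) ^ 2
    rw [pow_one]
  · show toC w ^ 1 = (toC w ^ 2) ^ 2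
    linear_combination -(toC w) * h

lemma cN_eq (i : ZMod 3) (x : eis) : cN i x = cT (-i) x ^ 2 := by
  unfold cN cT
  rw [qN_tq, toC_w_pow]

lemma eo (i : ZMod 3) (j : Fin 3) : Eo fT (eN i j) := by
  have h0 := Pool.Agent.Y703.CT.Ana.eo_j j
  refine ⟨fun x y h => ?_, fun x y => ?_, fun x => ?_, fun x => ?_⟩
  · unfold eN
    have h3 : x - y ∈ (sp 3 : Ideal eis) := by
      obtain ⟨t, ht⟩ := Ideal.mem_span_singleton'.mp h
      refine Ideal.mem_span_singleton'.mpr ⟨t * 3, ?_⟩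
      rw [← ht]
      unfold fT
      ring
    rw [h0.per x y h3, cN_eq, cN_eq, L3.Chi.per (-i) h]
  · unfold eN
    rw [h0.mul x y]
    by_cases hx : IsCoprime x 3
    · by_cases hy : IsCoprime y 3
      · rw [cN_eq, cN_eq, cN_eq, L3.Chi.mul (-i) hx hy]
        ring
      · rw [Pool.Agent.Y703.CT.Ana.ej_ncop j hy]
        ring
    · rw [Pool.Agent.Y703.CT.Ana.ej_ncop j hx]
      ring
  · unfold eN
    rw [h0.neg x, cN_eq, cN_eq, L3.Chi.neg (-i) x]
    ring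
  · unfold eN
    rw [norm_mul, cN_eq, norm_pow, L3.Chi.norm_cT, one_pow, mul_one]
    exact h0.bd x

end Chi

open Chi in
/-- L9-CHI -/
theorem chiN : S_CHIN := by
  intro i
  obtain ⟨h1, h2, h3, h4, h5, h6⟩ := Pool.Agent.D0H43.L3.chi (-i)
  refine ⟨fun x y h => ?_, fun x y hx hy => ?_, fun u hu => ?_, fun x => ?_, fun j => eo i j,
    fun a k => ?_⟩
  · rw [cN_eq, cN_eq, h1 x y h]
  · rw [cN_eq, cN_eq, cN_eq, h2 x y hx hy, mul_pow]
  · rw [cN_eq, h3 u hu, one_pow]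
  · rw [cN_eq, ← pow_mul, mul_comm 2 3, pow_mul, h4 x, one_pow]
  · rw [cN_eq, h6 a k, ← toC_w_pow]
    congr 2
    ring

end Pool.Agent.D0H43.L9
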