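import Pool.Agent.D0H43.L3.StmX
import Pool.Agent.D0H43.L9.Defs

/-!
# Project L9: the characters, the limits and the function
-/

set_option autoImplicit false
set_option linter.unusedVariables false

open Filter
open scoped Classical Topology PeriodPair

namespace Pool.Agent.D0H43.L9

open Pool.Agent.Y692.QS (Ei w nr toC)
open Pool.Agent.Y703.CT.Ana (ej)
open Pool.Agent.W192.HK (sp)
open Pool.Agent.TH936.CM Pool.Agent.TH936.PU
open Pool.Agent.Y715.Dist Pool.Agent.Y715.Idn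
open Pool.Agent.Y696 (Cur eis omr)
open Pool.Agent.Y715.T.Rs (eq0)
open Pool.Agent.Y715.T.Lat (la)
open Pool.Agent.Y715.T.Three (lam)
open Pool.Agent.N883.FF (gB)
open Pool.Agent.D0H43.L3 (tq cT fT dT gT)

/-- the symbol of `9 ω ^ i` as a function on the subring `eis` of `ℂ` -/
noncomputable def cN (i : ZMod 3) (x : eis) : ℂ := toC w ^ (qN i (eq0.symm x)).val

/-- the three odd characters modulo `3`, multiplied by the symbol of `9 ω ^ i` -/
noncomputable def eN (i : ZMod 3) (j : Fin 3) (x : eis) : ℂ := ej j x * cN i x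

/-- L9-CHI. -/
def S_CHIN : Prop := ∀ i : ZMod 3,
  (∀ x y : eis, x - y ∈ (sp fT : Ideal eis) → cN i x = cN i y) ∧
  (∀ x y : eis, IsCoprime x 3 → IsCoprime y 3 → cN i (x * y) = cN i x * cN i y) ∧
  (∀ u : eis, IsUnit u → cN i u = 1) ∧
  (∀ x : eis, cN i x ^ 3 = 1) ∧
  (∀ j : Fin 3, Eo fT (eN i j)) ∧
  (∀ a k : ℤ, cN i (1 + 3 * ((a : eis) + k * la)) =
    toC w ^ (-(i * (a : ZMod 3)) + (k : ZMod 3)).val)

/-- the function -/
noncomputable def gN (L : PeriodPair) (Ω : ℂ) (i : ZMod 3) (z : ℂ) : ℂ :=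
  gB L (-dT L Ω) z + toC w ^ (-i).val * gB L (-dT L Ω) (z + Ω / 3) +
    toC w ^ i.val * gB L (-dT L Ω) (z - Ω / 3)

/-- the value at `Ω / 9` -/
noncomputable def kN (L : PeriodPair) (Ω : ℂ) (i : ZMod 3) : ℂ := gN L Ω i (Ω / 9)

/-- the limits -/
noncomputable def CN (L : PeriodPair) (Ω : ℂ) (i : ZMod 3) (j : Fin 3) : ℂ :=
  if j = 0 then 6 * kN L Ω i else 0

/-- L9-GF: the limits of the regularized sums. -/
def S_GFN : Prop := S_CHIN → ∀ (L : PeriodPair) (Ω : ℂ), Cur L Ω → ∀ i : ZMod 3,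
  ∀ [Fintype (eis ⧸ (sp fT : Ideal eis))],
    (∀ j : Fin 3, Tendsto (fun δ : ℝ => ∑ y : eis ⧸ (sp fT : Ideal eis),
      eN i j y.out * EE eis Ω δ (Ω * y.out / fT)) (𝓝[>] 0) (𝓝 (CN L Ω i j))) ∧
    (∀ c x : eis, c ≠ 0 → IsCoprime 3 c → x ∉ (sp c : Ideal eis) →
      ∑ j : Fin 3, HH L Ω fT (eN i j) (Ω * x / c) =
        3 * (gN L Ω i (Ω / 9 + Ω * x / c) + gN L Ω i (Ω / 9 - Ω * x / c) - 2 * kN L Ω i))

/-- the relation with the function of the project L3 -/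
lemma gN_eq (L : PeriodPair) (Ω : ℂ) (i : ZMod 3) (z : ℂ) : gN L Ω i z = -gT L Ω (-i) (-z) := by
  unfold gN gT gB
  have e1 : -z + Ω / 3 = -(z - Ω / 3) := by ring
  have e2 : -z - Ω / 3 = -(z + Ω / 3) := by ring
  rw [e1, e2, L.derivWeierstrassP_neg, L.derivWeierstrassP_neg, L.derivWeierstrassP_neg,
    L.weierstrassP_neg, L.weierstrassP_neg, L.weierstrassP_neg, neg_neg]
  ring

end Pool.Agent.D0H43.L9
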