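import Pool.Agent.D0H43.L3.Cube
import Pool.Agent.D0H43.L9.StmX

/-!
# Project L9: the cube of the function, explicit form
-/

set_option autoImplicit false
set_option linter.unusedVariables false

open Filter
open scoped Classical Topology PeriodPair

namespace Pool.Agent.D0H43.L9

open Pool.Agent.D0H43.L3
open Pool.Agent.Y692.QS (w toC)
open Pool.Agent.W192.HK (sp)
open H667R3
open Pool.Agent.TH936.CM Pool.Agent.TH936.PU
open Pool.Agent.Y715.Dist Pool.Agent.Y715.Idn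
open Pool.Agent.Y696 (Cur eis om omr omr_coe)
open Pool.Agent.Y715.T.Lat (la la_coe wp_la)
open Pool.Agent.Y715.T.Three
open Pool.Agent.Y703.CT.Ana (dwp_two)
open Pool.Agent.N883.FF (gB)

open Pool.Agent.Y692.QS Cub Pool.Agent.Y696 Pool.Agent.Y715.T.Three H667R3 Pool.Agent.TH936.CM
  Pool.Agent.TH936.PU Pool.Agent.N883.FF in
/-- the cube -/
theorem cube_ex {L : PeriodPair} {Ω : ℂ} (hC : Cur L Ω) (i : ZMod 3) {z : ℂ}
    (hz : lam * (3 * z) ∉ L.lattice) : 2 * gT L Ω i z ^ 3 =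
    -27 * (℘'[L] (3 * z) + 2 * dT L Ω * (toC w ^ (-i).val * ℘[L] (Ω / 3) ^ 2) * ℘[L] (3 * z) +
      dT L Ω) := by
  set x0 := ℘[L] (Ω / 3) with hx0
  set d := dT L Ω with hd
  have hd' : ℘'[L] (Ω / 3) = -d := by rw [hd, dT, neg_neg]
  have hx3 : x0 ^ 3 = -1 := hC.x0
  have hd2 : d ^ 2 = -3 := by
    have := hC.y0
    rw [hd'] at this
    linear_combination this
  set t : ℂ := toC w ^ (-i).val with ht
  have ht3 : t ^ 3 = 1 := by
    rw [ht, ← pow_mul, mul_comm, pow_mul, w_three, one_pow]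
  have ht2 : toC w ^ i.val = t ^ 2 := by
    rw [ht, ← pow_mul]
    exact w_pow (val_two i)
  have hΩ : Ω ∈ L.lattice := (hC.lat.mem Ω).2 ⟨1, by push_cast; ring⟩
  -- the points outside the lattice
  have n3 : 3 * z ∉ L.lattice := fun h => hz (lam_mem hC h)
  have n2 : lam * (lam * z) ∉ L.lattice := by
    rw [lam_lam, neg_mem_iff]
    exact n3
  have n2' : lam * (lam * (lam * z)) ∉ L.lattice := by
    rw [lam_lam, neg_mem_iff]
    convert hz using 1
    ring
  have n1 : lam * z ∉ L.lattice := fun h => n2 (lam_mem hC h)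
  have n0 : z ∉ L.lattice := fun h => n1 (lam_mem hC h)
  have mT : ∀ u : ℂ, u ∈ L.lattice → 3 * u ∈ L.lattice := fun u hu => by
    have : 3 * u = u + (u + u) := by ring
    rw [this]
    exact add_mem hu (add_mem hu hu)
  have lp : lam * (Ω / 3 + z) ∉ L.lattice := by
    intro h
    apply hz
    have h1 := sub_mem (mT _ h) (lam_mem hC hΩ)
    convert h1 using 1
    ring
  have lm : lam * (-(Ω / 3) + z) ∉ L.lattice := by
    intro h
    apply hz
    have h1 := add_mem (mT _ h) (lam_mem hC hΩ)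
    convert h1 using 1
    ring
  have p1 : Ω / 3 + z ∉ L.lattice := fun h => lp (lam_mem hC h)
  have p2 : -(Ω / 3) + z ∉ L.lattice := fun h => lm (lam_mem hC h)
  have p3 : Ω / 3 - z ∉ L.lattice := by
    rw [← neg_mem_iff]
    convert p2 using 1
    ring
  have p4 : -(Ω / 3) - z ∉ L.lattice := by
    rw [← neg_mem_iff]
    convert p1 using 1
    ring
  obtain ⟨s1, s2, s3⟩ := shift hC (T := Ω / 3) (z := z) (x0 := x0) (d := d) rfl hd' hx3 hd2
    hC.third_two n0 p1 p3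
  obtain ⟨r1, r2, r3⟩ := shift hC (T := -(Ω / 3)) (z := z) (x0 := x0) (d := -d)
    (by rw [L.weierstrassP_neg]) (by rw [L.derivWeierstrassP_neg, hd']) hx3
    (by rw [neg_sq]; exact hd2) (by rw [mul_neg, neg_mem_iff]; exact hC.third_two) n0 p2 p4
  have ho := hC.ode n0
  have hX := wp_ne hC n1
  obtain ⟨hm, eb⟩ := hb hx3 hd2 ho s3 (wp_ne hC lp) s1 s2
  obtain ⟨hp, ec⟩ := hc r3 (wp_ne hC lm) r1 r2
  have hx1 := wp_ne hC n2
  have w1 := wp_la' hC n1
  have w2 := wp_la' hC n2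
  have w3 := dwp_la hC n1
  have w4 := dwp_la hC n2
  rw [lam_lam, L.weierstrassP_neg] at w2
  rw [lam_lam, L.derivWeierstrassP_neg] at w4
  have eg : gT L Ω i z = (d - ℘'[L] z) / (2 * ℘[L] z) +
      t * (-(x0 ^ 2 * d * (℘'[L] z + d)) / (℘'[L] z - d)) +
      t ^ 2 * (6 * x0 * ℘[L] z / (℘'[L] z + d)) := by
    rw [← eb, ← ec, gT, gB, gB, gB, ← hd, ht2, ← ht, add_comm z, sub_eq_neg_add z]
  rw [eg, cube_alg ht3 (idA hx3 hX hm hp) (idC hx3 hd2 ho hX hm hp w1 hx1 w2)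
    (idD hx3 hd2 ho hX hm hp), idB hx3 hd2 ho hX hm hp (e := lam * ℘'[L] (lam * z))
    (P3 := ℘'[L] (3 * z))]
  · ring
  · linear_combination w3
  · linear_combination 3 * lam * w4 + (-9 * ℘'[L] (3 * z) - lam * ℘'[L] (lam * z) ^ 3) * lam_sq

/-- the cube of the function of the project L9 -/
theorem cubeN {L : PeriodPair} {Ω : ℂ} (hC : Cur L Ω) (i : ZMod 3) {z : ℂ}
    (hz : lam * (3 * z) ∉ L.lattice) : 2 * gN L Ω i z ^ 3 =
    27 * (-℘'[L] (3 * z) + 2 * dT L Ω * (toC w ^ i.val * ℘[L] (Ω / 3) ^ 2) * ℘[L] (3 * z) +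
      dT L Ω) := by
  have h := cube_ex hC (-i) (z := -z) (by
    have e : lam * (3 * -z) = -(lam * (3 * z)) := by ring
    rw [e, neg_mem_iff]
    exact hz)
  have e : 3 * -z = -(3 * z) := by ring
  rw [e, L.derivWeierstrassP_neg, L.weierstrassP_neg, neg_neg] at h
  rw [gN_eq]
  linear_combination -h

end Pool.Agent.D0H43.L9
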