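import Pool.Agent.D0H43.L9.StmX
import Pool.Agent.D0H43.L3.Gf

/-!
# Project L9: limits of the regularized Eisenstein sums modulo `9`
-/

set_option autoImplicit false
set_option linter.unusedSectionVars false

open Filter
open scoped Topology PeriodPair

namespace Pool.Agent.D0H43.L9

namespace Gf

open H667R3
open Pool.Agent.Y692.QS (Ei w nr toC)
open Pool.Agent.Y703.CT.Ana (ej ej_u ej_prim ej_ncop eo_j)
open Pool.Agent.W192.HK (sp)
open Pool.Agent.TH936.CM Pool.Agent.TH936.PU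
open Pool.Agent.Y715.Dist Pool.Agent.Y715.Idn Pool.Agent.Y696
open Pool.Agent.Y715.T.Rs (eq0)
open Pool.Agent.Y715.T.Lat
open Pool.Agent.Y715.T.Three (lam lam_sq lam_ne')
open Pool.Agent.N883.FF (gB)
open Pool.Agent.N883.FF.Gf (w_om elam T_eq T_not EE_T wp_T dwp_T key cop_u Dd_neg)
open Pool.Agent.D0H43.L3 (fT dT)
open Pool.Agent.D0H43.L3.Gf (fT_coe fT_eq fT_ne dT_eq om_add KK sum_KK cls inj fT_mem fT_three el
  sum54 one_mem cop_k not_fT pp pt pts per_E wa wa0 wa1 wa2)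

variable {L : PeriodPair} {Ω : ℂ}

lemma eN_val (h : S_CHIN) (i : ZMod 3) (j : Fin 3) {u : eis} (hu : IsUnit u) (a k : ℤ) :
    eN i j (u * el a k) =
      (u : ℂ) ^ (2 * (j : ℕ) + 1) * (om ^ (-(i * (a : ZMod 3))).val * om ^ ((k : ZMod 3)).val) := by
  obtain ⟨_, h2, h3, _, _, h6⟩ := h i
  unfold eN
  rw [(eo_j j).mul, ej_u j hu, ej_prim j (one_mem a k), mul_one, h2 _ _ (cop_u hu) (cop_k a k),
    h3 u hu, one_mul]
  unfold el
  rw [h6 a k, w_om, om_add]

lemma eN_ncop (i : ZMod 3) (j : Fin 3) {x : eis} (hx : ¬ IsCoprime x 3) : eN i j x = 0 := by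
  unfold eN
  rw [ej_ncop j hx, zero_mul]

/-- the weight of `k` -/
noncomputable def wk (k : ℤ) : ℂ := om ^ ((k : ZMod 3)).val

lemma wk0 : wk 0 = 1 := by simp [wk]

lemma wk1 : wk 1 = om := by
  unfold wk
  have : (((1 : ℤ) : ZMod 3)).val = 1 := rfl
  rw [this, pow_one]

lemma wk2 : wk (-1) = om ^ 2 := by
  unfold wk
  have : (((-1 : ℤ) : ZMod 3)).val = 2 := rfl
  rw [this]

/-- the sum over `k` -/
lemma key2 (hC : Cur L Ω) {z : ℂ} (h0 : z ∉ L.lattice)
    (h1 : z + Ω / lam ∉ L.lattice) (h2 : z - Ω / lam ∉ L.lattice) :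
    Tendsto (fun δ : ℝ => ∑ k ∈ KK, wk k * EE eis Ω δ (z - k * (Ω / lam))) (𝓝[>] 0)
      (𝓝 (gB L (-dT L Ω) z)) := by
  have h := key hC (a := om) (b := om ^ 2) (by linear_combination om_sq) h0 h1 h2
  have e0 : (om - om ^ 2) * ℘'[L] (Ω / lam) = -dT L Ω := by
    rw [← dT_eq hC]
    ring
  rw [e0] at h
  refine h.congr fun δ => ?_
  rw [sum_KK, wk0, wk1, wk2]
  push_cast
  have e1 : z - 0 * (Ω / lam) = z := by ring
  have e2 : z - 1 * (Ω / lam) = z - Ω / lam := by ring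
  have e3 : z - -1 * (Ω / lam) = z + Ω / lam := by ring
  rw [e1, e2, e3]
  ring

/-- the double sum -/
noncomputable def XX2 (Ω : ℂ) (i : ZMod 3) (δ : ℝ) (z : ℂ) : ℂ :=
  ∑ a ∈ KK, wa i a * ∑ k ∈ KK, wk k * EE eis Ω δ (z + a * (Ω / 3) - k * (Ω / lam))

lemma key3 (hC : Cur L Ω) (i : ZMod 3) {z : ℂ}
    (h : ∀ a k : ℤ, z + a * (Ω / 3) - k * (Ω / lam) ∉ L.lattice) :
    Tendsto (fun δ : ℝ => XX2 Ω i δ z) (𝓝[>] 0) (𝓝 (gN L Ω i z)) := by
  have hz : ∀ a : ℤ, Tendsto (fun δ : ℝ => ∑ k ∈ KK, wk k * EE eis Ω δ (z + a * (Ω / 3) -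
      k * (Ω / lam))) (𝓝[>] 0) (𝓝 (gB L (-dT L Ω) (z + a * (Ω / 3)))) := by
    intro a
    refine key2 hC ?_ ?_ ?_
    · have := h a 0
      convert this using 1
      push_cast
      ring
    · have := h a (-1)
      convert this using 1
      push_cast
      ring
    · have := h a 1
      convert this using 1
      push_cast
      ring
  have hl := tendsto_finsetSum KK fun a _ => (hz a).const_mul (wa i a)
  have e : ∑ a ∈ KK, wa i a * gB L (-dT L Ω) (z + a * (Ω / 3)) = gN L Ω i z := by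
    rw [sum_KK, wa0, wa1, wa2]
    unfold gN
    push_cast
    have e1 : z + 0 * (Ω / 3) = z := by ring
    have e2 : z + 1 * (Ω / 3) = z + Ω / 3 := by ring
    have e3 : z + -1 * (Ω / 3) = z - Ω / 3 := by ring
    rw [e1, e2, e3, w_om, one_mul]
  rw [e] at hl
  exact hl

/-- the limits for the three characters -/
theorem lims (hS : S_CHIN) (hC : Cur L Ω) (i : ZMod 3)
    [Fintype (eis ⧸ (sp fT : Ideal eis))] (j : Fin 3) :
    Tendsto (fun δ : ℝ => ∑ y : eis ⧸ (sp fT : Ideal eis),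
      eN i j y.out * EE eis Ω δ (Ω * y.out / fT)) (𝓝[>] 0) (𝓝 (CN L Ω i j)) := by
  have hk := key3 hC i (z := Ω / 9) (pts hC)
  have hsum : ∀ δ : ℝ, ∑ y : eis ⧸ (sp fT : Ideal eis),
      eN i j y.out * EE eis Ω δ (Ω * y.out / fT) = (if j = 0 then 6 else 0) * XX2 Ω i δ (Ω / 9) := by
    intro δ
    rw [sum54 (fun y => eN i j y * EE eis Ω δ (Ω * y / fT))
      (fun x hx => by rw [eN_ncop i j hx, zero_mul])
      (fun x y hxy => by
        show eN i j x * EE eis Ω δ (Ω * x / fT) = eN i j y * EE eis Ω δ (Ω * y / fT)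
        rw [((hS i).2.2.2.2.1 j).per x y hxy, EE_per hC.lat δ (per_E hC hxy)])
      (fun u => (u : ℂ) ^ (2 * (j : ℕ)) * XX2 Ω i δ (Ω / 9)) ?_]
    · have h3 := om_cube
      have hs := om_sq
      generalize XX2 Ω i δ (Ω / 9) = X
      push_cast
      rw [omr_coe]
      by_cases hj : j = 0
      · subst hj
        rw [if_pos rfl]
        simp only [Fin.val_zero, mul_zero, pow_zero, one_mul]
        ring
      · rw [if_neg hj, zero_mul]
        have hj' : (j : ℕ) = 1 ∨ (j : ℕ) = 2 := by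
          have h1 := j.2
          have h2 : (j : ℕ) ≠ 0 := fun h => hj (Fin.ext h)
          omega
        rcases hj' with h | h
        · rw [h]
          linear_combination (2 * X) * hs + (2 * om * X) * h3
        · rw [h]
          linear_combination (2 * X) * hs + (2 * om * X + 2 * X * (om ^ 5 + om ^ 2)) * h3
    · intro u hu
      have hu0 : (u : ℂ) ≠ 0 := coe_ne hu.ne_zero
      have hterm : ∀ a k : ℤ, eN i j (u * el a k) *
          EE eis Ω δ (Ω * ((u * el a k : eis) : ℂ) / fT) =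
          (u : ℂ) ^ (2 * (j : ℕ)) * (wa i a * (wk k * EE eis Ω δ (pp Ω a k))) := by
        intro a k
        have e : Ω * ((u * el a k : eis) : ℂ) / ((fT : eis) : ℂ) = u * pp Ω a k := by
          rw [← pt]
          push_cast
          ring
        rw [e, EE_unit hu, eN_val hS i j hu a k, pow_succ]
        unfold wa wk
        field_simp
      show ∑ a ∈ KK, ∑ k ∈ KK, eN i j (u * el a k) *
          EE eis Ω δ (Ω * ((u * el a k : eis) : ℂ) / fT) = (u : ℂ) ^ (2 * (j : ℕ)) * XX2 Ω i δ (Ω / 9)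
      unfold XX2
      rw [Finset.mul_sum]
      refine Finset.sum_congr rfl fun a _ => ?_
      rw [Finset.mul_sum, Finset.mul_sum]
      exact Finset.sum_congr rfl fun k _ => hterm a k
  have h5 := hk.const_mul (if j = 0 then (6 : ℂ) else 0)
  have e6 : (if j = 0 then (6 : ℂ) else 0) * gN L Ω i (Ω / 9) = CN L Ω i j := by
    unfold CN kN
    split_ifs <;> ring
  rw [e6] at h5
  exact h5.congr fun δ => (hsum δ).symm

/-- the sum of the three functions -/
theorem tot (hS : S_CHIN) (hC : Cur L Ω) {i : ZMod 3} [Fintype (eis ⧸ (sp fT : Ideal eis))]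
    (u : ℂ) : ∑ j : Fin 3, HH L Ω fT (eN i j) u =
      3 * ∑ a ∈ KK, wa i a * ∑ k ∈ KK, wk k * Dd L (pp Ω a k) u := by
  have h1 : ∑ j : Fin 3, HH L Ω fT (eN i j) u = (1 / 2) * ∑ y : eis ⧸ (sp fT : Ideal eis),
      (∑ j : Fin 3, eN i j y.out) * Dd L (Ω * y.out / fT) u := by
    unfold HH
    rw [← Finset.mul_sum, Finset.sum_comm]
    congr 1
    exact Finset.sum_congr rfl fun y _ => by rw [Finset.sum_mul]
  set Y : eis → ℂ := fun x => ∑ a ∈ KK, wa i a * ∑ k ∈ KK, wk k * Dd L ((x : ℂ) * pp Ω a k) u with hY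
  rw [h1, sum54 (fun y => (∑ j : Fin 3, eN i j y) * Dd L (Ω * y / fT) u)
    (fun x hx => by
      show (∑ j : Fin 3, eN i j x) * Dd L (Ω * x / fT) u = 0
      rw [Finset.sum_eq_zero fun j _ => eN_ncop i j hx, zero_mul])
    (fun x y hxy => by
      show (∑ j : Fin 3, eN i j x) * Dd L (Ω * x / fT) u =
        (∑ j : Fin 3, eN i j y) * Dd L (Ω * y / fT) u
      rw [Finset.sum_congr rfl fun j _ => ((hS i).2.2.2.2.1 j).per x y hxy,
        Pool.Agent.TH936.PU.Dd_per (per_E hC hxy)])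
    (fun x => ((x : ℂ) + x ^ 3 + x ^ 5) * Y x) ?_]
  · have h3 := om_cube
    have hs := om_sq
    have y1 : om + om ^ 3 + om ^ 5 = 0 := by linear_combination hs + (1 + om ^ 2) * h3
    have y2 : om ^ 2 + (om ^ 2) ^ 3 + (om ^ 2) ^ 5 = 0 := by
      linear_combination hs + (om ^ 3 + 1 + om * (om ^ 6 + om ^ 3 + 1)) * h3
    have y3 : -om + (-om) ^ 3 + (-om) ^ 5 = 0 := by linear_combination -y1
    have y4 : -om ^ 2 + (-om ^ 2) ^ 3 + (-om ^ 2) ^ 5 = 0 := by linear_combination -y2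
    push_cast
    rw [omr_coe, y1, y2, y3, y4]
    have e1 : Y 1 = ∑ a ∈ KK, wa i a * ∑ k ∈ KK, wk k * Dd L (pp Ω a k) u := by
      rw [hY]
      simp only [OneMemClass.coe_one, one_mul]
    have e2 : Y (-1) = -Y 1 := by
      rw [hY]
      simp only [OneMemClass.coe_one, one_mul, NegMemClass.coe_neg, neg_mul, Dd_neg, mul_neg,
        Finset.sum_neg_distrib]
    rw [e2, ← e1]
    ring
  · intro x hx
    have h2 : ∀ a k : ℤ, (∑ j : Fin 3, eN i j (x * el a k)) =
        ((x : ℂ) + x ^ 3 + x ^ 5) * (wa i a * wk k) := by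
      intro a k
      rw [Fin.sum_univ_three, eN_val hS _ _ hx, eN_val hS _ _ hx, eN_val hS _ _ hx]
      unfold wa wk
      norm_num
      ring
    have e : ∀ a k : ℤ, Ω * ((x * el a k : eis) : ℂ) / ((fT : eis) : ℂ) = x * pp Ω a k := by
      intro a k
      rw [← pt]
      push_cast
      ring
    show ∑ a ∈ KK, ∑ k ∈ KK, (∑ j : Fin 3, eN i j (x * el a k)) *
        Dd L (Ω * ((x * el a k : eis) : ℂ) / fT) u = ((x : ℂ) + x ^ 3 + x ^ 5) * Y x
    rw [hY, Finset.mul_sum]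
    refine Finset.sum_congr rfl fun a _ => ?_
    rw [Finset.mul_sum, Finset.mul_sum]
    refine Finset.sum_congr rfl fun k _ => ?_
    rw [h2, e]
    ring

/-- the second limit -/
theorem tot2 (hC : Cur L Ω) (i : ZMod 3) {c x : eis} (hc : c ≠ 0)
    (h3 : IsCoprime 3 c) (hx : x ∉ (sp c : Ideal eis)) :
    ∑ a ∈ KK, wa i a * ∑ k ∈ KK, wk k * Dd L (pp Ω a k) (Ω * x / c) =
      gN L Ω i (Ω / 9 + Ω * x / c) + gN L Ω i (Ω / 9 - Ω * x / c) - 2 * kN L Ω i := by
  have hu : Ω * x / c ∉ L.lattice := by rwa [div_mem_iff hC.lat hc]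
  have hcop : IsCoprime fT c := by
    rw [fT_eq]
    exact h3.mul_left h3
  have hn : ∀ a k : ℤ, pp Ω a k + Ω * x / c ∉ L.lattice ∧ pp Ω a k - Ω * x / c ∉ L.lattice := by
    intro a k
    rw [← pt]
    exact cop_notMem hC.lat fT_ne hc hcop hx
  set z := Ω * (x : ℂ) / (c : ℂ) with hz
  -- the limit of the second differences
  have hl := tendsto_finsetSum KK fun a _ => (tendsto_finsetSum KK fun k _ =>
    (lim_Dd hC.lat (pts hC a k) hu (hn a k).1 (hn a k).2).const_mul (wk k)).const_mul (wa i a)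
  -- the other limit
  have k1 := key3 hC i (z := Ω / 9 + z) fun a k => by
    have := (hn a k).1
    unfold pp at this
    convert this using 1
    ring
  have k2 := key3 hC i (z := Ω / 9 - z) fun a k => by
    have := (hn a k).2
    unfold pp at this
    convert this using 1
    ring
  have k3 := key3 hC i (z := Ω / 9) (pts hC)
  have hr := (k1.add k2).sub (k3.const_mul 2)
  refine tendsto_nhds_unique hl (hr.congr fun δ => ?_)
  unfold XX2
  rw [Finset.mul_sum, ← Finset.sum_add_distrib, ← Finset.sum_sub_distrib]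
  refine Finset.sum_congr rfl fun a _ => ?_
  rw [← mul_assoc 2, mul_comm 2 (wa i a), mul_assoc (wa i a) 2, ← mul_add, ← mul_sub]
  congr 1
  rw [Finset.mul_sum, ← Finset.sum_add_distrib, ← Finset.sum_sub_distrib]
  refine Finset.sum_congr rfl fun k _ => ?_
  have s1 : Ω / 9 + z + a * (Ω / 3) - k * (Ω / lam) = pp Ω a k + z := by unfold pp; ring
  have s2 : Ω / 9 - z + a * (Ω / 3) - k * (Ω / lam) = pp Ω a k - z := by unfold pp; ring
  have s3 : Ω / 9 + a * (Ω / 3) - k * (Ω / lam) = pp Ω a k := rfl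
  rw [s1, s2, s3]
  ring

end Gf

/-- L3-GF -/
theorem gfN : S_GFN := by
  intro hS L Ω hC i _
  refine ⟨fun j => Gf.lims hS hC i j, fun c x hc h3 hx => ?_⟩
  rw [Gf.tot hS hC, Gf.tot2 hC i hc h3 hx]

end Pool.Agent.D0H43.L9
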