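import Mathlib
import Pool.Agent.Y715.T.Cg

/-!
# Project L9: the residue map of a valuation above three
-/

set_option autoImplicit false

open scoped Classical

namespace Pool.Agent.D0H43.L9

open Pool.Agent.Y715.T.Cg (Cg)
open Pool.Agent.Y715.Two (v_nat v_int)

variable {Γ : Type} [LinearOrderedCommGroupWithZero Γ] (v : Valuation ℂ Γ)

/-- the residue field -/
abbrev RF : Type := IsLocalRing.ResidueField v.valuationSubring

/-- the residue map, zero for the numbers that are not integral -/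
noncomputable def rs (z : ℂ) : RF v :=
  if h : v z ≤ 1 then IsLocalRing.residue v.valuationSubring ⟨z, h⟩ else 0

variable {v}

lemma rs_of {z : ℂ} (h : v z ≤ 1) : rs v z = IsLocalRing.residue v.valuationSubring ⟨z, h⟩ :=
  dif_pos h

lemma rs_add {x y : ℂ} (hx : v x ≤ 1) (hy : v y ≤ 1) : rs v (x + y) = rs v x + rs v y := by
  rw [rs_of hx, rs_of hy, rs_of (v.map_add_le hx hy), ← map_add]
  rfl

lemma rs_mul {x y : ℂ} (hx : v x ≤ 1) (hy : v y ≤ 1) : rs v (x * y) = rs v x * rs v y := by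
  have h : v (x * y) ≤ 1 := by rw [map_mul]; exact mul_le_one' hx hy
  rw [rs_of hx, rs_of hy, rs_of h, ← map_mul]
  rfl

lemma rs_one : rs v 1 = 1 := by
  rw [rs_of (by rw [map_one])]
  exact map_one (IsLocalRing.residue v.valuationSubring)

lemma rs_zero : rs v 0 = 0 := by
  rw [rs_of (by rw [map_zero]; exact zero_le_one)]
  exact map_zero (IsLocalRing.residue v.valuationSubring)

lemma rs_neg {x : ℂ} (hx : v x ≤ 1) : rs v (-x) = -rs v x := by
  rw [rs_of hx, rs_of (by rwa [v.map_neg]), ← map_neg]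
  rfl

lemma rs_sub {x y : ℂ} (hx : v x ≤ 1) (hy : v y ≤ 1) : rs v (x - y) = rs v x - rs v y := by
  rw [sub_eq_add_neg, rs_add hx (by rwa [v.map_neg]), rs_neg hy, sub_eq_add_neg]

lemma rs_pow {x : ℂ} (hx : v x ≤ 1) (n : ℕ) : rs v (x ^ n) = rs v x ^ n := by
  induction n with
  | zero => rw [pow_zero, pow_zero, rs_one]
  | succ n ih =>
    rw [pow_succ, pow_succ, rs_mul (by rw [map_pow]; exact pow_le_one' hx n) hx, ih]

lemma rs_sum {κ : Type*} (S : Finset κ) {f : κ → ℂ} (h : ∀ i ∈ S, v (f i) ≤ 1) :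
    rs v (∑ i ∈ S, f i) = ∑ i ∈ S, rs v (f i) := by
  induction S using Finset.induction_on with
  | empty => rw [Finset.sum_empty, Finset.sum_empty, rs_zero]
  | insert j S hj ih =>
    rw [Finset.sum_insert hj, Finset.sum_insert hj,
      rs_add (h j (Finset.mem_insert_self _ _)), ih fun i hi => h i (Finset.mem_insert_of_mem hi)]
    exact v.map_sum_le fun i hi => h i (Finset.mem_insert_of_mem hi)

lemma prod_le {κ : Type*} (S : Finset κ) {f : κ → ℂ} (h : ∀ i ∈ S, v (f i) ≤ 1) :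
    v (∏ i ∈ S, f i) ≤ 1 := by
  rw [map_prod]
  exact Finset.prod_le_one' h

lemma rs_prod {κ : Type*} (S : Finset κ) {f : κ → ℂ} (h : ∀ i ∈ S, v (f i) ≤ 1) :
    rs v (∏ i ∈ S, f i) = ∏ i ∈ S, rs v (f i) := by
  induction S using Finset.induction_on with
  | empty => rw [Finset.prod_empty, Finset.prod_empty, rs_one]
  | insert j S hj ih =>
    rw [Finset.prod_insert hj, Finset.prod_insert hj,
      rs_mul (h j (Finset.mem_insert_self _ _)), ih fun i hi => h i (Finset.mem_insert_of_mem hi)]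
    exact prod_le S fun i hi => h i (Finset.mem_insert_of_mem hi)

lemma rs_eq_zero {z : ℂ} (h : v z < 1) : rs v z = 0 := by
  rw [rs_of h.le, IsLocalRing.residue_eq_zero_iff, IsLocalRing.mem_maximalIdeal, mem_nonunits_iff]
  intro hu
  obtain ⟨y, hy⟩ := hu.exists_right_inv
  have h1 : z * (y : ℂ) = 1 := by
    have := congrArg (fun t : v.valuationSubring => (t : ℂ)) hy
    exact this
  have h2 : v z * v (y : ℂ) = 1 := by rw [← map_mul, h1, map_one]
  have h3 : v (y : ℂ) ≤ 1 := y.2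
  have h4 : v z * v (y : ℂ) < 1 := mul_lt_one_of_lt_of_le h h3
  exact absurd h2 h4.ne

lemma lt_of_rs {z : ℂ} (h : v z ≤ 1) (h0 : rs v z = 0) : v z < 1 := by
  rcases h.lt_or_eq with h1 | h1
  · exact h1
  exfalso
  have hz : z ≠ 0 := by
    rintro rfl
    rw [map_zero] at h1
    exact zero_ne_one h1
  have h2 : v z⁻¹ ≤ 1 := by rw [map_inv₀, h1, inv_one]
  have h3 := rs_mul h h2
  rw [mul_inv_cancel₀ hz, rs_one, h0, zero_mul] at h3
  exact one_ne_zero h3

lemma rs_congr {x y : ℂ} (hy : v y ≤ 1) (h : v (x - y) < 1) : v x ≤ 1 ∧ rs v x = rs v y := by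
  have e : x = (x - y) + y := by ring
  refine ⟨by rw [e]; exact v.map_add_le h.le hy, ?_⟩
  rw [e, rs_add h.le hy, rs_eq_zero h, zero_add]

lemma rs_natCast (n : ℕ) : rs v (n : ℂ) = (n : RF v) := by
  induction n with
  | zero => rw [Nat.cast_zero, Nat.cast_zero, rs_zero]
  | succ n ih =>
    rw [Nat.cast_succ, Nat.cast_succ, rs_add (v_nat n) (by rw [map_one]), ih, rs_one]

lemma three_zero (h3 : v 3 < 1) : (3 : RF v) = 0 := by
  have h := rs_natCast (v := v) 3
  have e : ((3 : ℕ) : ℂ) = 3 := by norm_num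
  rw [e, rs_eq_zero h3] at h
  have e2 : ((3 : ℕ) : RF v) = 3 := by norm_num
  rw [← e2, ← h]

lemma charP (h3 : v 3 < 1) : CharP (RF v) 3 := by
  rw [CharP.charP_iff_prime_eq_zero Nat.prime_three]
  have e2 : ((3 : ℕ) : RF v) = 3 := by norm_num
  rw [e2, three_zero h3]

/-- the embedding of the prime field -/
noncomputable def io (h3 : v 3 < 1) : ZMod 3 →+* RF v :=
  haveI := charP h3
  ZMod.castHom (dvd_refl 3) (RF v)

lemma io_val (h3 : v 3 < 1) (d : ZMod 3) : io h3 d = (d.val : RF v) := by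
  conv_lhs => rw [← ZMod.natCast_zmod_val d]
  rw [map_natCast]

lemma rs_cg (h3 : v 3 < 1) {s : ℂ} {d : ZMod 3} (h : Cg v s d) : rs v s = io h3 d := by
  rw [(rs_congr (v_nat d.val) h.lt).2, rs_natCast, io_val]

/-- cubes determine residues -/
lemma rs_cube (h3 : v 3 < 1) {x : ℂ} (hx : v x ≤ 1) {d : ZMod 3} (h : rs v (x ^ 3) = io h3 d) :
    rs v x = io h3 d := by
  have := charP h3
  have hd : ∀ d : ZMod 3, d = d ^ 3 := by decide
  rw [rs_pow hx] at h
  have h1 : io h3 d = io h3 d ^ 3 := by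
    rw [← map_pow, ← hd d]
  rw [h1] at h
  have : Fact (Nat.Prime 3) := ⟨Nat.prime_three⟩
  have h2 : (rs v x - io h3 d) ^ 3 = 0 := by
    rw [sub_pow_char, h, sub_self]
  exact sub_eq_zero.1 (pow_eq_zero_iff (by norm_num)|>.1 h2)

end Pool.Agent.D0H43.L9
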