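import Pool.Agent.D0H43.L9.Val
import Pool.Agent.D0H43.L9.Chi
import Pool.Agent.D0H43.L9.Gf
import Pool.Agent.D0H43.L9.Rs
import Pool.Agent.N883.FF.Dist
import Pool.Agent.Y703.CT.AN1
import Pool.Agent.N883.FF.Lk

/-!
# Project L9: local functions of the residues modulo the primes
-/

set_option autoImplicit false
set_option linter.unusedVariables false
set_option linter.unusedSectionVars false

open Filter
open scoped Classical Topology PeriodPair

namespace Pool.Agent.D0H43.L9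

open Pool.Agent.Y692.QS (Ei w nr toC)
open Pool.Agent.Y703.CT (Dt Xc fy fin_quot Xc_of mem_iff eq0_ne ex_ne)
open Pool.Agent.W192.HK (sp)
open H667R3
open Pool.Agent.TH936.CM
open Pool.Agent.TH936.PU hiding v_int
open Pool.Agent.Y715.Dist Pool.Agent.Y715.Idn
open Pool.Agent.Y696 (Cur eis om omr omr_unit)
open Pool.Agent.Y715.T.Rs (eq0)
open Pool.Agent.Y715.T.Rec (cs)
open Pool.Agent.N883.FF (nq)
open Pool.Agent.D0H43.L3 (fT dT)
open Pool.Agent.Y715.T.Lat (la notMem_of_cop)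

variable {J : Type} [Fintype J] {π : J → Ei} {e : J → ZMod 3}

/-- the indicator of the residue classes with the symbol `b` -/
noncomputable def de (π : J → Ei) (k : J) (b : ZMod 3) (x : eis) : ℂ :=
  if ¬ π k ∣ eq0.symm x ∧ cs (π k) (eq0.symm x) = b then 1 else 0

/-- the product of the indicators -/
noncomputable def ch (π : J → Ei) (S : Finset J) (a : J → ZMod 3) (x : eis) : ℂ :=
  ∏ k ∈ S, de π k (a k) x

lemma de_per (h : Dt π e) (k : J) (b : ZMod 3) (x y : eis)
    (hxy : x - y ∈ (sp (eq0 (π k)) : Ideal eis)) : de π k b x = de π k b y := by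
  rw [mem_iff, map_sub] at hxy
  unfold de
  by_cases hx : π k ∣ eq0.symm x
  · have hy : π k ∣ eq0.symm y := (dvd_iff_dvd_of_dvd_sub hxy).1 hx
    rw [if_neg (by tauto), if_neg (by tauto)]
  · have hy : ¬ π k ∣ eq0.symm y := fun h1 => hx ((dvd_iff_dvd_of_dvd_sub hxy).2 h1)
    rw [Pool.Agent.Y715.T.RecG.cs_congr (h.pq k).prime (h.pq k).norm hx hxy]
    simp only [hx, hy]

lemma de_mul (h : Dt π e) (k : J) (b : ZMod 3) {y : Ei} (hy : ¬ π k ∣ y) (x : eis) :
    de π k b (eq0 y * x) = de π k (b - cs (π k) y) x := by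
  unfold de
  rw [map_mul, RingEquiv.symm_apply_apply]
  by_cases hx : π k ∣ eq0.symm x
  · rw [if_neg (fun h1 => h1.1 (hx.mul_left _)), if_neg (by tauto)]
  · have hxy : ¬ π k ∣ y * eq0.symm x := fun h1 => ((h.pq k).prime.dvd_or_dvd h1).elim hy hx
    rw [Pool.Agent.Y715.T.RecG.cs_mul (h.pq k).prime (h.pq k).norm hy hx]
    refine if_congr ?_ rfl rfl
    constructor
    · rintro ⟨-, h2⟩
      exact ⟨hx, by rw [← h2]; ring⟩
    · rintro ⟨-, h2⟩
      exact ⟨hxy, by rw [h2]; ring⟩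

lemma sum_de (k : J) (x : eis) : ∑ b : ZMod 3, de π k b x = ind (eq0 (π k)) x := by
  unfold de
  by_cases hx : π k ∣ eq0.symm x
  · rw [ind_mem ((mem_iff _ _).2 hx)]
    exact Finset.sum_eq_zero fun b _ => if_neg (by tauto)
  · rw [ind_notMem (fun h => hx ((mem_iff _ _).1 h))]
    rw [Finset.sum_eq_single (cs (π k) (eq0.symm x))]
    · rw [if_pos ⟨hx, rfl⟩]
    · intro b _ hb
      rw [if_neg (fun h => hb h.2.symm)]
    · intro h1
      exact absurd (Finset.mem_univ _) h1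

lemma ch_per (h : Dt π e) (S : Finset J) (a : J → ZMod 3) (x y : eis)
    (hxy : x - y ∈ (sp (cc (fun k => eq0 (π k)) S) : Ideal eis)) : ch π S a x = ch π S a y :=
  Finset.prod_congr rfl fun k hk => de_per h k _ _ _ (cc_mem hk hxy)

lemma ch_mul (h : Dt π e) (S : Finset J) (a : J → ZMod 3) {y : Ei} (hy : ∀ k ∈ S, ¬ π k ∣ y)
    (x : eis) : ch π S a (eq0 y * x) = ch π S (fun k => a k - cs (π k) y) x := by
  unfold ch
  refine Finset.prod_congr rfl fun k hk => ?_
  rw [de_mul h k (a k) (hy k hk) x]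

lemma ch_zero {Γ : Type} [LinearOrderedCommGroupWithZero Γ] {v : Valuation ℂ Γ} (hv : v 3 < 1)
    (h : Dt π e) {S : Finset J} {a : J → ZMod 3} {x : eis}
    (hx : ¬ IsCoprime x (cc (fun k => eq0 (π k)) S)) : ch π S a x = 0 := by
  have hfy := fy (v := v) hv h
  rw [hfy.cop_iff] at hx
  push Not at hx
  obtain ⟨k, hk, hxk⟩ := hx
  refine Finset.prod_eq_zero hk ?_
  unfold de
  rw [if_neg (fun h1 => h1.1 ((mem_iff _ _).1 hxk))]

lemma ch_or (S : Finset J) (a : J → ZMod 3) (x : eis) : ch π S a x = 0 ∨ ch π S a x = 1 := by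
  unfold ch
  by_cases h1 : ∃ k ∈ S, de π k (a k) x = 0
  · obtain ⟨k, hk, h2⟩ := h1
    exact Or.inl (Finset.prod_eq_zero hk h2)
  · right
    push Not at h1
    refine Finset.prod_eq_one fun k hk => ?_
    have h2 := h1 k hk
    unfold de at h2 ⊢
    split_ifs with h3
    · rfl
    · rw [if_neg h3] at h2
      exact absurd rfl h2

lemma de_congr (k : J) {a b : ZMod 3} (hab : a = b) : de π k a = de π k b := by rw [hab]

lemma ch_congr {S : Finset J} {a b : J → ZMod 3} (hab : ∀ k ∈ S, a k = b k) (x : eis) :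
    ch π S a x = ch π S b x :=
  Finset.prod_congr rfl fun k hk => by rw [hab k hk]

/-! ### the number of residues with a given symbol -/

lemma not_dvd_of_ne (h : Dt π e) {j k : J} (hjk : j ≠ k) : ¬ π k ∣ π j := h.nd j k hjk

theorem cnt1 (h : Dt π e) (k : J) (b : ZMod 3) :
    Sm (eq0 (π k)) (de π k b) = (((nr (π k) - 1) / 3 : ℤ) : ℂ) := by
  have hp := h.pq k
  obtain ⟨g, hg0, hg⟩ := ex_ne hp
  have hfin := fin_quot _ (eq0_ne hp.prime)
  have : Fintype (eis ⧸ (sp (eq0 (π k)) : Ideal eis)) := Fintype.ofFinite _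
  have hcop : IsCoprime (eq0 (π k)) (eq0 g) := by
    have h1 : IsCoprime (π k) g := (hp.prime.irreducible.coprime_iff_not_dvd).2 hg0
    obtain ⟨a, b, hab⟩ := h1
    refine ⟨eq0 a, eq0 b, ?_⟩
    rw [← map_mul, ← map_mul, ← map_add, hab, map_one]
  have hshift : ∀ b : ZMod 3, Sm (eq0 (π k)) (de π k (b - cs (π k) g)) =
      Sm (eq0 (π k)) (de π k b) := by
    intro b
    rw [Sm_eq, Sm_eq]
    have h1 := sum_mul_bij hcop (F := de π k b) (de_per h k b)
    rw [Finset.sum_congr rfl fun y _ => de_mul h k b hg0 y.out] at h1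
    exact h1
  have hall : ∀ b c : ZMod 3, Sm (eq0 (π k)) (de π k b) = Sm (eq0 (π k)) (de π k c) := by
    intro b c
    have h1 := hshift b
    have h2 := hshift (b - cs (π k) g)
    generalize cs (π k) g = s at hg h1 h2
    have h3 : c = b ∨ c = b - s ∨ c = b - s - s := by
      clear h1 h2
      revert b c s
      decide
    rcases h3 with rfl | rfl | rfl
    · rfl
    · exact h1.symm
    · rw [h2, h1]
  have hsum : ∑ b : ZMod 3, Sm (eq0 (π k)) (de π k b) =
      (Nat.card (eis ⧸ (sp (eq0 (π k)) : Ideal eis)) : ℂ) - 1 := by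
    have h1 : ∑ b : ZMod 3, Sm (eq0 (π k)) (de π k b) = Sm (eq0 (π k)) (ind (eq0 (π k))) := by
      unfold Sm
      rw [Finset.sum_comm]
      exact Finset.sum_congr rfl fun x _ => sum_de k x
    rw [h1, Sm_eq]
    have h2 : ∀ x : eis ⧸ (sp (eq0 (π k)) : Ideal eis),
        ind (eq0 (π k)) x.out = 1 - (if x = 0 then 1 else 0) := by
      intro x
      by_cases hx : x = 0
      · rw [if_pos hx, sub_self]
        apply ind_mem
        rw [hx]
        have := out_mk (sp (eq0 (π k))) (0 : eis)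
        rw [map_zero, zero_sub] at this
        exact neg_mem_iff.1 this
      · rw [if_neg hx, sub_zero, ind_notMem (out_notMem hx)]
    rw [Finset.sum_congr rfl fun x _ => h2 x, Finset.sum_sub_distrib, Finset.sum_const,
      Finset.sum_ite_eq' , if_pos (Finset.mem_univ _), Finset.card_univ, nsmul_eq_mul, mul_one,
      Nat.card_eq_fintype_card]
  have h2 : (Nat.card (eis ⧸ (sp (eq0 (π k)) : Ideal eis)) : ℤ) = nr (π k) := by
    rw [← Pool.Agent.Y715.T.Tf.up_sp, Pool.Agent.Y715.T.Tf.card_up,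
      Pool.Agent.Y715.T.Rs.card_quo]
  have h3 : (Nat.card (eis ⧸ (sp (eq0 (π k)) : Ideal eis)) : ℂ) = ((nr (π k) : ℤ) : ℂ) := by
    rw [← h2]
    push_cast
    rfl
  have h5 : ∑ c : ZMod 3, Sm (eq0 (π k)) (de π k c) = 3 * Sm (eq0 (π k)) (de π k b) := by
    rw [Finset.sum_congr rfl fun c _ => hall c b, Finset.sum_const, Finset.card_univ,
      ZMod.card, nsmul_eq_mul]
    norm_num
  rw [h5, h3] at hsum
  obtain ⟨m, hm⟩ : ∃ m : ℤ, nr (π k) = 3 * m + 1 :=
    Pool.Agent.N883.FF.Lk.nr_three (Pool.Agent.Y696.CT.ep_ndvd hp.three)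
  rw [hm] at hsum ⊢
  rw [add_sub_cancel_right, Int.mul_ediv_cancel_left _ (by norm_num)]
  push_cast at hsum
  linear_combination (1 / 3 : ℂ) * hsum

/-- the number of the residue classes -/
theorem cntS (h : Dt π e) (S : Finset J) (a : J → ZMod 3) :
    Sm (cc (fun k => eq0 (π k)) S) (ch π S a) = ∏ k ∈ S, (((nr (π k) - 1) / 3 : ℤ) : ℂ) := by
  have h1 := Sm_prod (π := fun k => eq0 (π k)) fin_quot (fun k => eq0_ne (h.pq k).prime)
    (fun i j hij => Pool.Agent.Y703.CT.cop_eis h hij) (g := fun k => de π k (a k))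
    (fun k x y hxy => de_per h k _ x y hxy) S
  rw [Finset.prod_congr rfl fun k _ => cnt1 h k (a k)] at h1
  exact h1

lemma rs_cnt {Γ : Type} [LinearOrderedCommGroupWithZero Γ] {v : Valuation ℂ Γ} (hv : v 3 < 1)
    (h : Dt π e) (S : Finset J) (a : J → ZMod 3) :
    rs v (Sm (cc (fun k => eq0 (π k)) S) (ch π S a)) = io hv (∏ k ∈ S, nq (π k)) := by
  rw [cntS h, rs_prod S fun k _ => Pool.Agent.Y715.Two.v_int _, map_prod]
  refine Finset.prod_congr rfl fun k _ => ?_
  obtain ⟨m, hm⟩ : ∃ m : ℤ, nr (π k) = 3 * m + 1 :=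
    Pool.Agent.N883.FF.Lk.nr_three (Pool.Agent.Y696.CT.ep_ndvd (h.pq k).three)
  rw [Pool.Agent.N883.FF.Lk.nq_of hm, map_intCast, hm, add_sub_cancel_right,
    Int.mul_ediv_cancel_left _ (by norm_num)]
  have h0 : ∀ n : ℤ, rs v (n : ℂ) = (n : RF v) := by
    intro n
    obtain ⟨k, rfl | rfl⟩ := n.eq_nat_or_neg
    · push_cast
      exact rs_natCast k
    · push_cast
      rw [rs_neg (Pool.Agent.Y715.Two.v_nat k), rs_natCast]
  exact h0 m

end Pool.Agent.D0H43.L9
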