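import Mathlib

/-!
# Project L9: the two combinatorial statements

`hp c q j S` is the sum over the Hamiltonian paths of `S` that start at `j`, with the weights `c` on
the edges and `q` at the end.
-/

set_option autoImplicit false
set_option linter.unusedVariables false

namespace Pool.Agent.D0H43.L9

open Finset

variable {J F : Type} [DecidableEq J] [CommRing F]

/-- the sum over the Hamiltonian paths of `S` starting at `j` -/
def hpn (c : J → J → F) (q : J → F) : ℕ → J → Finset J → F
  | 0, _, _ => 0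
  | n + 1, j, S => (if S = {j} then q j else 0) + ∑ k ∈ S.erase j, c j k * hpn c q n k (S.erase j)

/-- the sum over the Hamiltonian paths of `S` starting at `j` -/
def hp (c : J → J → F) (q : J → F) (j : J) (S : Finset J) : F := hpn c q S.card j S

lemma hp_rec (c : J → J → F) (q : J → F) {j : J} {S : Finset J} (hj : j ∈ S) :
    hp c q j S = (if S = {j} then q j else 0) + ∑ k ∈ S.erase j, c j k * hp c q k (S.erase j) := by
  unfold hp
  have h : S.card = (S.erase j).card + 1 := (card_erase_add_one hj).symm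
  rw [h, hpn]

/-- the sum over the Hamiltonian paths of `S` with the weights `q` at both ends -/
def phi (c : J → J → F) (q : J → F) (S : Finset J) : F := ∑ j ∈ S, q j * hp c q j S

/-- the functions on `S`, zero outside of `S` -/
def box [Fintype J] (S : Finset J) : Finset (J → ZMod 3) :=
  Fintype.piFinset fun k => if k ∈ S then Finset.univ else {0}

/-- L9-MOM: the top moment of a system of distributions. -/
def S_MOM : Prop := ∀ (F : Type) [Field F] (ι : ZMod 3 →+* F) (J : Type) [Fintype J] [DecidableEq J]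
  (c : J → J → ZMod 3) (q : J → ZMod 3) (W : Finset J → (J → ZMod 3) → F),
  (∀ j k, j ≠ k → c j k = c k j) →
  (∀ S a b, (∀ k ∈ S, a k = b k) → W S a = W S b) →
  (∀ a, W ∅ a = 0) →
  (∀ S, ∀ m ∈ S, ∀ a, ∑ b : ZMod 3, W S (Function.update a m b) =
    W (S.erase m) a - W (S.erase m) (fun k => a k - c k m)) →
  (∀ S, S.Nonempty → ∀ a, W S (fun k => a k + q k) = W S a + ι (∏ k ∈ S, q k)) →
  (∀ S, (∀ k ∈ S, q k = 0) → ∀ a, W S a = 0) →
  ∀ S, S.Nonempty → ∑ a ∈ box S, ι (∏ k ∈ S, a k) * W S a = (-1) ^ S.card * ι (phi c q S)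

/-- L9-DET: the recursion gives a nonzero value if the bordered kernel is trivial. -/
def S_DETN : Prop := ∀ (F : Type) [Field F] (ι : ZMod 3 →+* F) (J : Type) [Fintype J] [DecidableEq J]
  (c : J → J → ZMod 3) (q t e : J → ZMod 3) (i : ZMod 3) (D : Finset J → F),
  (∀ j k, j ≠ k → c j k = c k j) → (∀ j, e j ≠ 0) → D ∅ = ι i →
  (∀ S, S.Nonempty → ∑ T ∈ S.powerset, (-1) ^ T.card * (D T *
    ∏ k ∈ S \ T, ι (t k + ∑ l ∈ T, -(e l * c l k))) =
      -(ι (∏ k ∈ S, -e k) * ((-1) ^ S.card * ι (phi c q S)))) →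
  (∀ (v : J → ZMod 3) (a : ZMod 3),
    (∀ j, ∑ k, -e k * c j k * (v k - v j) + a * q j = t j * v j) →
    ∑ k, -e k * v k * q k = i * a → (∀ j, v j = 0) ∧ a = 0) →
  D Finset.univ ≠ 0

end Pool.Agent.D0H43.L9
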