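import Pool.Agent.D0H43.L9.Loc
import Pool.Agent.D0H43.L9.StmC

/-!
# Project L9: the system of distributions
-/

set_option autoImplicit false
set_option linter.unusedVariables false
set_option linter.unusedSectionVars false

open Filter
open scoped Classical Topology PeriodPair

namespace Pool.Agent.D0H43.L9

open Pool.Agent.Y692.QS (Ei w nr toC)
open Pool.Agent.Y703.CT (Dt Xc fy fin_quot Xc_of mem_iff eq0_ne ex_ne)
open Pool.Agent.Y703.CT.Ana (ej ej_prim)
open Pool.Agent.W192.HK (sp)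
open H667R3
open Pool.Agent.TH936.CM
open Pool.Agent.TH936.PU hiding v_int
open Pool.Agent.Y715.Dist Pool.Agent.Y715.Idn
open Pool.Agent.Y696 (Cur eis om omr omr_unit)
open Pool.Agent.Y715.T.Rs (eq0)
open Pool.Agent.Y715.T.Rec (cs)
open Pool.Agent.Y715.T.Three
open Pool.Agent.N883.FF (nq)
open Pool.Agent.D0H43.L3 (fT dT w_three)
open Pool.Agent.Y715.T.Lat (la notMem_of_cop)
open Alg

/-! ### generalities -/

section gen

variable {L : PeriodPair} {R : Subring ℂ} {Ω : ℂ} {f : R} [Fintype (R ⧸ sp f)] {e : R → ℂ} {Ef : ℂ}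

/-- one more prime, for a general function -/
theorem sum_gen (hL : IsLat L R Ω) (hfin : ∀ q : R, q ≠ 0 → Finite (R ⧸ sp q)) (hf : f ≠ 0)
    {a c : R} (hc : c ≠ 0) (ha : a ≠ 0) (hfc : IsCoprime f c) (hfa : IsCoprime f a)
    (he : Eo f e)
    (h0 : Tendsto (fun δ : ℝ => ∑ y : R ⧸ sp f, e y.out *
      EE R Ω δ (Ω * y.out / f)) (𝓝[>] 0) (𝓝 Ef)) {χ : R → ℂ}
    (hχ : ∀ x y : R, x - y ∈ sp c → χ x = χ y) :
    e a * Sm (a * c) (fun x => (if x ∈ sp a then 0 else χ x) * Ph L Ω f e Ef (a * c) x) =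
      a * Sm c (fun x => χ x * Ph L Ω f e Ef c x) -
        e a * Sm c (fun x => χ (a * x) * Ph L Ω f e Ef c x) := by
  have hac : a * c ≠ 0 := mul_ne_zero ha hc
  have hper : ∀ x y : R, x - y ∈ sp (a * c) → χ x * Ph L Ω f e Ef (a * c) x =
      χ y * Ph L Ω f e Ef (a * c) y := by
    intro x y h
    rw [Ph_per hL hac h, hχ x y]
    rw [Ideal.mem_span_singleton'] at h ⊢
    obtain ⟨b, hb⟩ := h
    exact ⟨b * a, by linear_combination hb⟩
  have h1 := Sm_mul hc hfin ha hper
  have h2 := Sm_div hc hfin ha hper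
  have h3 : Sm (a * c) (fun x => χ x * Ph L Ω f e Ef (a * c) x) =
      Sm (a * c) (fun x => (if x ∈ sp a then 0 else χ x) * Ph L Ω f e Ef (a * c) x) +
      Sm (a * c) (fun x => if x ∈ sp a then χ x * Ph L Ω f e Ef (a * c) x else 0) := by
    rw [← Sm_add]
    refine Finset.sum_congr rfl fun x _ => ?_
    by_cases hx : x ∈ sp a
    · simp [hx]
    · simp [hx]
  have h4 : e a * Sm c (fun x => Sm a (fun t => χ (x + c * t) *
      Ph L Ω f e Ef (a * c) (x + c * t))) = a * Sm c (fun x => χ x * Ph L Ω f e Ef c x) := by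
    rw [← Sm_mul_left, ← Sm_mul_left]
    refine Finset.sum_congr rfl fun x _ => ?_
    have h5 : ∀ t : R, χ (x + c * t) = χ x := by
      intro t
      refine hχ _ _ ?_
      rw [add_sub_cancel_left, Ideal.mem_span_singleton']
      exact ⟨t, mul_comm _ _⟩
    simp only [h5]
    rw [Sm_mul_left]
    have h6 := Pool.Agent.N883.FF.Dist.dist_Ph' hL hfin hf hc ha hfc hfa he h0 x
    linear_combination χ x * h6
  have h6 : Sm c (fun x => χ (a * x) * Ph L Ω f e Ef (a * c) (a * x)) =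
      Sm c (fun x => χ (a * x) * Ph L Ω f e Ef c x) := by
    refine Finset.sum_congr rfl fun x _ => ?_
    have h7 : Ph L Ω f e Ef (a * c) (a * x) = Ph L Ω f e Ef c x := by
      have h8 : a * x ∈ sp (a * c) ↔ x ∈ sp c := by
        rw [Ideal.mem_span_singleton', Ideal.mem_span_singleton']
        constructor
        · rintro ⟨b, hb⟩
          refine ⟨b, ?_⟩
          apply mul_left_cancel₀ ha
          linear_combination hb
        · rintro ⟨b, hb⟩
          exact ⟨b, by linear_combination a * hb⟩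
      by_cases hx : x ∈ sp c
      · rw [Ph_of_mem hx, Ph_of_mem (h8.2 hx)]
      · rw [Ph_of_notMem hx, Ph_of_notMem (fun h => hx (h8.1 h))]
        have ha0 := coe_ne ha
        have hc0 := coe_ne hc
        congr 2
        push_cast
        field_simp
    show χ (a * x) * Ph L Ω f e Ef (a * c) (a * x) = χ (a * x) * Ph L Ω f e Ef c x
    rw [h7]
  rw [h1] at h3
  rw [h2, h6] at h3
  linear_combination h4 - e a * h3

/-- counting -/
theorem cnt_gen (hfin : ∀ q : R, q ≠ 0 → Finite (R ⧸ sp q))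
    {a c : R} (hc : c ≠ 0) (ha : a ≠ 0) {χ : R → ℂ}
    (hχ : ∀ x y : R, x - y ∈ sp c → χ x = χ y) :
    Sm (a * c) (fun x => if x ∈ sp a then 0 else χ x) =
      (Nat.card (R ⧸ sp a) : ℂ) * Sm c χ - Sm c (fun x => χ (a * x)) := by
  have hper : ∀ x y : R, x - y ∈ sp (a * c) → χ x = χ y := by
    intro x y h
    refine hχ x y ?_
    rw [Ideal.mem_span_singleton'] at h ⊢
    obtain ⟨b, hb⟩ := h
    exact ⟨b * a, by linear_combination hb⟩
  have h1 := Sm_mul hc hfin ha hper
  have h2 := Sm_div hc hfin ha hper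
  have h3 : Sm (a * c) (fun x => χ x) = Sm (a * c) (fun x => if x ∈ sp a then 0 else χ x) +
      Sm (a * c) (fun x => if x ∈ sp a then χ x else 0) := by
    rw [← Sm_add]
    refine Finset.sum_congr rfl fun x _ => ?_
    by_cases hx : x ∈ sp a
    · simp [hx]
    · simp [hx]
  have h4 : Sm c (fun x => Sm a (fun t => χ (x + c * t))) = (Nat.card (R ⧸ sp a) : ℂ) * Sm c χ := by
    rw [← Sm_mul_left]
    refine Finset.sum_congr rfl fun x _ => ?_
    have h5 : ∀ t : R, χ (x + c * t) = χ x := by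
      intro t
      refine hχ _ _ ?_
      rw [add_sub_cancel_left, Ideal.mem_span_singleton']
      exact ⟨t, mul_comm _ _⟩
    simp only [h5]
    have : Fintype (R ⧸ sp a) := @Fintype.ofFinite _ (hfin a ha)
    rw [Sm_eq, Finset.sum_const, Finset.card_univ, nsmul_eq_mul, Nat.card_eq_fintype_card]
  rw [h2] at h3
  have h5 : Sm (a * c) (fun x => χ x) = Sm c (fun x => Sm a (fun t => χ (x + c * t))) := h1
  rw [h5, h4] at h3
  linear_combination -h3

end gen

/-! ### the total function -/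

section tot

variable {L : PeriodPair} {Ω : ℂ} {i : ZMod 3} [Fintype (eis ⧸ (sp fT : Ideal eis))]

/-- the total of the limits for the three characters -/
noncomputable def PT (L : PeriodPair) (Ω : ℂ) (i : ZMod 3) (c x : eis) : ℂ :=
  ∑ j : Fin 3, Ph L Ω fT (eN i j) (CN L Ω i j) c x

lemma sum_CN (L : PeriodPair) (Ω : ℂ) (i : ZMod 3) : ∑ j : Fin 3, CN L Ω i j = 6 * kN L Ω i := by
  rw [Fin.sum_univ_three]
  unfold CN
  rw [if_pos rfl, if_neg (by decide), if_neg (by decide)]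
  ring

lemma PT_mem {c x : eis} (hx : x ∈ (sp c : Ideal eis)) : PT L Ω i c x = 6 * kN L Ω i := by
  unfold PT
  rw [Finset.sum_congr rfl fun j _ => Ph_of_mem hx, sum_CN]

lemma PT_not (hgf : S_GFN) (hC : Cur L Ω) (hg0 : g0N L Ω i ≠ 0) {c x : eis} (hc : c ≠ 0)
    (h3c : IsCoprime 3 c) (hx : x ∉ (sp c : Ideal eis)) :
    PT L Ω i c x = 3 * g0N L Ω i * (tauN L Ω i c x + 2) := by
  obtain ⟨hl1, hl2⟩ := hgf chiN L Ω hC i
  unfold PT
  rw [Finset.sum_congr rfl fun j _ => Ph_of_notMem hx, Finset.sum_add_distrib,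
    hl2 c x hc h3c hx, sum_CN]
  unfold tauN
  field_simp
  ring

lemma fT_ne : (fT : eis) ≠ 0 := Pool.Agent.D0H43.L3.Gf.fT_ne

lemma fT_cop {c : eis} (h : IsCoprime 3 c) : IsCoprime (fT : eis) c := by
  rw [Pool.Agent.D0H43.L3.Gf.fT_eq]
  exact h.mul_left h

/-- the relation for the total function -/
theorem tot_gen (hgf : S_GFN) (hC : Cur L Ω) {a c : eis} (hc : c ≠ 0) (ha : a ≠ 0)
    (h3c : IsCoprime 3 c) (h3a : IsCoprime 3 a) (hpa : a - 1 ∈ (sp 3 : Ideal eis))
    {χ : eis → ℂ} (hχ : ∀ x y : eis, x - y ∈ (sp c : Ideal eis) → χ x = χ y) :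
    cN i a * Sm (a * c) (fun x => (if x ∈ (sp a : Ideal eis) then 0 else χ x) * PT L Ω i (a * c) x) =
      a * Sm c (fun x => χ x * PT L Ω i c x) - cN i a * Sm c (fun x => χ (a * x) * PT L Ω i c x) := by
  obtain ⟨-, -, -, -, c_eo, -⟩ := chiN i
  obtain ⟨hl1, hl2⟩ := hgf chiN L Ω hC i
  have key : ∀ j : Fin 3, cN i a * Sm (a * c) (fun x => (if x ∈ (sp a : Ideal eis) then 0 else χ x) *
      Ph L Ω fT (eN i j) (CN L Ω i j) (a * c) x) =
      a * Sm c (fun x => χ x * Ph L Ω fT (eN i j) (CN L Ω i j) c x) -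
        cN i a * Sm c (fun x => χ (a * x) * Ph L Ω fT (eN i j) (CN L Ω i j) c x) := by
    intro j
    have h1 := sum_gen hC.lat fin_quot fT_ne hc ha (fT_cop h3c) (fT_cop h3a) (c_eo j) (hl1 j) hχ
    have h2 : eN i j a = cN i a := by
      unfold eN
      rw [ej_prim j hpa, one_mul]
    rw [h2] at h1
    exact h1
  have hex : ∀ (c' : eis) (g : eis → ℂ), Sm c' (fun x => g x * PT L Ω i c' x) =
      ∑ j : Fin 3, Sm c' (fun x => g x * Ph L Ω fT (eN i j) (CN L Ω i j) c' x) := by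
    intro c' g
    unfold Sm PT
    rw [Finset.sum_comm]
    exact Finset.sum_congr rfl fun x _ => Finset.mul_sum _ _ _
  rw [hex, hex, hex, Finset.mul_sum, Finset.mul_sum, Finset.mul_sum, ← Finset.sum_sub_distrib]
  exact Finset.sum_congr rfl fun j _ => key j

end tot

end Pool.Agent.D0H43.L9
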