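import Pool.Agent.D0H43.L9.Mo

/-!
# Project L9: the properties of the system of distributions
-/

set_option autoImplicit false
set_option linter.unusedVariables false
set_option linter.unusedSectionVars false

open Filter
open scoped Classical Topology PeriodPair

namespace Pool.Agent.D0H43.L9

open Pool.Agent.Y692.QS (Ei w nr toC)
open Pool.Agent.Y703.CT (Dt Xc fy fin_quot Xc_of mem_iff eq0_ne ex_ne)
open Pool.Agent.Y703.CT.Ana (ej ej_prim)
open Pool.Agent.W192.HK (sp)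
open H667R3
open Pool.Agent.TH936.CM
open Pool.Agent.TH936.PU hiding v_int
open Pool.Agent.Y715.Dist Pool.Agent.Y715.Idn
open Pool.Agent.Y696 (Cur eis om omr omr_unit)
open Pool.Agent.Y715.T.Rs (eq0)
open Pool.Agent.Y715.T.Rec (cs)
open Pool.Agent.Y715.T.Three
open Pool.Agent.Y715.T.Cg (Cg Zt zt_of_prim z_pow)
open Pool.Agent.N883.FF (nq)
open Pool.Agent.D0H43.L3 (fT dT w_three)
open Pool.Agent.Y715.T.Lat (la notMem_of_cop)
open Alg

variable {Γ : Type} [LinearOrderedCommGroupWithZero Γ] {v : Valuation ℂ Γ}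
  {L : PeriodPair} {Ω : ℂ} {i : ZMod 3} {J : Type} [Fintype J] {π : J → Ei} {e : J → ZMod 3}
  {κ : ℂ}

/-- the sums -/
noncomputable def TS (L : PeriodPair) (Ω : ℂ) (i : ZMod 3) (π : J → Ei) (S : Finset J)
    (a : J → ZMod 3) : ℂ :=
  Sm (cc (fun k => eq0 (π k)) S) (fun x => ch π S a x *
    tauN L Ω i (cc (fun k => eq0 (π k)) S) x)

/-- the system of distributions -/
noncomputable def WW (v : Valuation ℂ Γ) (L : PeriodPair) (Ω : ℂ) (i : ZMod 3) (π : J → Ei)
    (κ : ℂ) (S : Finset J) (a : J → ZMod 3) : RF v :=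
  if S = ∅ then 0 else rs v (TS L Ω i π S a / κ)

section

variable (hv : v 3 < 1)

include hv

lemma v_one_sub_w : v (1 - toC w) = v lam := by
  rw [Val.toC_w]
  exact Pool.Agent.Y703.CT.Ana.om_val hv

lemma zt_w : Zt v (toC w) := zt_of_prim hv (k := 1) le_rfl (by
  rw [pow_one]
  exact Pool.Agent.Y715.T.Fin.prim_w)

variable (hκ : κ ^ 3 = 1 - toC w)

include hκ

lemma v_kap : v κ ^ 3 = v lam := by
  rw [← map_pow, hκ, v_one_sub_w hv]

lemma kap_pos : 0 < v κ := by
  rw [zero_lt_iff]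
  intro h
  have h1 := v_kap hv hκ
  rw [h, zero_pow (by norm_num)] at h1
  exact lam_ne h1.symm

lemma kap_ne : κ ≠ 0 := by
  rintro rfl
  have h1 := kap_pos hv hκ
  rw [map_zero] at h1
  exact lt_irrefl _ h1

lemma kap_lt : v κ < 1 := by
  by_contra hcon
  push Not at hcon
  have h1 := v_kap hv hκ
  have h2 : 1 ≤ v κ ^ 3 := one_le_pow₀ hcon
  rw [h1] at h2
  exact absurd (lam_lt hv) (not_lt.2 h2)

lemma lam_lt_kap : v lam < v κ := by
  have h1 := v_kap hv hκ
  have h2 := kap_lt hv hκ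
  have h3 := kap_pos hv hκ
  rw [← h1, pow_succ]
  exact mul_lt_of_lt_one_left h3 (pow_lt_one' h2 (by norm_num))

lemma three_lt_kap : v 3 < v κ := by
  refine lt_trans ?_ (lam_lt_kap hv hκ)
  rw [← sq_three]
  exact mul_lt_of_lt_one_right lam_pos (lam_lt hv)

/-- division by `κ` -/
lemma div_kap_lt {x : ℂ} (hx : v x ≤ v lam) : v (x / κ) < 1 := by
  rw [map_div₀, div_lt_one₀ (kap_pos hv hκ)]
  exact hx.trans_lt (lam_lt_kap hv hκ)

variable (hC : Cur L Ω)

include hC

lemma g0_ne' : g0N L Ω i ≠ 0 := by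
  intro h
  have h1 := (valN Γ v hv L Ω hC i).1
  rw [h, map_zero, zero_pow (by norm_num)] at h1
  exact (pow_ne_zero 7 lam_ne) h1.symm

lemma tau_int {c x : eis} (hc : c ≠ 0) (h3c : IsCoprime 3 c) (hct : (sp c : Ideal eis) ≠ ⊤)
    (hx : IsCoprime x c) : v (tauN L Ω i c x / κ) ≤ 1 := by
  have h1 := ((valN Γ v hv L Ω hC i).2.2 c x hc h3c hct hx).1
  rw [← v_kap hv hκ] at h1
  have h2 : v (tauN L Ω i c x) ≤ v κ := (pow_le_pow_iff_left₀ zero_le zero_le three_ne_zero).1 h1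
  rw [map_div₀, div_le_one₀ (kap_pos hv hκ)]
  exact h2

lemma tau_shift {c x : eis} (hc : c ≠ 0) (h3c : IsCoprime 3 c) (hct : (sp c : Ideal eis) ≠ ⊤)
    (hx : IsCoprime x c) : rs v (tauN L Ω i c (omr * x) / κ) = rs v (tauN L Ω i c x / κ) + 1 := by
  have hκ0 := kap_ne hv hκ
  have h1 := ((valN Γ v hv L Ω hC i).2.2 c x hc h3c hct hx).2
  have i1 := tau_int hv hκ hC (i := i) hc h3c hct hx
  have i2 := tau_int hv hκ hC (i := i) hc h3c hct (Val.omr_cop hx)
  set A := tauN L Ω i c x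
  set A' := tauN L Ω i c (omr * x)
  have h2 : v ((A' / κ) ^ 3 - ((A / κ) ^ 3 + 1)) < 1 := by
    have e : (A' / κ) ^ 3 - ((A / κ) ^ 3 + 1) = (A' ^ 3 - A ^ 3 - (1 - toC w)) / κ ^ 3 := by
      rw [← hκ]
      field_simp
      ring
    rw [e, map_div₀, map_pow, v_kap hv hκ, div_lt_one₀ lam_pos]
    exact h1
  have h3 : rs v ((A' / κ) ^ 3) = rs v ((A / κ) ^ 3 + 1) :=
    (rs_congr (v.map_add_le (by rw [map_pow]; exact pow_le_one' i1 3) (by rw [map_one])) h2).2
  rw [rs_add (by rw [map_pow]; exact pow_le_one' i1 3) (by rw [map_one]), rs_pow i2, rs_pow i1,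
    rs_one] at h3
  have := charP hv
  have : Fact (Nat.Prime 3) := ⟨Nat.prime_three⟩
  have h4 : (rs v (A' / κ) - (rs v (A / κ) + 1)) ^ 3 = 0 := by
    rw [sub_pow_char, add_pow_char, h3, one_pow, sub_self]
  exact sub_eq_zero.1 (pow_eq_zero_iff (by norm_num)|>.1 h4)

variable (h : Dt π e)

include h

/-- the terms are integral -/
lemma term_int (S : Finset J) (hS : S.Nonempty) (a : J → ZMod 3) (x : eis) :
    v (ch π S a x * (tauN L Ω i (cc (fun k => eq0 (π k)) S) x / κ)) ≤ 1 := by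
  have hfy := fy (v := v) hv h
  by_cases hx : IsCoprime x (cc (fun k => eq0 (π k)) S)
  · rw [map_mul]
    refine mul_le_one' ?_ (tau_int hv hκ hC (hfy.cc_ne S) (hfy.three_cc S) (hfy.cc_top hS) hx)
    rcases ch_or (π := π) S a x with h1 | h1
    · rw [h1, map_zero]
      exact zero_le_one
    · rw [h1, map_one]
  · rw [ch_zero hv h hx, zero_mul, map_zero]
    exact zero_le_one

/-- the sum, in the residue field -/
lemma WW_eq (S : Finset J) (hS : S.Nonempty) (a : J → ZMod 3) :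
    v (TS L Ω i π S a / κ) ≤ 1 ∧ WW v L Ω i π κ S a =
      ∑ x ∈ rp (cc (fun k => eq0 (π k)) S), rs v (ch π S a x) *
        rs v (tauN L Ω i (cc (fun k => eq0 (π k)) S) x / κ) := by
  have hfy := fy (v := v) hv h
  have e1 : TS L Ω i π S a / κ = ∑ x ∈ rp (cc (fun k => eq0 (π k)) S), ch π S a x *
      (tauN L Ω i (cc (fun k => eq0 (π k)) S) x / κ) := by
    unfold TS Sm
    rw [Finset.sum_div]
    exact Finset.sum_congr rfl fun x _ => by ring
  refine ⟨by rw [e1]; exact v.map_sum_le fun x _ => term_int hv hκ hC h S hS a x, ?_⟩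
  unfold WW
  rw [if_neg hS.ne_empty, e1, rs_sum _ fun x _ => term_int hv hκ hC h S hS a x]
  refine Finset.sum_congr rfl fun x _ => ?_
  by_cases hx : IsCoprime x (cc (fun k => eq0 (π k)) S)
  · refine rs_mul ?_ (tau_int hv hκ hC (hfy.cc_ne S) (hfy.three_cc S) (hfy.cc_top hS) hx)
    rcases ch_or (π := π) S a x with h1 | h1
    · rw [h1, map_zero]
      exact zero_le_one
    · rw [h1, map_one]
  · rw [ch_zero hv h hx, zero_mul, rs_zero, zero_mul]

end

/-! ### sums in the residue field -/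

/-- substitution by a unit -/
lemma sum_unit {F : Type*} [AddCommMonoid F] {c u : eis} (hc : c ≠ 0) (hu : IsUnit u) {f : eis → F}
    (hf : ∀ x y : eis, x - y ∈ (sp c : Ideal eis) → f x = f y) :
    ∑ x ∈ rp c, f (u * x) = ∑ x ∈ rp c, f x := by
  have hfin := fin_quot c hc
  have : Fintype (eis ⧸ (sp c : Ideal eis)) := Fintype.ofFinite _
  rw [← rp_sum, ← rp_sum]
  obtain ⟨g, hg⟩ := hu.map (Ideal.Quotient.mk (sp c : Ideal eis))
  have e1 : ∀ z : eis ⧸ (sp c : Ideal eis), f (u * z.out) = f ((g : eis ⧸ (sp c : Ideal eis)) * z).out := by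
    intro z
    refine hf _ _ ?_
    rw [← Ideal.Quotient.mk_eq_mk_iff_sub_mem, Ideal.Quotient.mk_out, map_mul,
      Ideal.Quotient.mk_out, hg]
  rw [Finset.sum_congr rfl fun z _ => e1 z]
  exact Equiv.sum_comp (Units.mulLeft g) (fun z : eis ⧸ (sp c : Ideal eis) => f z.out)

/-- the function is periodic -/
lemma gN_per {z l : ℂ} (hl : l ∈ L.lattice) : gN L Ω i (z + l) = gN L Ω i z := by
  have h1 : ∀ u : ℂ, Pool.Agent.N883.FF.gB L (-dT L Ω) (u + l) =
      Pool.Agent.N883.FF.gB L (-dT L Ω) u := by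
    intro u
    unfold Pool.Agent.N883.FF.gB
    rw [wp_per (z := u + l) (w := u) (by rw [add_sub_cancel_left]; exact hl),
      dwp_per (z := u + l) (w := u) (by rw [add_sub_cancel_left]; exact hl)]
  unfold gN
  have e1 : z + l + Ω / 3 = (z + Ω / 3) + l := by ring
  have e2 : z + l - Ω / 3 = (z - Ω / 3) + l := by ring
  rw [e1, e2, h1, h1, h1]

lemma tau_per (hC : Cur L Ω) {c x y : eis} (hc : c ≠ 0) (hxy : x - y ∈ (sp c : Ideal eis)) :
    tauN L Ω i c x = tauN L Ω i c y := by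
  have h1 := (div_mem_iff hC.lat hc (x - y)).2 hxy
  have e : Ω * ((x - y : eis) : ℂ) / c = Ω * x / c - Ω * y / c := by
    push_cast
    ring
  rw [e] at h1
  unfold tauN
  have e1 : Ω / 9 + Ω * x / c = (Ω / 9 + Ω * y / c) + (Ω * x / c - Ω * y / c) := by ring
  have e2 : Ω / 9 - Ω * x / c = (Ω / 9 - Ω * y / c) + -(Ω * x / c - Ω * y / c) := by ring
  rw [e1, e2, gN_per h1, gN_per (neg_mem h1)]

end Pool.Agent.D0H43.L9
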