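import Pool.Agent.D0H43.L9.Mo2

/-!
# Project L9: the properties of the system of distributions, continued
-/

set_option autoImplicit false
set_option linter.unusedVariables false
set_option linter.unusedSectionVars false

open Filter
open scoped Classical Topology PeriodPair

namespace Pool.Agent.D0H43.L9

open Pool.Agent.Y692.QS (Ei w nr toC)
open Pool.Agent.Y703.CT (Dt Xc fy fin_quot Xc_of mem_iff eq0_ne ex_ne)
open Pool.Agent.Y703.CT.Ana (ej ej_prim)
open Pool.Agent.W192.HK (sp)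
open H667R3
open Pool.Agent.TH936.CM
open Pool.Agent.TH936.PU hiding v_int
open Pool.Agent.Y715.Dist Pool.Agent.Y715.Idn
open Pool.Agent.Y696 (Cur eis om omr omr_unit)
open Pool.Agent.Y715.T.Rs (eq0)
open Pool.Agent.Y715.T.Rec (cs)
open Pool.Agent.Y715.T.Three
open Pool.Agent.Y715.T.Cg (Cg Zt zt_of_prim z_pow)
open Pool.Agent.N883.FF (nq)
open Pool.Agent.D0H43.L3 (fT dT w_three)
open Pool.Agent.Y715.T.Lat (la notMem_of_cop)
open Alg

variable {Γ : Type} [LinearOrderedCommGroupWithZero Γ] {v : Valuation ℂ Γ}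
  {L : PeriodPair} {Ω : ℂ} {i : ZMod 3} {J : Type} [Fintype J] {π : J → Ei} {e : J → ZMod 3}
  {κ : ℂ}

lemma eq0_w : eq0 w = omr := by
  apply Subtype.ext
  rw [Pool.Agent.Y715.T.Rs.eq0_coe, Pool.Agent.Y696.omr_coe, Val.toC_w]

lemma not_dvd_w (h : Dt π e) (k : J) : ¬ π k ∣ w := fun h1 =>
  (h.pq k).prime.not_isUnit (isUnit_of_dvd_unit h1 (by
    simpa using Pool.Agent.N883.FF.Lk.isUnit_wpow 1))

lemma ch_w (h : Dt π e) (S : Finset J) (a : J → ZMod 3) (x : eis) :
    ch π S a (omr * x) = ch π S (fun k => a k - nq (π k)) x := by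
  rw [← eq0_w, ch_mul h S a (fun k _ => not_dvd_w h k) x]
  exact ch_congr (fun k _ => by rw [Pool.Agent.N883.FF.Lk.cs_w (h.pq k)]) x

lemma WW_congr (S : Finset J) {a b : J → ZMod 3} (hab : ∀ k ∈ S, a k = b k) :
    WW v L Ω i π κ S a = WW v L Ω i π κ S b := by
  have h1 : ch π S a = ch π S b := funext fun x => ch_congr hab x
  unfold WW TS
  rw [h1]

section

variable (hv : v 3 < 1) (hκ : κ ^ 3 = 1 - toC w) (hC : Cur L Ω) (h : Dt π e)

include hv hκ hC h

lemma f_per (S : Finset J) (a : J → ZMod 3) (n : ℕ) (x y : eis)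
    (hxy : x - y ∈ (sp (cc (fun k => eq0 (π k)) S) : Ideal eis)) :
    rs v (ch π S a x) * rs v (tauN L Ω i (cc (fun k => eq0 (π k)) S) x / κ) ^ n =
    rs v (ch π S a y) * rs v (tauN L Ω i (cc (fun k => eq0 (π k)) S) y / κ) ^ n := by
  have hfy := fy (v := v) hv h
  rw [ch_per h S a x y hxy, tau_per hC (hfy.cc_ne S) hxy]

lemma sum_ch (S : Finset J) (a : J → ZMod 3) :
    ∑ x ∈ rp (cc (fun k => eq0 (π k)) S), rs v (ch π S a x) = io hv (∏ k ∈ S, nq (π k)) := by
  rw [← rs_cnt hv h S a]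
  unfold Sm
  rw [rs_sum]
  intro x _
  rcases ch_or (π := π) S a x with h1 | h1
  · rw [h1, map_zero]
    exact zero_le_one
  · rw [h1, map_one]

lemma shift_term (S : Finset J) (hS : S.Nonempty) (a : J → ZMod 3) (n : ℕ) (x : eis) :
    rs v (ch π S a (omr * x)) *
      rs v (tauN L Ω i (cc (fun k => eq0 (π k)) S) (omr * x) / κ) ^ n =
    rs v (ch π S (fun k => a k - nq (π k)) x) *
      (rs v (tauN L Ω i (cc (fun k => eq0 (π k)) S) x / κ) + 1) ^ n := by
  have hfy := fy (v := v) hv h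
  rw [ch_w h]
  by_cases hx : IsCoprime x (cc (fun k => eq0 (π k)) S)
  · rw [tau_shift hv hκ hC (hfy.cc_ne S) (hfy.three_cc S) (hfy.cc_top hS) hx]
  · rw [ch_zero hv h hx, rs_zero, zero_mul, zero_mul]

/-- the second property -/
theorem p2 (S : Finset J) (hS : S.Nonempty) (a : J → ZMod 3) :
    WW v L Ω i π κ S (fun k => a k + nq (π k)) =
      WW v L Ω i π κ S a + io hv (∏ k ∈ S, nq (π k)) := by
  have hfy := fy (v := v) hv h
  rw [(WW_eq hv hκ hC h S hS _).2, (WW_eq hv hκ hC h S hS _).2, ← sum_ch hv hκ hC h S a,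
    ← Finset.sum_add_distrib]
  have h1 := sum_unit (hfy.cc_ne S) omr_unit
    (f_per (i := i) hv hκ hC h S (fun k => a k + nq (π k)) 1)
  simp only [pow_one] at h1
  rw [← h1]
  refine Finset.sum_congr rfl fun x _ => ?_
  have h2 := shift_term (i := i) hv hκ hC h S hS (fun k => a k + nq (π k)) 1 x
  rw [pow_one, pow_one] at h2
  rw [h2]
  have h3 : ch π S (fun k => a k + nq (π k) - nq (π k)) x = ch π S a x :=
    ch_congr (fun k _ => by rw [add_sub_cancel_right]) x
  rw [h3]
  ring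

/-- the third property -/
theorem p3 (S : Finset J) (hq : ∀ k ∈ S, nq (π k) = 0) (a : J → ZMod 3) :
    WW v L Ω i π κ S a = 0 := by
  rcases S.eq_empty_or_nonempty with rfl | hS
  · exact if_pos rfl
  have hfy := fy (v := v) hv h
  have h0 : ∏ k ∈ S, nq (π k) = 0 := by
    obtain ⟨k, hk⟩ := hS
    exact Finset.prod_eq_zero hk (hq k hk)
  have hn := sum_ch hv hκ hC h S a
  rw [h0, map_zero] at hn
  rw [(WW_eq hv hκ hC h S hS _).2]
  have h1 := sum_unit (hfy.cc_ne S) omr_unit (f_per (i := i) hv hκ hC h S a 2)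
  have h2 : ∀ x : eis, rs v (ch π S a (omr * x)) *
      rs v (tauN L Ω i (cc (fun k => eq0 (π k)) S) (omr * x) / κ) ^ 2 =
      rs v (ch π S a x) * rs v (tauN L Ω i (cc (fun k => eq0 (π k)) S) x / κ) ^ 2 +
        2 * (rs v (ch π S a x) * rs v (tauN L Ω i (cc (fun k => eq0 (π k)) S) x / κ)) +
        rs v (ch π S a x) := by
    intro x
    rw [shift_term hv hκ hC h S hS a 2 x]
    have h3 : ch π S (fun k => a k - nq (π k)) x = ch π S a x :=
      ch_congr (fun k hk => by rw [hq k hk, sub_zero]) x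
    rw [h3]
    ring
  rw [Finset.sum_congr rfl fun x _ => h2 x, Finset.sum_add_distrib, Finset.sum_add_distrib,
    ← Finset.mul_sum, hn, add_zero] at h1
  have h4 : (2 : RF v) * ∑ x ∈ rp (cc (fun k => eq0 (π k)) S), rs v (ch π S a x) *
      rs v (tauN L Ω i (cc (fun k => eq0 (π k)) S) x / κ) = 0 := by
    linear_combination h1
  have h5 : (2 : RF v) ≠ 0 := by
    intro h2
    have h3 := three_zero hv
    have : (1 : RF v) = 0 := by linear_combination h3 - h2
    exact one_ne_zero this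
  exact (mul_eq_zero.1 h4).resolve_left h5

end

end Pool.Agent.D0H43.L9
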