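import Pool.Agent.D0H43.L9.Mo3

/-!
# Project L9: the first property of the system of distributions
-/

set_option autoImplicit false
set_option linter.unusedVariables false
set_option linter.unusedSectionVars false

open Filter
open scoped Classical Topology PeriodPair

namespace Pool.Agent.D0H43.L9

open Pool.Agent.Y692.QS (Ei w nr toC)
open Pool.Agent.Y703.CT (Dt Xc fy fin_quot Xc_of mem_iff eq0_ne ex_ne)
open Pool.Agent.Y703.CT.Ana (ej ej_prim)
open Pool.Agent.W192.HK (sp)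
open H667R3
open Pool.Agent.TH936.CM
open Pool.Agent.TH936.PU hiding v_int
open Pool.Agent.Y715.Dist Pool.Agent.Y715.Idn
open Pool.Agent.Y696 (Cur eis om omr omr_unit)
open Pool.Agent.Y715.T.Rs (eq0)
open Pool.Agent.Y715.T.Rec (cs)
open Pool.Agent.Y715.T.Three
open Pool.Agent.Y715.T.Cg (Cg Zt zt_of_prim z_pow)
open Pool.Agent.N883.FF (nq)
open Pool.Agent.D0H43.L3 (fT dT w_three)
open Pool.Agent.Y715.T.Lat (la notMem_of_cop)
open Alg

variable {Γ : Type} [LinearOrderedCommGroupWithZero Γ] {v : Valuation ℂ Γ}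
  {L : PeriodPair} {Ω : ℂ} {i : ZMod 3} {J : Type} [Fintype J] {π : J → Ei} {e : J → ZMod 3}
  {κ : ℂ}

section

variable (hv : v 3 < 1) (hκ : κ ^ 3 = 1 - toC w) (hC : Cur L Ω) (h : Dt π e)

include hv hκ hC

/-- the constant -/
lemma k_int : v (kN L Ω i / g0N L Ω i / κ) ≤ 1 ∧
    rs v (kN L Ω i / g0N L Ω i / κ) = io hv i := by
  obtain ⟨-, h2, -⟩ := valN Γ v hv L Ω hC i
  have hκ0 := kap_ne hv hκ
  set K := kN L Ω i / g0N L Ω i
  have hz := zt_w hv
  have e1 : (K / κ) ^ 3 - (1 - toC w ^ i.val) / (1 - toC w) =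
      (K ^ 3 - (1 - toC w ^ i.val)) / κ ^ 3 := by
    rw [div_pow, hκ]
    field_simp
  have h3 : v ((K / κ) ^ 3 - (1 - toC w ^ i.val) / (1 - toC w)) < 1 := by
    rw [e1, map_div₀, map_pow, v_kap hv hκ, div_lt_one₀ lam_pos]
    exact h2
  have h4 := Zt.quot hv hz i.val
  rw [ZMod.natCast_zmod_val] at h4
  obtain ⟨h5, h6⟩ := rs_congr h4.le h3
  have h7 : v (K / κ) ≤ 1 := by
    rw [map_pow] at h5
    by_contra hcon
    push Not at hcon
    exact absurd h5 (not_le.2 (one_lt_pow₀ hcon (by norm_num)))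
  refine ⟨h7, rs_cube hv h7 ?_⟩
  rw [h6, rs_cg hv h4]

include h

/-- the numbers of the residue classes, and the value of the character -/
lemma alp (m : J) : cN i (eq0 (π m)) ≠ 0 ∧ v (cN i (eq0 (π m))) = 1 ∧
    v ((eq0 (π m) : ℂ) / cN i (eq0 (π m)) - 1) < 1 ∧
    v ((eq0 (π m) : ℂ) / cN i (eq0 (π m)) - (Nat.card (eis ⧸ (sp (eq0 (π m)) : Ideal eis)) : ℂ)) ≤
      v lam ∧
    v ((Nat.card (eis ⧸ (sp (eq0 (π m)) : Ideal eis)) : ℂ) - 1) ≤ v 3 := by
  have hfy := fy (v := v) hv h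
  have hz := zt_w hv
  obtain ⟨-, -, -, c_cube, -, -⟩ := chiN i
  have hc1 : v (cN i (eq0 (π m))) = 1 := z_pow (k := 3) (by norm_num) (c_cube _)
  have hc0 : cN i (eq0 (π m)) ≠ 0 := by
    intro h1
    rw [h1, map_zero] at hc1
    exact zero_ne_one hc1
  have hlin := hfy.lin m
  have hcard := hfy.card m
  have h3l : v (3 : ℂ) ≤ v lam := by
    rw [← sq_three]
    exact mul_le_of_le_one_right zero_le (lam_lt hv).le
  have hcw : v (1 - cN i (eq0 (π m))) ≤ v lam := by
    unfold cN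
    rw [← v_one_sub_w hv]
    exact hz.pow_le _
  have key : v ((eq0 (π m) : ℂ) / cN i (eq0 (π m)) - 1) ≤ v lam := by
    have e1 : (eq0 (π m) : ℂ) / cN i (eq0 (π m)) - 1 =
        (((eq0 (π m) : ℂ) - 1) + (1 - cN i (eq0 (π m)))) / cN i (eq0 (π m)) := by
      field_simp
      ring
    rw [e1, map_div₀, hc1, div_one]
    exact v.map_add_le (hlin.trans h3l) hcw
  refine ⟨hc0, hc1, key.trans_lt (lam_lt hv), ?_, hcard⟩
  have e2 : (eq0 (π m) : ℂ) / cN i (eq0 (π m)) -
      (Nat.card (eis ⧸ (sp (eq0 (π m)) : Ideal eis)) : ℂ) =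
      ((eq0 (π m) : ℂ) / cN i (eq0 (π m)) - 1) -
      ((Nat.card (eis ⧸ (sp (eq0 (π m)) : Ideal eis)) : ℂ) - 1) := by ring
  rw [e2]
  exact v.map_sub_le key (hcard.trans h3l)

/-- the sum with one prime removed -/
noncomputable def T1 (L : PeriodPair) (Ω : ℂ) (i : ZMod 3) (π : J → Ei) (S : Finset J)
    (a : J → ZMod 3) (m : J) : ℂ :=
  Sm (cc (fun k => eq0 (π k)) S) (fun x => (if x ∈ (sp (eq0 (π m)) : Ideal eis) then 0 else
    ch π (S.erase m) a x) * tauN L Ω i (cc (fun k => eq0 (π k)) S) x)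

lemma sum_T1 (S : Finset J) {m : J} (hm : m ∈ S) (a : J → ZMod 3) :
    v (T1 L Ω i π S a m / κ) ≤ 1 ∧
    ∑ b : ZMod 3, WW v L Ω i π κ S (Function.update a m b) = rs v (T1 L Ω i π S a m / κ) := by
  have hS : S.Nonempty := ⟨m, hm⟩
  have e1 : T1 L Ω i π S a m / κ = ∑ b : ZMod 3, TS L Ω i π S (Function.update a m b) / κ := by
    rw [← Finset.sum_div]
    congr 1
    unfold T1 TS Sm
    rw [Finset.sum_comm]
    refine Finset.sum_congr rfl fun x _ => ?_
    rw [← Finset.sum_mul]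
    beta_reduce
    congr 1
    have h1 : ∀ b : ZMod 3, ch π S (Function.update a m b) x =
        de π m b x * ch π (S.erase m) a x := by
      intro b
      unfold ch
      rw [← Finset.mul_prod_erase S _ hm, Function.update_self]
      congr 1
      refine Finset.prod_congr rfl fun k hk => ?_
      rw [Function.update_of_ne (Finset.ne_of_mem_erase hk)]
    rw [Finset.sum_congr rfl fun b _ => h1 b, ← Finset.sum_mul, sum_de]
    beta_reduce
    by_cases hx : x ∈ (sp (eq0 (π m)) : Ideal eis)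
    · rw [if_pos hx, ind_mem hx, zero_mul]
    · rw [if_neg hx, ind_notMem hx, one_mul]
  have h2 : ∀ b : ZMod 3, v (TS L Ω i π S (Function.update a m b) / κ) ≤ 1 := fun b =>
    (WW_eq hv hκ hC h S hS _).1
  refine ⟨by rw [e1]; exact v.map_sum_le fun b _ => h2 b, ?_⟩
  rw [e1, rs_sum _ fun b _ => h2 b]
  refine Finset.sum_congr rfl fun b _ => ?_
  unfold WW
  rw [if_neg hS.ne_empty]

/-- the main relation -/
lemma rel_T1 (S : Finset J) {m : J} (hm : m ∈ S) (a : J → ZMod 3)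
    [Fintype (eis ⧸ (sp fT : Ideal eis))] :
    cN i (eq0 (π m)) * (3 * g0N L Ω i * (T1 L Ω i π S a m +
      2 * ((Nat.card (eis ⧸ (sp (eq0 (π m)) : Ideal eis)) : ℂ) *
        Sm (cc (fun k => eq0 (π k)) (S.erase m)) (ch π (S.erase m) a) -
        Sm (cc (fun k => eq0 (π k)) (S.erase m)) (ch π (S.erase m)
          (fun k => a k - cs (π k) (π m)))))) =
      (eq0 (π m) : ℂ) * Sm (cc (fun k => eq0 (π k)) (S.erase m)) (fun x =>
        ch π (S.erase m) a x * PT L Ω i (cc (fun k => eq0 (π k)) (S.erase m)) x) -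
      cN i (eq0 (π m)) * Sm (cc (fun k => eq0 (π k)) (S.erase m)) (fun x =>
        ch π (S.erase m) (fun k => a k - cs (π k) (π m)) x *
          PT L Ω i (cc (fun k => eq0 (π k)) (S.erase m)) x) := by
  have hfy := fy (v := v) hv h
  have hg0 := g0_ne' (i := i) hv hκ hC
  have hcm : ∀ x : eis, ch π (S.erase m) a (eq0 (π m) * x) =
      ch π (S.erase m) (fun k => a k - cs (π k) (π m)) x := fun x =>
    ch_mul h _ _ (fun k hk => h.nd m k (Finset.ne_of_mem_erase hk).symm) x
  have hprim : eq0 (π m) - 1 ∈ (sp 3 : Ideal eis) :=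
    Pool.Agent.Y715.T.Ex.three_mem.2 (h.pq m).three
  have hS : cc (fun k => eq0 (π k)) S = eq0 (π m) * cc (fun k => eq0 (π k)) (S.erase m) := by
    have h0 := cc_insert (π := fun k => eq0 (π k)) (Finset.notMem_erase m S)
    rw [Finset.insert_erase hm] at h0
    exact h0
  have h1 := tot_gen (i := i) gfN hC (hfy.cc_ne (S.erase m)) (hfy.ne m)
    (hfy.three_cc (S.erase m)) (hfy.three m) hprim (χ := ch π (S.erase m) a)
    (fun x y hxy => ch_per h _ a x y hxy)
  have h2 := cnt_gen fin_quot (hfy.cc_ne (S.erase m)) (hfy.ne m) (χ := ch π (S.erase m) a)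
    (fun x y hxy => ch_per h _ a x y hxy)
  simp only [hcm] at h1 h2
  rw [← h1, ← h2, ← hS]
  congr 1
  unfold T1
  rw [← Sm_mul_left, ← Sm_add, ← Sm_mul_left]
  refine Finset.sum_congr rfl fun x _ => ?_
  beta_reduce
  by_cases hx : x ∈ (sp (eq0 (π m)) : Ideal eis)
  · rw [if_pos hx]
    ring
  · rw [if_neg hx]
    have hx' : x ∉ (sp (cc (fun k => eq0 (π k)) S) : Ideal eis) := fun h3 => hx (cc_mem hm h3)
    rw [PT_not gfN hC hg0 (hfy.cc_ne S) (hfy.three_cc S) hx']
    ring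

/-- the sums over the smaller set -/
lemma U_eq (S : Finset J) (hS : S.Nonempty) (a : J → ZMod 3)
    [Fintype (eis ⧸ (sp fT : Ideal eis))] :
    Sm (cc (fun k => eq0 (π k)) S) (fun x => ch π S a x *
      PT L Ω i (cc (fun k => eq0 (π k)) S) x) =
      3 * g0N L Ω i * (TS L Ω i π S a + 2 * Sm (cc (fun k => eq0 (π k)) S) (ch π S a)) := by
  have hfy := fy (v := v) hv h
  have hg0 := g0_ne' (i := i) hv hκ hC
  unfold TS
  rw [← Sm_mul_left, ← Sm_add, ← Sm_mul_left]
  refine Finset.sum_congr rfl fun x _ => ?_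
  beta_reduce
  by_cases hx : IsCoprime x (cc (fun k => eq0 (π k)) S)
  · rw [PT_not gfN hC hg0 (hfy.cc_ne S) (hfy.three_cc S) (notMem_of_cop (hfy.cc_top hS) hx)]
    ring
  · rw [ch_zero hv h hx]
    ring

/-- the first property -/
theorem p1 (S : Finset J) (m : J) (hm : m ∈ S) (a : J → ZMod 3) :
    ∑ b : ZMod 3, WW v L Ω i π κ S (Function.update a m b) =
      WW v L Ω i π κ (S.erase m) a -
        WW v L Ω i π κ (S.erase m) (fun k => a k - cs (π k) (π m)) := by
  have : Fintype (eis ⧸ (sp fT : Ideal eis)) := @Fintype.ofFinite _ (fin_quot _ Pool.Agent.D0H43.L3.Gf.fT_ne)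
  have hfy := fy (v := v) hv h
  have hg0 := g0_ne' (i := i) hv hκ hC
  have hκ0 := kap_ne hv hκ
  obtain ⟨hT, hsum⟩ := sum_T1 (i := i) hv hκ hC h S hm a
  have hrel := rel_T1 (i := i) hv hκ hC h S hm a
  obtain ⟨a0, a1, a2, a3, a4⟩ := alp (i := i) hv hκ hC h m
  rw [hsum]
  set N : ℂ := (Nat.card (eis ⧸ (sp (eq0 (π m)) : Ideal eis)) : ℂ) with hN
  set α : ℂ := (eq0 (π m) : ℂ) / cN i (eq0 (π m)) with hα
  have hA : (eq0 (π m) : ℂ) = α * cN i (eq0 (π m)) := by
    rw [hα]
    field_simp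
  have hα1 : v α ≤ 1 := (rs_congr (v := v) (x := α) (y := 1) (by rw [map_one]) a2).1
  have hαr : rs v α = 1 := by
    rw [(rs_congr (v := v) (x := α) (y := 1) (by rw [map_one]) a2).2, rs_one]
  rcases (S.erase m).eq_empty_or_nonempty with hE | hE
  · -- the first prime
    rw [hE] at hrel ⊢
    have hcc : cc (fun k => eq0 (π k)) (∅ : Finset J) = 1 := Finset.prod_empty
    have htop : ∀ x : eis, x ∈ (sp (1 : eis) : Ideal eis) := fun x => by
      rw [sp_one_eq]
      exact Submodule.mem_top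
    have hch : ∀ (b : J → ZMod 3) (x : eis), ch π ∅ b x = 1 := fun b x => Finset.prod_empty
    have s1 : ∀ b : J → ZMod 3, Sm (1 : eis) (ch π ∅ b) = 1 := fun b => by
      rw [Sm_one fin_quot _ (fun x y => by rw [hch, hch]), hch]
    have s2 : ∀ b : J → ZMod 3, Sm (1 : eis) (fun x => ch π ∅ b x * PT L Ω i 1 x) =
        6 * kN L Ω i := fun b => by
      rw [Sm_one fin_quot _ (fun x y => by
        rw [hch, hch, PT_mem (htop x), PT_mem (htop y)]), hch, PT_mem (htop 0), one_mul]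
    rw [hcc, s1, s1, s2, s2, hA] at hrel
    have e1 : T1 L Ω i π S a m / κ = 2 * (kN L Ω i / g0N L Ω i / κ) * (α - 1) -
        2 * ((N - 1) / κ) := by
      have h1 : 3 * g0N L Ω i * (T1 L Ω i π S a m + 2 * (N * 1 - 1)) =
          6 * kN L Ω i * (α - 1) := by
        apply mul_left_cancel₀ a0
        rw [hrel]
        ring
      field_simp
      linear_combination (1 / 3 : ℂ) * h1
    have hk := (k_int (i := i) hv hκ hC).1
    have h0 : v (T1 L Ω i π S a m / κ) < 1 := by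
      rw [e1]
      refine v.map_sub_lt ?_ ?_
      · rw [map_mul, map_mul, v_two hv, one_mul, mul_comm]
        exact mul_lt_one_of_lt_of_le a2 hk
      · rw [map_mul, v_two hv, one_mul]
        refine div_kap_lt hv hκ (a4.trans ?_)
        rw [← sq_three]
        exact mul_le_of_le_one_right zero_le (lam_lt hv).le
    rw [rs_eq_zero h0]
    unfold WW
    rw [if_pos rfl, if_pos rfl, sub_zero]
  · -- the general case
    obtain ⟨t2, -⟩ := WW_eq (i := i) hv hκ hC h (S.erase m) hE a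
    obtain ⟨t3, -⟩ := WW_eq (i := i) hv hκ hC h (S.erase m) hE (fun k => a k - cs (π k) (π m))
    rw [U_eq hv hκ hC h _ hE, U_eq hv hκ hC h _ hE, hA] at hrel
    have hn2 : v (Sm (cc (fun k => eq0 (π k)) (S.erase m)) (ch π (S.erase m) a)) ≤ 1 := by
      unfold Sm
      refine v.map_sum_le fun x _ => ?_
      rcases ch_or (π := π) (S.erase m) a x with h1 | h1
      · rw [h1, map_zero]
        exact zero_le_one
      · rw [h1, map_one]
    set T2 := TS L Ω i π (S.erase m) a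
    set T3 := TS L Ω i π (S.erase m) (fun k => a k - cs (π k) (π m))
    set n2 := Sm (cc (fun k => eq0 (π k)) (S.erase m)) (ch π (S.erase m) a)
    set n3 := Sm (cc (fun k => eq0 (π k)) (S.erase m)) (ch π (S.erase m)
      (fun k => a k - cs (π k) (π m)))
    have e1 : T1 L Ω i π S a m / κ = α * (T2 / κ) - T3 / κ + 2 * n2 * ((α - N) / κ) := by
      have h1 : T1 L Ω i π S a m + 2 * (N * n2 - n3) = α * (T2 + 2 * n2) - (T3 + 2 * n3) := by
        apply mul_left_cancel₀ (mul_ne_zero a0 (mul_ne_zero three_ne_zero hg0))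
        linear_combination hrel
      field_simp
      linear_combination h1
    have h4 : v (2 * n2 * ((α - N) / κ)) < 1 := by
      rw [map_mul, map_mul, v_two hv, one_mul, mul_comm]
      exact mul_lt_one_of_lt_of_le (div_kap_lt hv hκ a3) hn2
    have h5 : v (α * (T2 / κ)) ≤ 1 := by
      rw [map_mul]
      exact mul_le_one' hα1 t2
    have h6 : v (α * (T2 / κ) - T3 / κ) ≤ 1 := v.map_sub_le h5 t3
    rw [e1, rs_add h6 h4.le, rs_eq_zero h4, add_zero, rs_sub h5 t3, rs_mul hα1 t2, hαr, one_mul]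
    unfold WW
    rw [if_neg hE.ne_empty, if_neg hE.ne_empty]

end

end Pool.Agent.D0H43.L9
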