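import Pool.Agent.D0H43.L9.Mo4
import Pool.Agent.D0H43.L9.StmA
import Pool.Agent.D0H15.L9.Mom

/-!
# Project L9: the central sums modulo the maximal ideal above three
-/

set_option autoImplicit false
set_option linter.unusedVariables false
set_option linter.unusedSectionVars false

open Filter
open scoped Classical Topology PeriodPair

namespace Pool.Agent.D0H43.L9

open Pool.Agent.Y692.QS (Ei w nr toC)
open Pool.Agent.Y703.CT (Dt Xc fy fin_quot Xc_of mem_iff eq0_ne ex_ne)
open Pool.Agent.Y703.CT.Ana (ej ej_prim PX PX_zero PX_le sum_PX)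
open Pool.Agent.W192.HK (sp)
open H667R3
open Pool.Agent.TH936.CM
open Pool.Agent.TH936.PU hiding v_int
open Pool.Agent.Y715.Dist Pool.Agent.Y715.Idn
open Pool.Agent.Y696 (Cur eis om omr omr_unit)
open Pool.Agent.Y715.T.Rs (eq0)
open Pool.Agent.Y715.T.Rec (cs)
open Pool.Agent.Y715.T.Three
open Pool.Agent.Y715.T.Cg (Cg Zt zt_of_prim z_pow)
open Pool.Agent.N883.FF (nq)
open Pool.Agent.D0H43.L3 (fT dT w_three)
open Pool.Agent.Y715.T.Lat (la notMem_of_cop)
open Alg

variable {Γ : Type} [LinearOrderedCommGroupWithZero Γ] {v : Valuation ℂ Γ}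
  {L : PeriodPair} {Ω : ℂ} {i : ZMod 3} {J : Type} [Fintype J] {π : J → Ei} {e : J → ZMod 3}
  {κ : ℂ}

/-- the box expansion of a product -/
lemma prod_box {F : Type*} [CommSemiring F] (S : Finset J) (f : J → ZMod 3 → F) :
    ∏ k ∈ S, ∑ b : ZMod 3, f k b = ∑ a ∈ box S, ∏ k ∈ S, f k (a k) := by
  have h1 : ∏ k ∈ S, ∑ b : ZMod 3, f k b = ∏ k : J, ∑ b ∈ (if k ∈ S then Finset.univ else {0} :
      Finset (ZMod 3)), (if k ∈ S then f k b else 1) := by
    rw [← Finset.prod_filter_mul_prod_filter_not Finset.univ (fun k => k ∈ S)]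
    have h2 : ∏ x ∈ Finset.univ.filter (fun k => ¬ k ∈ S), ∑ b ∈ (if x ∈ S then Finset.univ else {0} :
        Finset (ZMod 3)), (if x ∈ S then f x b else 1) = 1 := by
      refine Finset.prod_eq_one fun k hk => ?_
      rw [Finset.mem_filter] at hk
      rw [if_neg hk.2, Finset.sum_singleton, if_neg hk.2]
    rw [h2, mul_one]
    have h3 : Finset.univ.filter (fun k => k ∈ S) = S := by ext; simp
    rw [h3]
    refine Finset.prod_congr rfl fun k hk => ?_
    simp only [if_pos hk]
  rw [h1, Finset.prod_univ_sum]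
  unfold box
  refine Finset.sum_congr (by congr! 1) fun a _ => ?_
  rw [Finset.prod_ite_mem, Finset.univ_inter]

section

variable (hv : v 3 < 1) (hκ : κ ^ 3 = 1 - toC w) (hC : Cur L Ω) (h : Dt π e)

lemma PX_box (h : Dt π e) (S : Finset J) (x : eis) :
    PX (fun k => eq0 (π k)) (Xc π e) S x =
      ∑ a ∈ box S, (∏ k ∈ S, (1 - toC w ^ (-(e k * a k)).val)) * ch π S a x := by
  have h1 : ∀ k ∈ S, ind (eq0 (π k)) x - Xc π e k x =
      ∑ b : ZMod 3, (1 - toC w ^ (-(e k * b)).val) * de π k b x := by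
    intro k _
    by_cases hx : π k ∣ eq0.symm x
    · rw [ind_mem ((mem_iff _ _).2 hx), Pool.Agent.Y703.CT.Xc_zero hx, sub_zero]
      symm
      refine Finset.sum_eq_zero fun b _ => ?_
      unfold de
      rw [if_neg (by tauto), mul_zero]
    · rw [ind_notMem (fun h => hx ((mem_iff _ _).1 h)), Xc_of hx,
        Finset.sum_eq_single (cs (π k) (eq0.symm x))]
      · unfold de
        rw [if_pos ⟨hx, rfl⟩, mul_one]
      · intro b _ hb
        unfold de
        rw [if_neg (fun h => hb h.2.symm), mul_zero]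
      · intro h1
        exact absurd (Finset.mem_univ _) h1
  unfold PX
  rw [Finset.prod_congr rfl h1, prod_box]
  refine Finset.sum_congr rfl fun a _ => ?_
  rw [Finset.prod_mul_distrib]
  rfl

include hv hκ hC h

/-- the moment, in the residue field -/
theorem moment (S : Finset J) (hS : S.Nonempty) :
    v (Sm (cc (fun k => eq0 (π k)) S) (fun x => PX (fun k => eq0 (π k)) (Xc π e) S x *
      (tauN L Ω i (cc (fun k => eq0 (π k)) S) x / κ)) / (1 - toC w) ^ S.card) ≤ 1 ∧
    rs v (Sm (cc (fun k => eq0 (π k)) S) (fun x => PX (fun k => eq0 (π k)) (Xc π e) S x *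
      (tauN L Ω i (cc (fun k => eq0 (π k)) S) x / κ)) / (1 - toC w) ^ S.card) =
      io hv (∏ k ∈ S, -e k) * ((-1) ^ S.card *
        io hv (phi (fun j k => cs (π j) (π k)) (fun k => nq (π k)) S)) := by
  have hz := zt_w hv
  have hz1 := hz.ne
  have e1 : Sm (cc (fun k => eq0 (π k)) S) (fun x => PX (fun k => eq0 (π k)) (Xc π e) S x *
      (tauN L Ω i (cc (fun k => eq0 (π k)) S) x / κ)) / (1 - toC w) ^ S.card =
      ∑ a ∈ box S, (∏ k ∈ S, ((1 - toC w ^ (-(e k * a k)).val) / (1 - toC w))) *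
        (TS L Ω i π S a / κ) := by
    have h1 : Sm (cc (fun k => eq0 (π k)) S) (fun x => PX (fun k => eq0 (π k)) (Xc π e) S x *
      (tauN L Ω i (cc (fun k => eq0 (π k)) S) x / κ)) =
      ∑ a ∈ box S, (∏ k ∈ S, (1 - toC w ^ (-(e k * a k)).val)) * (TS L Ω i π S a / κ) := by
      unfold TS Sm
      simp only [Finset.sum_div, Finset.mul_sum]
      rw [Finset.sum_comm]
      refine Finset.sum_congr rfl fun x _ => ?_
      rw [PX_box h, Finset.sum_mul]
      refine Finset.sum_congr rfl fun a _ => ?_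
      ring
    rw [h1, Finset.sum_div]
    refine Finset.sum_congr rfl fun a _ => ?_
    rw [Finset.prod_div_distrib, Finset.prod_const]
    ring
  have hcg : ∀ (a : J → ZMod 3) (k : J), Cg v ((1 - toC w ^ (-(e k * a k)).val) / (1 - toC w))
      (-(e k * a k)) := by
    intro a k
    have := Zt.quot hv hz (-(e k * a k)).val
    rwa [ZMod.natCast_zmod_val] at this
  have hp : ∀ a : J → ZMod 3,
      v (∏ k ∈ S, ((1 - toC w ^ (-(e k * a k)).val) / (1 - toC w))) ≤ 1 := fun a =>
    prod_le S fun k _ => (hcg a k).le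
  have hTS : ∀ a : J → ZMod 3, v (TS L Ω i π S a / κ) ≤ 1 := fun a =>
    (WW_eq (i := i) hv hκ hC h S hS a).1
  have hterm : ∀ a ∈ box S, v ((∏ k ∈ S, ((1 - toC w ^ (-(e k * a k)).val) / (1 - toC w))) *
        (TS L Ω i π S a / κ)) ≤ 1 := fun a _ => by
    rw [map_mul]
    exact mul_le_one' (hp a) (hTS a)
  rw [e1]
  refine ⟨v.map_sum_le hterm, ?_⟩
  rw [rs_sum _ hterm]
  have hm := Pool.Agent.D0H15.L9.mom (RF v) (io hv) J (fun j k => cs (π j) (π k))
    (fun k => nq (π k)) (WW v L Ω i π κ)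
    (fun j k hjk => Pool.Agent.Y350.CT.rec (π k) (π j) (h.pq k) (h.pq j) (h.nd k j hjk.symm))
    (fun S a b hab => WW_congr S hab)
    (fun a => if_pos rfl)
    (fun S m hm a => p1 hv hκ hC h S m hm a)
    (fun S hS a => p2 hv hκ hC h S hS a)
    (fun S hq a => p3 hv hκ hC h S hq a) S hS
  rw [← hm, Finset.mul_sum]
  refine Finset.sum_congr rfl fun a _ => ?_
  rw [rs_mul (hp a) (hTS a), rs_prod S fun k _ => (hcg a k).le,
    Finset.prod_congr rfl fun k _ => rs_cg hv (hcg a k), ← map_prod, ← mul_assoc, ← map_mul]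
  congr 1
  · rw [← Finset.prod_mul_distrib]
    congr 1
    exact Finset.prod_congr rfl fun k _ => by ring
  · unfold WW
    rw [if_neg hS.ne_empty]

end

end Pool.Agent.D0H43.L9
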