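import Pool.Agent.D0H43.L9.Rec
import Pool.Agent.D0H43.L3.Rec

/-!
# Project L9: the recursion in the residue field
-/

set_option autoImplicit false
set_option linter.unusedVariables false
set_option linter.unusedSectionVars false

open Filter
open scoped Classical Topology PeriodPair

namespace Pool.Agent.D0H43.L9

open Pool.Agent.Y692.QS (Ei w nr toC)
open Pool.Agent.Y703.CT (Dt Xc fy fin_quot Xc_of mem_iff eq0_ne ex_ne)
open Pool.Agent.Y703.CT.Ana (ej ej_prim PX PX_zero PX_le sum_PX)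
open Pool.Agent.W192.HK (sp)
open H667R3
open Pool.Agent.TH936.CM
open Pool.Agent.TH936.PU hiding v_int
open Pool.Agent.Y715.Dist Pool.Agent.Y715.Idn
open Pool.Agent.Y696 (Cur eis om omr omr_unit)
open Pool.Agent.Y715.T.Rs (eq0)
open Pool.Agent.Y715.T.Rec (cs)
open Pool.Agent.Y715.T.Three
open Pool.Agent.Y715.T.Cg (Cg Zt zt_of_prim z_pow)
open Pool.Agent.N883.FF (nq)
open Pool.Agent.D0H43.L3 (fT dT w_three)
open Pool.Agent.Y715.T.Lat (la notMem_of_cop)
open Alg

variable {Γ : Type} [LinearOrderedCommGroupWithZero Γ] {v : Valuation ℂ Γ}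
  {L : PeriodPair} {Ω : ℂ} {i : ZMod 3} {J : Type} [Fintype J] {π : J → Ei} {e : J → ZMod 3}
  {κ : ℂ}

section

variable (hv : v 3 < 1) (hC : Cur L Ω) (h : Dt π e) [Fintype (eis ⧸ (sp fT : Ideal eis))]

lemma prim_cc (h : Dt π e) (S : Finset J) :
    cc (fun k => eq0 (π k)) S - 1 ∈ (sp 3 : Ideal eis) :=
  Pool.Agent.D0H43.L3.RecAux.prim_cc h S

lemma eN_prim (j : Fin 3) {x : eis} (hx : x - 1 ∈ (sp 3 : Ideal eis)) : eN i j x = cN i x := by
  unfold eN
  rw [ej_prim j hx, one_mul]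

include hv hC h

/-- the identity -/
theorem idnN (S : Finset J) :
    cN i (cc (fun k => eq0 (π k)) S) * Sm (cc (fun k => eq0 (π k)) S)
      (fun x => PX (fun k => eq0 (π k)) (Xc π e) S x * PT L Ω i (cc (fun k => eq0 (π k)) S) x) =
      ∑ T ∈ S.powerset, (-1) ^ T.card *
        ((∏ k ∈ S \ T, ((eq0 (π k) : ℂ) - cN i (eq0 (π k)) * XT (Xc π e) T (eq0 (π k)))) *
        SQN L Ω π e i T) := by
  have hfy := fy (v := v) hv h
  obtain ⟨-, -, -, -, c_eo, -⟩ := chiN i
  obtain ⟨hl1, hl2⟩ := gfN chiN L Ω hC i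
  have hprim : ∀ k, eq0 (π k) - 1 ∈ (sp 3 : Ideal eis) := fun k =>
    Pool.Agent.Y715.T.Ex.three_mem.2 (h.pq k).three
  have hcop : ∀ k, IsCoprime fT (eq0 (π k)) := fun k => fT_cop (hfy.three k)
  have cne : ∀ x : eis, cN i x ≠ 0 := by
    intro x
    unfold cN
    refine pow_ne_zero _ ?_
    intro h0
    have h1 := Pool.Agent.Y715.T.Fin.prim_w.pow_eq_one
    rw [h0] at h1
    norm_num at h1
  have hne : ∀ (j : Fin 3) (k : J), eN i j (eq0 (π k)) ≠ 0 := fun j k => by
    rw [eN_prim j (hprim k)]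
    exact cne _
  have key : ∀ j : Fin 3, cN i (cc (fun k => eq0 (π k)) S) * Sm (cc (fun k => eq0 (π k)) S)
      (fun x => PX (fun k => eq0 (π k)) (Xc π e) S x *
      Ph L Ω fT (eN i j) (CN L Ω i j) (cc (fun k => eq0 (π k)) S) x) =
      ∑ T ∈ S.powerset, (-1) ^ T.card *
        ((∏ k ∈ S \ T, ((eq0 (π k) : ℂ) - cN i (eq0 (π k)) * XT (Xc π e) T (eq0 (π k)))) *
        (cN i (cc (fun k => eq0 (π k)) T) *
          SP L Ω fT (eN i j) (CN L Ω i j) (fun k => eq0 (π k)) (Xc π e) T)) := by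
    intro j
    have h1 := Pool.Agent.N883.FF.dist L eis Ω J (fun k => eq0 (π k)) (Xc π e) fT (eN i j)
      (CN L Ω i j) hC.lat fin_quot Pool.Agent.D0H43.L3.Gf.fT_ne hfy.toFm hcop
      (c_eo j) (hne j) (hl1 j) S
    rw [eN_prim j (prim_cc h S)] at h1
    refine h1.trans (Finset.sum_congr rfl fun T _ => ?_)
    rw [eN_prim j (prim_cc h T)]
    congr 2
    exact Finset.prod_congr rfl fun k _ => by rw [eN_prim j (hprim k)]
  have h5 : ∑ j : Fin 3, (cN i (cc (fun k => eq0 (π k)) S) * Sm (cc (fun k => eq0 (π k)) S)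
      (fun x => PX (fun k => eq0 (π k)) (Xc π e) S x *
      Ph L Ω fT (eN i j) (CN L Ω i j) (cc (fun k => eq0 (π k)) S) x)) =
      ∑ T ∈ S.powerset, (-1) ^ T.card *
        ((∏ k ∈ S \ T, ((eq0 (π k) : ℂ) - cN i (eq0 (π k)) * XT (Xc π e) T (eq0 (π k)))) *
          SQN L Ω π e i T) := by
    rw [Finset.sum_congr rfl fun j _ => key j, Finset.sum_comm]
    refine Finset.sum_congr rfl fun T _ => ?_
    unfold SQN
    rw [← Finset.mul_sum, ← Finset.mul_sum, ← Finset.mul_sum]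
  rw [← h5, ← Finset.mul_sum]
  congr 1
  unfold Sm PT
  rw [Finset.sum_comm]
  exact Finset.sum_congr rfl fun x _ => Finset.mul_sum _ _ _

variable (hκ : κ ^ 3 = 1 - toC w)

include hκ

/-- the left side -/
lemma lhs_rs (S : Finset J) (hS : S.Nonempty) :
    v (cN i (cc (fun k => eq0 (π k)) S) * Sm (cc (fun k => eq0 (π k)) S)
      (fun x => PX (fun k => eq0 (π k)) (Xc π e) S x * PT L Ω i (cc (fun k => eq0 (π k)) S) x) /
      (6 * κ * g0N L Ω i * (1 - toC w) ^ S.card)) ≤ 1 ∧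
    rs v (cN i (cc (fun k => eq0 (π k)) S) * Sm (cc (fun k => eq0 (π k)) S)
      (fun x => PX (fun k => eq0 (π k)) (Xc π e) S x * PT L Ω i (cc (fun k => eq0 (π k)) S) x) /
      (6 * κ * g0N L Ω i * (1 - toC w) ^ S.card)) =
      -(io hv (∏ k ∈ S, -e k) * ((-1) ^ S.card *
        io hv (phi (fun j k => cs (π j) (π k)) (fun k => nq (π k)) S))) := by
  have hfy := fy (v := v) hv h
  have hz := zt_w hv
  have hz1 := hz.ne
  have hg0 := g0_ne' (i := i) hv hκ hC
  have hκ0 := kap_ne hv hκ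
  obtain ⟨-, -, -, c_cube, -, -⟩ := chiN i
  obtain ⟨m1, m2⟩ := moment (i := i) hv hκ hC h S hS
  set c := cc (fun k => eq0 (π k)) S with hc
  set A := Sm c (fun x => PX (fun k => eq0 (π k)) (Xc π e) S x * (tauN L Ω i c x / κ)) /
    (1 - toC w) ^ S.card with hA
  set B := Sm c (fun x => PX (fun k => eq0 (π k)) (Xc π e) S x) / (1 - toC w) ^ S.card with hB
  have e1 : cN i c * Sm c (fun x => PX (fun k => eq0 (π k)) (Xc π e) S x * PT L Ω i c x) /
      (6 * κ * g0N L Ω i * (1 - toC w) ^ S.card) = cN i c * (2⁻¹ * A + B / κ) := by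
    have h1 : Sm c (fun x => PX (fun k => eq0 (π k)) (Xc π e) S x * PT L Ω i c x) =
        3 * g0N L Ω i * (κ * Sm c (fun x => PX (fun k => eq0 (π k)) (Xc π e) S x *
          (tauN L Ω i c x / κ)) + 2 * Sm c (fun x => PX (fun k => eq0 (π k)) (Xc π e) S x)) := by
      rw [← Sm_mul_left, ← Sm_mul_left, ← Sm_add, ← Sm_mul_left]
      refine Finset.sum_congr rfl fun x _ => ?_
      beta_reduce
      by_cases hx : IsCoprime x c
      · rw [PT_not gfN hC hg0 (hfy.cc_ne S) (hfy.three_cc S) (notMem_of_cop (hfy.cc_top hS) hx)]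
        rw [← hc]
        field_simp
        try ring
      · rw [PX_zero hfy hx]
        ring
    rw [h1, hA, hB]
    field_simp
    ring
  have hzp : 0 < v (1 - toC w) := by
    rw [v_one_sub_w hv]
    exact lam_pos
  have hBs : v B ≤ v lam := by
    have hsP := sum_PX fin_quot hfy S
    rw [hB]
    rw [hsP, map_div₀, map_prod, map_pow, div_le_iff₀ (pow_pos hzp _)]
    have h4 : ∏ k ∈ S, v ((Nat.card (eis ⧸ (sp (eq0 (π k)) : Ideal eis)) : ℂ) - 1) ≤
        (v 3) ^ S.card := Finset.prod_le_pow_card _ _ _ fun k _ => hfy.card k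
    refine h4.trans ?_
    rw [v_one_sub_w hv, ← sq_three, mul_pow]
    refine mul_le_mul' ?_ le_rfl
    obtain ⟨n, hn⟩ : ∃ n, S.card = n + 1 := ⟨S.card - 1, by
      have := hS.card_pos
      omega⟩
    rw [hn, pow_succ]
    exact mul_le_of_le_one_left zero_le (pow_le_one' (lam_lt hv).le n)
  have hBκ := div_kap_lt hv hκ hBs
  have hc1 : v (cN i c) = 1 := z_pow (k := 3) (by norm_num) (c_cube _)
  have hcr : rs v (cN i c) = 1 := by
    have h1 : v (cN i c - 1) < 1 := by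
      unfold cN
      exact hz.pow _
    rw [(rs_congr (by rw [map_one]) h1).2, rs_one]
  have h2v : v ((2 : ℂ)⁻¹) = 1 := by rw [map_inv₀, v_two hv, inv_one]
  have h2r : rs v ((2 : ℂ)⁻¹) = -1 := by
    have h1 := rs_mul (v := v) (x := 2⁻¹) (y := 2) h2v.le (v_two hv).le
    rw [inv_mul_cancel₀ two_ne_zero, rs_one] at h1
    have h2 : rs v (2 : ℂ) = 2 := by
      have := rs_natCast (v := v) 2
      have e2 : ((2 : ℕ) : ℂ) = 2 := by norm_num
      have e3 : ((2 : ℕ) : RF v) = 2 := by norm_num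
      rwa [e2, e3] at this
    rw [h2] at h1
    have h3 := three_zero hv
    linear_combination rs v ((2 : ℂ)⁻¹) * h3 + h1
  have hA2 : v (2⁻¹ * A) ≤ 1 := by
    rw [map_mul, h2v, one_mul]
    exact m1
  rw [e1]
  refine ⟨?_, ?_⟩
  · rw [map_mul, hc1, one_mul]
    exact v.map_add_le hA2 hBκ.le
  · rw [rs_mul hc1.le (v.map_add_le hA2 hBκ.le), hcr, one_mul, rs_add hA2 hBκ.le,
      rs_eq_zero hBκ, add_zero, rs_mul h2v.le m1, h2r, m2]
    ring

/-- **The recursion.** -/
theorem recN : (∀ T : Finset J, v (SQN L Ω π e i T /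
      (6 * κ * g0N L Ω i * (1 - toC w) ^ T.card)) ≤ 1) ∧
    rs v (SQN L Ω π e i ∅ / (6 * κ * g0N L Ω i * (1 - toC w) ^ (∅ : Finset J).card)) = io hv i ∧
    ∀ S : Finset J, S.Nonempty → ∑ T ∈ S.powerset, (-1) ^ T.card *
      (rs v (SQN L Ω π e i T / (6 * κ * g0N L Ω i * (1 - toC w) ^ T.card)) *
        ∏ k ∈ S \ T, io hv (qN i (π k) + ∑ l ∈ T, -(e l * cs (π l) (π k)))) =
      -(io hv (∏ k ∈ S, -e k) * ((-1) ^ S.card *
        io hv (phi (fun j k => cs (π j) (π k)) (fun k => nq (π k)) S))) := by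
  have hfy := fy (v := v) hv h
  have hz := zt_w hv
  have hz1 := hz.ne
  have hg0 := g0_ne' (i := i) hv hκ hC
  have hκ0 := kap_ne hv hκ
  have hzp : 0 < v (1 - toC w) := by
    rw [v_one_sub_w hv]
    exact lam_pos
  set z : ℂ := toC w with hzd
  set M : ℂ := 6 * κ * g0N L Ω i with hM
  have hM0 : M ≠ 0 := mul_ne_zero (mul_ne_zero (by norm_num) hκ0) hg0
  obtain ⟨-, -, c_u, c_cube, -, -⟩ := chiN i
  have h0 : SQN L Ω π e i ∅ / (M * (1 - z) ^ (∅ : Finset J).card) =
      kN L Ω i / g0N L Ω i / κ := by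
    have h1 : SQN L Ω π e i ∅ = 6 * kN L Ω i := by
      unfold SQN
      rw [Finset.sum_congr rfl fun j _ => SP_empty fin_quot, sum_CN]
      have h2 : cc (fun k => eq0 (π k)) (∅ : Finset J) = 1 := Finset.prod_empty
      rw [h2, c_u 1 isUnit_one, one_mul]
    rw [h1, Finset.card_empty, pow_zero, mul_one, hM]
    field_simp
  obtain ⟨k1, k2⟩ := k_int (i := i) hv hκ hC
  -- the factors
  have fac : ∀ (T : Finset J) (k : J), k ∉ T →
      Cg v (((eq0 (π k) : ℂ) - cN i (eq0 (π k)) * XT (Xc π e) T (eq0 (π k))) / (1 - z))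
        (qN i (π k) + ∑ l ∈ T, -(e l * cs (π l) (π k))) := by
    intro T k hk
    have h7 : ∀ l ∈ T, Xc π e l (eq0 (π k)) = z ^ (-(e l * cs (π l) (π k))).val := by
      intro l hl
      have hkl : k ≠ l := fun hkl => hk (hkl ▸ hl)
      have h1 : ¬ π l ∣ eq0.symm (eq0 (π k)) := by
        rw [RingEquiv.symm_apply_apply]
        exact h.nd k l hkl
      rw [Xc_of h1, RingEquiv.symm_apply_apply]
    have h8 : XT (Xc π e) T (eq0 (π k)) = z ^ (∑ l ∈ T, (-(e l * cs (π l) (π k))).val) := by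
      unfold XT
      rw [← Finset.prod_pow_eq_pow_sum]
      exact Finset.prod_congr rfl fun l hl => h7 l hl
    have h8' : cN i (eq0 (π k)) = z ^ (qN i (π k)).val := by
      unfold cN
      rw [RingEquiv.symm_apply_apply]
    have h9 : ((eq0 (π k) : ℂ) - cN i (eq0 (π k)) * XT (Xc π e) T (eq0 (π k))) / (1 - z) =
        ((eq0 (π k) : ℂ) - 1) / (1 - z) +
          (1 - z ^ ((qN i (π k)).val + ∑ l ∈ T, (-(e l * cs (π l) (π k))).val)) /
            (1 - z) := by
      rw [h8, h8', pow_add]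
      ring
    rw [h9]
    have h10 : (qN i (π k) + ∑ l ∈ T, -(e l * cs (π l) (π k))) =
        0 + (((qN i (π k)).val + ∑ l ∈ T, (-(e l * cs (π l) (π k))).val : ℕ) : ZMod 3) := by
      rw [zero_add]
      push_cast
      rw [ZMod.natCast_zmod_val]
      congr 1
      exact Finset.sum_congr rfl fun l _ => (ZMod.natCast_zmod_val _).symm
    rw [h10]
    refine (Cg.zero ?_).add hv (Zt.quot hv hz _)
    rw [map_div₀, div_lt_one₀ hzp]
    exact (hfy.lin k).trans_lt hz.three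
  -- the decomposition
  have dec : ∀ S T : Finset J, T ⊆ S →
      (∏ k ∈ S \ T, ((eq0 (π k) : ℂ) - cN i (eq0 (π k)) * XT (Xc π e) T (eq0 (π k)))) *
        SQN L Ω π e i T / (M * (1 - z) ^ S.card) =
      SQN L Ω π e i T / (M * (1 - z) ^ T.card) *
        ∏ k ∈ S \ T, (((eq0 (π k) : ℂ) - cN i (eq0 (π k)) * XT (Xc π e) T (eq0 (π k))) /
          (1 - z)) := by
    intro S T hTS
    have h5 : (S \ T).card + T.card = S.card := by
      rw [Finset.card_sdiff_of_subset hTS]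
      have := Finset.card_le_card hTS
      omega
    rw [Finset.prod_div_distrib, Finset.prod_const, ← h5, pow_add]
    field_simp
  have hfp : ∀ S T : Finset J, v (∏ k ∈ S \ T,
      (((eq0 (π k) : ℂ) - cN i (eq0 (π k)) * XT (Xc π e) T (eq0 (π k))) / (1 - z))) ≤ 1 :=
    fun S T => prod_le _ fun k hk => (fac T k (Finset.mem_sdiff.1 hk).2).le
  have hid : ∀ S : Finset J, S.Nonempty →
      ∑ T ∈ S.powerset, (-1) ^ T.card * (SQN L Ω π e i T / (M * (1 - z) ^ T.card) *
        ∏ k ∈ S \ T, (((eq0 (π k) : ℂ) - cN i (eq0 (π k)) * XT (Xc π e) T (eq0 (π k))) /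
          (1 - z))) = cN i (cc (fun k => eq0 (π k)) S) * Sm (cc (fun k => eq0 (π k)) S)
      (fun x => PX (fun k => eq0 (π k)) (Xc π e) S x * PT L Ω i (cc (fun k => eq0 (π k)) S) x) /
      (M * (1 - z) ^ S.card) := by
    intro S hS
    rw [idnN hv hC h S, Finset.sum_div]
    refine Finset.sum_congr rfl fun T hT => ?_
    rw [← dec S T (Finset.mem_powerset.1 hT)]
    ring
  have hint : ∀ T : Finset J, v (SQN L Ω π e i T / (M * (1 - z) ^ T.card)) ≤ 1 := by
    intro S
    induction S using Finset.strongInduction with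
    | H S ih =>
    rcases S.eq_empty_or_nonempty with rfl | hS
    · rw [h0]
      exact k1
    · have h1 := hid S hS
      have hSmem : S ∈ S.powerset := Finset.mem_powerset_self S
      rw [← Finset.add_sum_erase _ _ hSmem, Finset.sdiff_self, Finset.prod_empty, mul_one] at h1
      have h2 : v ((-1) ^ S.card * (SQN L Ω π e i S / (M * (1 - z) ^ S.card))) ≤ 1 := by
        rw [eq_sub_of_add_eq h1]
        refine v.map_sub_le (lhs_rs hv hC h hκ S hS).1 (v.map_sum_le fun T hT => ?_)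
        rw [Finset.mem_erase, Finset.mem_powerset] at hT
        rw [map_mul, map_pow, v.map_neg, map_one, one_pow, one_mul, map_mul]
        exact mul_le_one' (ih T (Finset.ssubset_iff_subset_ne.2 ⟨hT.2, hT.1⟩)) (hfp S T)
      rwa [map_mul, map_pow, v.map_neg, map_one, one_pow, one_mul] at h2
  refine ⟨hint, ?_, fun S hS => ?_⟩
  · rw [h0]
    exact k2
  · rw [← (lhs_rs (i := i) hv hC h hκ S hS).2, ← hid S hS]
    have hterm : ∀ T ∈ S.powerset, v ((-1) ^ T.card * (SQN L Ω π e i T / (M * (1 - z) ^ T.card) *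
        ∏ k ∈ S \ T, (((eq0 (π k) : ℂ) - cN i (eq0 (π k)) * XT (Xc π e) T (eq0 (π k))) /
          (1 - z)))) ≤ 1 := by
      intro T _
      rw [map_mul, map_pow, v.map_neg, map_one, one_pow, one_mul, map_mul]
      exact mul_le_one' (hint T) (hfp S T)
    rw [rs_sum _ hterm]
    refine Finset.sum_congr rfl fun T _ => ?_
    have hm1 : v (-1 : ℂ) ≤ 1 := by rw [v.map_neg, map_one]
    have h3 : rs v ((-1 : ℂ) ^ T.card) = (-1) ^ T.card := by
      rw [rs_pow hm1, rs_neg (by rw [map_one]), rs_one]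
    have h4 : v (SQN L Ω π e i T / (M * (1 - z) ^ T.card) *
        ∏ k ∈ S \ T, (((eq0 (π k) : ℂ) - cN i (eq0 (π k)) * XT (Xc π e) T (eq0 (π k))) /
          (1 - z))) ≤ 1 := by
      rw [map_mul]
      exact mul_le_one' (hint T) (hfp S T)
    rw [rs_mul (by rw [map_pow]; exact pow_le_one' hm1 _) h4, h3, rs_mul (hint T) (hfp S T),
      rs_prod _ fun k hk => (fac T k (Finset.mem_sdiff.1 hk).2).le]
    congr 2
    refine Finset.prod_congr rfl fun k hk => ?_
    rw [rs_cg hv (fac T k (Finset.mem_sdiff.1 hk).2)]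

end

end Pool.Agent.D0H43.L9
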