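import Pool.Agent.N883.FF.StmS
import Pool.Agent.D0H43.L9.Defs
import Pool.Agent.Y703.CT.StmF
import Pool.Agent.Y696.CTK.LK

/-!
# Project L9: statements of the descent, of its converse, and of the `L`-function over `K`

Local condition at three. Put `D' = √-3 ω ^ k (1 + 3 r)` (`9 = (√-3) ^ 4`, `lam = 1 + 2 ω = √-3`),
`u = 1 + D' - D' ^ 2 + 2 D' ^ 3 - ...` (the root of `u ^ 2 = u + D'` that is `1` modulo `lam`; the
point `(u, u)` is on `y ^ 2 + D' y = x ^ 3`). The local image at three is the group generated by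
`D'` and `u`, `u = ω ^ 2 (1 + 3 k)` modulo `lam ^ 3`. If `Y ^ 2 + D' Y = X ^ 3` in `K_3` then: `Y` is a
cube times a unit `1` modulo `lam ^ 4` or times `D' ^ n u ^ m`: for `v(Y) < 0` a cube; for `v(Y) = 0`:
`± Y = 1` modulo `lam`, `Y` and `1 + D' / Y` differ by a cube, and as both are `1` modulo `lam`
(`Y = 1` case) they agree modulo `lam ^ 4`, thus `Y = u` modulo `lam ^ 4`; the case `v(Y) >= 1`
is moved to the case `0` by `Y = D' z`, `z = D' ζ`. Only the conditions of level `< 3` are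
asked for here (`nq` is the level two part).
-/

set_option autoImplicit false
set_option linter.unusedVariables false

open scoped Classical

namespace Pool.Agent.D0H43.L9

open NumberField WeierstrassCurve
open Pool.Agent.Y692.QS (Ei w nr toC)
open Pool.Agent.Y715.T.Rec (cs)
open Pool.Agent.Y715.T.Gi Pool.Agent.Y715.T.Nr Pool.Agent.Y715.T.Df Pool.Agent.Y715.T.Ell
open Pool.Agent.Y703.CT
open Pool.Agent.Y696.CTK (ED)
open Pool.Agent.N883.FF (nq S_RAMG S_UNRG)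
open Pool.Agent.D0H43.L3 (yq tq IsHLT)

/-- L9-LOC3: the local condition at the prime above three, for `D = 9 ω ^ k (1 + 3 r)`. -/
def S_LOC3N : Prop := ∀ (i₀ : QB) (hi : i₀ ^ 2 + i₀ + 1 = 0) (k : ℕ) (r : Ei)
  (u : QB) (a : GK i₀ → ZMod 3), Tw hi (9 * (w ^ k * (1 + 3 * r))) u a →
  ∀ (h : GK i₀ → ZMod 3) (v q : Ei) (g : ℕ), IsUnit v → Kc hi (v * lam ^ g * (1 + 3 * q)) h →
  ∀ (_ : Fact (Nat.Prime 3)) (ι : QB →ₐ[ℚ] PadicAlgCl 3) (R : Pt (PadicAlgCl 3)),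
    St1 hi ι a h R → ∃ (n : ℕ) (b : ZMod 3), 3 ∣ g + 4 * n ∧
      (v * w ^ (k * n) = w ^ b.val ∨ v * w ^ (k * n) = -w ^ b.val) ∧
      nq (1 + 3 * q) + n * nq (1 + 3 * r) = k * b

/-- L9-SEL: the Selmer group. -/
def S_SELN : Prop := S_LOC3N → S_RAMG → S_UNRG →
  ∀ (J : Type) [Fintype J] (π : J → Ei) (e : J → ZMod 3) (i : ZMod 3), Dt π e →
  KerN π e i → ∀ (i₀ : QB) (hi : i₀ ^ 2 + i₀ + 1 = 0) (u : QB) (a : GK i₀ → ZMod 3),
    Tw hi (pN π e i) u a → Sel1 hi a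

/-- L9-FIN: finite group of points, trivial `3`-part of the Tate-Shafarevich group
(as `Pool.Agent.D0H43.L3.finK`). -/
def S_FINN : Prop := ∀ (K : Type) [Field K] [NumberField K] (j : Ei ≃+* 𝓞 K)
    (J : Type) [Fintype J] (π : J → Ei) (e : J → ZMod 3) (i : ZMod 3) (hD : Dt π e)
    (hk : KerN π e i), Finite (ED (j (pN π e i) : K)).toAffine.Point ∧
      padicValNat 3 (Nat.card (ED (j (pN π e i) : K)).toAffine.Point) = 1 ∧
      ∀ (n : ℕ) (x : Pool.Agent.TH841.NF.D.Sha (ED (j (pN π e i) : K))), 3 ^ n • x = 0 → x = 0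

/-! ### the converse -/

/-- L9-CUB3: local solutions at three. The condition `nq B = k b` is the one of level two, the
condition `b * nq (1 + 3 r) = qN k B` is the one of level three (in `L9-SELC` it follows from the
sum of the equations weighted by the `e j` and the symmetry of `cs`). -/
def S_CUB3N : Prop := ∀ (_ : Fact (Nat.Prime 3)) (I : PadicAlgCl 3) (hI : I ^ 2 + I + 1 = 0)
  (k b : ZMod 3) (B r : Ei), (3 : Ei) ∣ B - 1 → nq B = k * b → b * nq (1 + 3 * r) = qN k B →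
  ∃ s t r', Sol hI (w ^ b.val * B) (9 * (w ^ k.val * (1 + 3 * r))) s t r'

/-- L9-RAMC: the primes dividing `D`. -/
def S_RAMCN : Prop := ∀ (J : Type) [Fintype J] (π : J → Ei) (e : J → ZMod 3) (i : ZMod 3),
  Dt π e → ∀ (i₀ : QB) (hi : i₀ ^ 2 + i₀ + 1 = 0) (u : QB) (a : GK i₀ → ZMod 3),
  Tw hi (pN π e i) u a →
  ∀ (v : J → ZMod 3) (b : ZMod 3) (h : GK i₀ → ZMod 3),
  Kc hi (w ^ b.val * ∏ j, π j ^ (e j * v j).val) h →
  ∀ j : J, ∑ k, e k * cs (π j) (π k) * (v k - v j) + b * nq (π j) = qN i (π j) * v j →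
  ∀ (p : ℕ) [Fact p.Prime] (ι : QB →ₐ[ℚ] PadicAlgCl p), ‖ι (ev i₀ hi (π j))‖ < 1 →
    ∃ R, St1 hi ι a h R

/-- L9-SELC: a nontrivial kernel gives a nontrivial Selmer class. -/
def S_SELCN : Prop := S_FF → S_CUB → S_CUB3N → S_PT → S_RAMCN →
  ∀ (J : Type) [Fintype J] (π : J → Ei) (e : J → ZMod 3) (i : ZMod 3), Dt π e →
  ¬ KerN π e i →
  ∀ (i₀ : QB) (hi : i₀ ^ 2 + i₀ + 1 = 0) (u : QB) (a : GK i₀ → ZMod 3), Tw hi (pN π e i) u a →
  ¬ Sel1 hi a

/-! ### the `L`-function over `K` -/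

/-- L9-LK: the `L`-function of `y² + D y = x³` over `K`, `D = 3 ^ m ω ^ i ∏ π_j ^ (e j)`, `m = 1, 2`
(the case `m = 0` is `Pool.Agent.N883.FF.S_LKB`). -/
def S_LKX : Prop := ∀ (K : Type) [Field K] [NumberField K] (j : Ei ≃+* 𝓞 K)
  (J : Type) [Fintype J] (π : J → Ei) (e : J → ZMod 3) (i : ZMod 3) (m : ℕ), 1 ≤ m → m ≤ 2 →
  Dt π e → ∀ F : ℂ → ℂ, IsHLT π (fun k => -e k) (fun α => -xq m i α) F → ∀ s : ℂ, 3 / 2 < s.re →
    LSeriesSummable ((fun n : ℤ => (n : ℂ)) ∘ (ED (j (pX m π e i) : K)).LFunction) s ∧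
      F s * (starRingEnd ℂ) (F ((starRingEnd ℂ) s)) = (ED (j (pX m π e i) : K)).LSeries s

end Pool.Agent.D0H43.L9
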