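import Pool.Agent.D0H43.L9.Alg
import Pool.Agent.D0H43.L9.Cube
import Pool.Agent.N883.FF.Gf

/-!
# Project L9: the valuations above three of torsion values
-/

set_option autoImplicit false
set_option linter.unusedVariables false

open Filter
open scoped Classical Topology PeriodPair

namespace Pool.Agent.D0H43.L9

open Pool.Agent.Y692.QS (w toC)
open Pool.Agent.W192.HK (sp)
open H667R3
open Pool.Agent.TH936.CM Pool.Agent.TH936.PU
open Pool.Agent.Y715.Dist Pool.Agent.Y715.Idn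
open Pool.Agent.Y696 (Cur eis om omr omr_coe omr_unit wp_unit dwp_unit)
open Pool.Agent.Y715.T.Lat (la la_coe XX notMem_of_cop)
open Pool.Agent.Y715.T.Three
open Pool.Agent.D0H43.L3 (dT w_three)
open Alg

/-- the value at `Ω / 9 + Ω / 2` -/
noncomputable def g0N (L : PeriodPair) (Ω : ℂ) (i : ZMod 3) : ℂ := gN L Ω i (Ω / 9 + Ω / 2)

/-- the deviation -/
noncomputable def tauN (L : PeriodPair) (Ω : ℂ) (i : ZMod 3) (c x : eis) : ℂ :=
  gN L Ω i (Ω / 9 + Ω * x / c) / g0N L Ω i + gN L Ω i (Ω / 9 - Ω * x / c) / g0N L Ω i - 2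

/-- L9-VAL: the valuations at three. -/
def S_VALN : Prop := ∀ (Γ : Type) [LinearOrderedCommGroupWithZero Γ] (v : Valuation ℂ Γ),
  v 3 < 1 → ∀ (L : PeriodPair) (Ω : ℂ), Cur L Ω → ∀ i : ZMod 3,
    v (g0N L Ω i) ^ 3 = v lam ^ 7 ∧
    v ((kN L Ω i / g0N L Ω i) ^ 3 - (1 - toC w ^ i.val)) < v lam ∧
    ∀ c x : eis, c ≠ 0 → IsCoprime 3 c → (sp c : Ideal eis) ≠ ⊤ → IsCoprime x c →
      v (tauN L Ω i c x) ^ 3 ≤ v lam ∧
      v (tauN L Ω i c (omr * x) ^ 3 - tauN L Ω i c x ^ 3 - (1 - toC w)) < v lam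

namespace Val

variable {L : PeriodPair} {Ω : ℂ}

lemma toC_w : toC w = om := Pool.Agent.N883.FF.Gf.w_om

/-- the data of the point `3 Ω x / c` -/
lemma pd {Γ : Type} [LinearOrderedCommGroupWithZero Γ] {v : Valuation ℂ Γ} (h3 : v 3 < 1)
    (hC : Cur L Ω) {c x : eis} (hc : c ≠ 0) (h3c : IsCoprime 3 c)
    (hct : (sp c : Ideal eis) ≠ ⊤) (hx : IsCoprime x c) :
    3 * (Ω * x / c) ∉ L.lattice ∧ lam * (Ω / 3 + 3 * (Ω * x / c)) ∉ L.lattice ∧
    PD v (℘[L] (Ω / 3)) (℘[L] (3 * (Ω * x / c))) (℘'[L] (3 * (Ω * x / c))) := by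
  have hfin : ∀ q : eis, q ≠ 0 → Finite (eis ⧸ sp q) := fun q hq =>
    Pool.Agent.Y696.finite_q hq
  have hcx : IsCoprime (3 * x) c := h3c.mul_left hx
  have hn := notMem_of_cop hct hcx
  rw [← div_mem_iff hC.lat hc] at hn
  have e3 : ((3 : eis) : ℂ) = 3 := rfl
  have e : Ω * ((3 * x : eis) : ℂ) / c = 3 * (Ω * x / c) := by
    push_cast
    rw [e3]
    ring
  rw [e] at hn
  refine ⟨hn, (Pool.Agent.D0H43.L3.Val.Y_Q h3 hC hc h3c hct hx).1, hC.x0, hC.ode hn, ?_⟩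
  have h1 := X_le h3 (Pool.Agent.Y703.CT.Ana.dat' hC hc h3c hct hfin) ⟨3 * x, hcx⟩
  unfold XX at h1
  rw [e] at h1
  exact h1

/-- the cube, cleared of denominators -/
lemma cube_at (hC : Cur L Ω) (i : ZMod 3) {u : ℂ} (hn : 3 * u ∉ L.lattice)
    (hl : lam * (Ω / 3 + 3 * u) ∉ L.lattice) (hm : Ω / 3 - 3 * u ∉ L.lattice) :
    2 * gN L Ω i (Ω / 9 + u) ^ 3 * (℘[L] (Ω / 3) - ℘[L] (3 * u)) ^ 3 =
      27 * (dT L Ω * B (℘[L] (Ω / 3)) (toC w ^ i.val) (℘[L] (Ω / 3) - ℘[L] (3 * u)) +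
        ℘'[L] (3 * u) * C (℘[L] (Ω / 3)) (toC w ^ i.val) (℘[L] (Ω / 3) - ℘[L] (3 * u))) := by
  have hd' : ℘'[L] (Ω / 3) = -dT L Ω := by rw [dT, neg_neg]
  have hd2 : dT L Ω ^ 2 = -3 := by
    have := hC.y0
    rw [hd'] at this
    linear_combination this
  have e0 : 3 * (Ω / 9 + u) = Ω / 3 + 3 * u := by ring
  have h := cubeN hC i (z := Ω / 9 + u) (by rw [e0]; exact hl)
  rw [e0] at h
  have hp : Ω / 3 + 3 * u ∉ L.lattice := fun h => hl (Pool.Agent.D0H43.L3.Cub.lam_mem hC h)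
  obtain ⟨s1, s2, -⟩ := Pool.Agent.D0H43.L3.Cub.shift hC (T := Ω / 3) (z := 3 * u)
    (x0 := ℘[L] (Ω / 3)) (d := dT L Ω) rfl hd' hC.x0 hd2 hC.third_two hn hp hm
  have ho := hC.ode hn
  have hs := hC.x0
  set s := ℘[L] (Ω / 3)
  set d := dT L Ω
  set t := toC w ^ i.val
  set X := ℘[L] (3 * u)
  set Y := ℘'[L] (3 * u)
  set X' := ℘[L] (Ω / 3 + 3 * u)
  set Y' := ℘'[L] (Ω / 3 + 3 * u)
  unfold B C
  linear_combination (s - X) ^ 3 * h - 27 * s2 + (27 / 2) * d * t * s ^ 2 * s1 +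
    27 * (-(1 / 2) * d * t * (Y - d) ^ 2 - d * (3 + t) - 3 * Y * (1 - t)) * hs +
    (27 / 2) * d * t * ho + 27 * (-t * Y + (1 / 2) * d * t - t * s ^ 2 * X * Y +
      d * t * s ^ 2 * X) * hd2

lemma omr_cop {c x : eis} (hx : IsCoprime x c) : IsCoprime (omr * x) c := by
  obtain ⟨a, ha⟩ := omr_unit.exists_right_inv
  refine IsCoprime.mul_left ⟨a, 0, ?_⟩ hx
  rw [zero_mul, add_zero, mul_comm]
  exact ha

end Val

open Val in
/-- L9-VAL -/
theorem valN : S_VALN := by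
  intro Γ _ v h3 L Ω hC i
  have ht : (toC w ^ i.val) ^ 3 = 1 := by
    rw [← pow_mul, mul_comm, pow_mul, w_three, one_pow]
  have hd' : ℘'[L] (Ω / 3) = -dT L Ω := by rw [dT, neg_neg]
  have hd2 : dT L Ω ^ 2 = -3 := by
    have := hC.y0
    rw [hd'] at this
    linear_combination this
  have hΩ : Ω ∈ L.lattice := (hC.lat.mem Ω).2 ⟨1, by push_cast; ring⟩
  -- the point of order two
  have c2 : (2 : eis) ≠ 0 := by
    intro h
    have h1 : ((2 : eis) : ℂ) = 0 := by rw [h]; rfl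
    have h2 : ((2 : eis) : ℂ) = 2 := rfl
    rw [h2] at h1
    norm_num at h1
  have h32 : IsCoprime (3 : eis) 2 := ⟨1, -1, by norm_num⟩
  have ht2 : (sp (2 : eis) : Ideal eis) ≠ ⊤ := by
    intro h
    rw [Ideal.span_singleton_eq_top, Pool.Agent.Y696.isUnit_iff'] at h
    have h2 : ((2 : eis) : ℂ) = 2 := rfl
    rw [h2] at h
    norm_num [Complex.normSq_apply] at h
  obtain ⟨n0, l0, p0⟩ := pd h3 hC c2 h32 ht2 (isCoprime_one_left (x := (2 : eis)))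
  have e2 : Ω * ((1 : eis) : ℂ) / ((2 : eis) : ℂ) = Ω / 2 := by
    have h2 : ((2 : eis) : ℂ) = 2 := rfl
    rw [h2, OneMemClass.coe_one, mul_one]
  rw [e2] at n0 l0 p0
  have y0 : ℘'[L] (3 * (Ω / 2)) = 0 := by
    apply Pool.Agent.Y703.CT.Ana.dwp_two
    have e : 2 * (3 * (Ω / 2)) = Ω + (Ω + Ω) := by ring
    rw [e]
    exact add_mem hΩ (add_mem hΩ hΩ)
  rw [y0] at p0
  have m0 : Ω / 3 - 3 * (Ω / 2) ∉ L.lattice := by
    intro h
    apply l0
    have e : lam * (Ω / 3 + 3 * (Ω / 2)) =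
        lam * (Ω / 3 - 3 * (Ω / 2)) + lam * (Ω + (Ω + Ω)) := by ring
    rw [e]
    exact add_mem (Pool.Agent.D0H43.L3.Cub.lam_mem hC h)
      (Pool.Agent.D0H43.L3.Cub.lam_mem hC (add_mem hΩ (add_mem hΩ hΩ)))
  have hg0 : 2 * g0N L Ω i ^ 3 * (℘[L] (Ω / 3) - ℘[L] (3 * (Ω / 2))) ^ 3 =
      27 * (dT L Ω * B (℘[L] (Ω / 3)) (toC w ^ i.val) (℘[L] (Ω / 3) - ℘[L] (3 * (Ω / 2)))) := by
    have h := cube_at hC i n0 l0 m0
    rw [y0, zero_mul, add_zero] at h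
    exact h
  refine ⟨g0_val h3 ht hd2 p0 hg0, k_near h3 ht hd2 p0 hg0 ?_, fun c x hc h3c hct hx => ?_⟩
  · -- the value at `Ω / 9`
    have e0 : 3 * (Ω / 9) = Ω / 3 := by ring
    have h := cubeN hC i (z := Ω / 9) (by
      rw [e0]
      exact Pool.Agent.D0H43.L3.Val.lam_third hC)
    rw [e0, hd'] at h
    unfold kN
    have hs := hC.x0
    linear_combination h + 54 * dT L Ω * toC w ^ i.val * hs
  · -- the general point
    have key : ∀ x : eis, IsCoprime x c → ∃ X Y : ℂ, X = ℘[L] (3 * (Ω * x / c)) ∧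
        Y = ℘'[L] (3 * (Ω * x / c)) ∧ PD v (℘[L] (Ω / 3)) X Y ∧
        2 * gN L Ω i (Ω / 9 + Ω * x / c) ^ 3 * (℘[L] (Ω / 3) - X) ^ 3 =
          27 * (dT L Ω * B (℘[L] (Ω / 3)) (toC w ^ i.val) (℘[L] (Ω / 3) - X) +
            Y * C (℘[L] (Ω / 3)) (toC w ^ i.val) (℘[L] (Ω / 3) - X)) ∧
        2 * gN L Ω i (Ω / 9 - Ω * x / c) ^ 3 * (℘[L] (Ω / 3) - X) ^ 3 =
          27 * (dT L Ω * B (℘[L] (Ω / 3)) (toC w ^ i.val) (℘[L] (Ω / 3) - X) -
            Y * C (℘[L] (Ω / 3)) (toC w ^ i.val) (℘[L] (Ω / 3) - X)) := by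
      intro x hx
      obtain ⟨n1, l1, p1⟩ := pd h3 hC hc h3c hct hx
      obtain ⟨n2, l2, -⟩ := pd h3 hC hc h3c hct hx.neg_left
      have e : 3 * (Ω * ((-x : eis) : ℂ) / c) = -(3 * (Ω * x / c)) := by
        push_cast
        ring
      rw [e] at n2 l2
      have q1 : Ω / 3 - 3 * (Ω * x / c) ∉ L.lattice := fun h => l2 (by
        have e' : Ω / 3 + -(3 * (Ω * x / c)) = Ω / 3 - 3 * (Ω * x / c) := by ring
        rw [e']
        exact Pool.Agent.D0H43.L3.Cub.lam_mem hC h)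
      have q2 : Ω / 3 - -(3 * (Ω * x / c)) ∉ L.lattice := fun h => l1 (by
        have e' : Ω / 3 + 3 * (Ω * x / c) = Ω / 3 - -(3 * (Ω * x / c)) := by ring
        rw [e']
        exact Pool.Agent.D0H43.L3.Cub.lam_mem hC h)
      refine ⟨_, _, rfl, rfl, p1, cube_at hC i n1 l1 q1, ?_⟩
      have h := cube_at hC i (u := -(Ω * x / c)) (by
        have e' : 3 * -(Ω * x / c) = -(3 * (Ω * x / c)) := by ring
        rw [e']
        exact n2) (by
        have e' : 3 * -(Ω * x / c) = -(3 * (Ω * x / c)) := by ring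
        rw [e']
        exact l2) (by
        have e' : 3 * -(Ω * x / c) = -(3 * (Ω * x / c)) := by ring
        rw [e']
        exact q2)
      have e' : 3 * -(Ω * x / c) = -(3 * (Ω * x / c)) := by ring
      rw [e', L.weierstrassP_neg, L.derivWeierstrassP_neg] at h
      rw [sub_eq_add_neg (Ω / 9), h]
      ring
    obtain ⟨X, Y, hX, hY, hp, ha, hb⟩ := key x hx
    obtain ⟨Xw, Yw, hXw, hYw, hpw, haw, hbw⟩ := key (omr * x) (omr_cop hx)
    have eX : Xw = toC w * X := by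
      rw [hXw, hX, toC_w]
      have e : 3 * (Ω * ((omr * x : eis) : ℂ) / c) = (omr : ℂ) * (3 * (Ω * x / c)) := by
        push_cast
        ring
      rw [e, wp_unit hC.lat omr_unit, omr_coe]
      have h1 : (om ^ 2)⁻¹ = om := by
        have h2 := Pool.Agent.Y696.om_cube
        have h3 : om ≠ 0 := by
          intro h
          rw [h] at h2
          norm_num at h2
        field_simp
        linear_combination -h2
      rw [h1]
    have eY : Yw = Y := by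
      rw [hYw, hY]
      have e : 3 * (Ω * ((omr * x : eis) : ℂ) / c) = (omr : ℂ) * (3 * (Ω * x / c)) := by
        push_cast
        ring
      rw [e, dwp_unit hC.lat omr_unit, omr_coe, Pool.Agent.Y696.om_cube, inv_one, one_mul]
    rw [eX, eY] at hpw haw hbw
    have hw3 : toC w ^ 3 = 1 := w_three
    have hw1 : toC w ≠ 1 := by
      rw [toC_w]
      intro h
      have h2 := Pool.Agent.Y696.om_sq
      rw [h] at h2
      norm_num at h2
    refine ⟨tau_le h3 ht hd2 p0 hg0 hp ha hb, ?_⟩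
    have t1 := tau_main h3 ht hd2 p0 hg0 hp ha hb
    have t2 := tau_main h3 ht hd2 p0 hg0 hpw haw hbw
    have t3 := N1_near h3 ht hp p0 hw3 hw1 hpw
    unfold tauN
    set A := gN L Ω i (Ω / 9 + Ω * x / c) / g0N L Ω i + gN L Ω i (Ω / 9 - Ω * x / c) / g0N L Ω i - 2
    set A' := gN L Ω i (Ω / 9 + Ω * ((omr * x : eis) : ℂ) / c) / g0N L Ω i +
      gN L Ω i (Ω / 9 - Ω * ((omr * x : eis) : ℂ) / c) / g0N L Ω i - 2
    have e : A' ^ 3 - A ^ 3 - (1 - toC w) =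
        (A' ^ 3 - (2 * RR (℘[L] (Ω / 3)) (toC w ^ i.val) (℘[L] (Ω / 3) - toC w * X)
          (℘[L] (Ω / 3) - ℘[L] (3 * (Ω / 2))) - 2)) -
        (A ^ 3 - (2 * RR (℘[L] (Ω / 3)) (toC w ^ i.val) (℘[L] (Ω / 3) - X)
          (℘[L] (Ω / 3) - ℘[L] (3 * (Ω / 2))) - 2)) +
        (2 * RR (℘[L] (Ω / 3)) (toC w ^ i.val) (℘[L] (Ω / 3) - toC w * X)
          (℘[L] (Ω / 3) - ℘[L] (3 * (Ω / 2))) -
        2 * RR (℘[L] (Ω / 3)) (toC w ^ i.val) (℘[L] (Ω / 3) - X)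
          (℘[L] (Ω / 3) - ℘[L] (3 * (Ω / 2))) - (1 - toC w)) := by ring
    rw [e]
    exact v.map_add_lt (v.map_sub_lt t2 t1) t3

end Pool.Agent.D0H43.L9
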